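import Pool.Agent.H.MP_bb4c62_an.JL.BasicA

/-!
# Module JL/BasicB: the test operators

`prp_one` (a square zero test of rank one) and `prp_two` (a square zero test of rank two). Let
`D = ten y g + ten z g'` (all four numbers `g y, g z, g' y, g' z` are `0`, so `D * D = 0`), `K = T D + e D T`.
(⟹) `K y = e • (g (T y) • y + g' (T y) • z)`, `K z = e • (g (T z) • y + g' (T z) • z)`. `qn_iff`: `1 - s • K` is
injective for all `s`; if `1 + s * (-(e * t)) + s ^ 2 * (e ^ 2 * d) = 0` (`t` trace, `d` determinant of the
2x2 matrix) there is `(a, b) ≠ 0` with `(1 - s • K) (a • y + b • z) = 0` (see `qn_two` in QP/Basic), so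
`a • y + b • z = 0`, `a = b = 0` by independence. Then `quad_const`.
(⟸) if trace and determinant are `0` then `(D T) (D T) D = 0` (square of a nilpotent 2x2 matrix), so for
`a = T D`, `b = D T`: `a * b = 0`, `a ^ 3 = 0`, `b ^ 3 = 0` and `(a + e • b) ^ 5 = 0`
(`a * b = 0` so `(a + e b) ^ n` is the sum of `(e b) ^ i * a ^ j`, `i + j = n`); nilpotent operators are
quasinilpotent (see helper6/NLine2, line 19). `prp_one` is similar and easier (`y = 0` is trivial).
`prp_nil`: by `prp_add`, `prp_symm`, `prp_one`.
-/

namespace Pool.Agent.H.MP_bb4c62_an.JL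

open Pool.Agent.H.MP_bb4c62_an.helper6.NL
open Pool.Agent.H.MP_bb4c62_an.helper6.Perturb
open Pool.Agent.H.MP_bb4c62_an.helper6.Gadgets

variable {X : Type*} [NormedAddCommGroup X] [NormedSpace ℂ X]

theorem BasicB_pow {R : Type*} [Ring R] {a c : R} (h : a * c = 0) (ha : a * a * a = 0)
    (hc : c * c * c = 0) : (a + c) ^ 5 = 0 := by
  have h2 : (a + c) * (a + c) = a * a + c * a + c * c := by
    rw [mul_add, add_mul, add_mul, h]
    abel
  have h3 : (a + c) * ((a + c) * (a + c)) = c * (a * a) + c * c * a := by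
    have e1 : (a + c) * (a * a + c * a + c * c) =
        a * a * a + a * c * a + a * c * c + (c * (a * a) + c * c * a + c * c * c) := by
      noncomm_ring
    rw [h2, e1, ha, hc, h]
    simp only [zero_mul]
    abel
  have h4 : (a + c) * ((a + c) * ((a + c) * (a + c))) = c * c * (a * a) := by
    have e1 : (a + c) * (c * (a * a) + c * c * a) =
        a * c * (a * a) + a * c * c * a + (c * c * (a * a) + c * c * c * a) := by
      noncomm_ring
    rw [h3, e1, h, hc]
    simp only [zero_mul]
    abel
  have h5 : (a + c) * ((a + c) * ((a + c) * ((a + c) * (a + c)))) = 0 := by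
    have e1 : (a + c) * (c * c * (a * a)) = a * c * (c * (a * a)) + c * c * c * (a * a) := by
      noncomm_ring
    rw [h4, e1, h, hc, zero_mul, zero_mul, add_zero]
  rw [← h5]
  simp only [pow_succ, pow_zero, one_mul, mul_assoc]

theorem BasicB_ne {e : ℂ} (he : Sg e) : e ≠ 0 := by
  rcases he with h | h
  · rw [h]
    exact one_ne_zero
  · rw [h]
    exact neg_ne_zero.mpr one_ne_zero

theorem prp_one [CompleteSpace X] {e : ℂ} (he : Sg e) {T : X →L[ℂ] X} {y : X}
    {g : X →L[ℂ] ℂ} (hg : g y = 0) : Prp e T (ten y g) ↔ g (T y) = 0 := by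
  constructor
  · intro h
    by_cases hy : y = 0
    · rw [hy, map_zero, map_zero]
    have h1 : (T * ten y g + e • (ten y g * T)) y = (e * g (T y)) • y := by
      show T (g y • y) + e • (g (T y) • y) = _
      rw [hg, zero_smul, map_zero, zero_add, smul_smul]
    have h2 := qn_eig h hy h1
    exact (mul_eq_zero.mp h2).resolve_left (BasicB_ne he)
  · intro h
    have e0 : ∀ c : ℂ, g (c • y) = 0 := fun c => by rw [map_smul, hg, smul_zero]
    have e1 : ∀ c : ℂ, g (T (c • y)) = 0 := fun c => by rw [map_smul, map_smul, h, smul_zero]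
    have hab : (T * ten y g) * (e • (ten y g * T)) = 0 := by
      ext x
      show T (g (e • (g (T x) • y)) • y) = 0
      rw [smul_smul, e0, zero_smul, map_zero]
    have haa : (T * ten y g) * (T * ten y g) = 0 := by
      ext x
      show T (g (T (g x • y)) • y) = 0
      rw [e1, zero_smul, map_zero]
    have hbb : (e • (ten y g * T)) * (e • (ten y g * T)) = 0 := by
      ext x
      show e • (g (T (e • (g (T x) • y))) • y) = 0
      rw [smul_smul e (g (T x)) y, e1, zero_smul, smul_zero]
    exact qn_of_pow (BasicB_pow hab (by rw [haa, zero_mul]) (by rw [hbb, zero_mul]))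

theorem BasicB_forward [CompleteSpace X] {K : X →L[ℂ] X} (hK : QN K) {y z : X}
    (hyz : LinearIndependent ℂ ![y, z]) {p q r t : ℂ} (h1 : K y = p • y + q • z)
    (h2 : K z = r • y + t • z) : p + t = 0 ∧ p * t - r * q = 0 := by
  have key : ∀ s : ℂ, 1 + s * (-(p + t)) + s ^ 2 * (p * t - r * q) ≠ 0 := by
    intro s hs
    have hdet : (!![1 - s * p, -(s * r); -(s * q), 1 - s * t] :
        Matrix (Fin 2) (Fin 2) ℂ).det = 0 := by
      rw [Matrix.det_fin_two_of]
      linear_combination hs
    obtain ⟨w, hw, hw0⟩ := Matrix.exists_mulVec_eq_zero_iff.mpr hdet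
    have e0 := congrFun hw0 0
    have e1 := congrFun hw0 1
    simp only [Matrix.mulVec, dotProduct, Fin.sum_univ_two, Matrix.of_apply, Matrix.cons_val',
      Matrix.cons_val_zero, Matrix.cons_val_one, Matrix.cons_val_fin_one, Pi.zero_apply] at e0 e1
    have ea : w 0 - s * (w 0 * p + w 1 * r) = 0 := by linear_combination e0
    have eb : w 1 - s * (w 0 * q + w 1 * t) = 0 := by linear_combination e1
    obtain ⟨U, hU⟩ := (qn_iff _).mp hK s
    have h3 : (U : X →L[ℂ] X) (w 0 • y + w 1 • z) = 0 := by
      rw [hU]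
      show (w 0 • y + w 1 • z) - s • K (w 0 • y + w 1 • z) = 0
      rw [map_add, map_smul, map_smul, h1, h2]
      have e2 : (w 0 • y + w 1 • z) - s • (w 0 • (p • y + q • z) + w 1 • (r • y + t • z)) =
          (w 0 - s * (w 0 * p + w 1 * r)) • y + (w 1 - s * (w 0 * q + w 1 * t)) • z := by
        module
      rw [e2, ea, eb, zero_smul, zero_smul, add_zero]
    have h4 : w 0 • y + w 1 • z = 0 := by
      have h5 : ((↑U⁻¹ * (↑U : X →L[ℂ] X)) : X →L[ℂ] X) (w 0 • y + w 1 • z) =
          w 0 • y + w 1 • z := by
        rw [Units.inv_mul]; rfl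
      rw [← h5]
      show (↑U⁻¹ : X →L[ℂ] X) ((↑U : X →L[ℂ] X) (w 0 • y + w 1 • z)) = 0
      rw [h3, map_zero]
    obtain ⟨h6, h7⟩ := LinearIndependent.pair_iff.mp hyz _ _ h4
    apply hw
    funext i
    fin_cases i
    · exact h6
    · exact h7
  obtain ⟨h3, h4⟩ := quad_const key
  exact ⟨neg_eq_zero.mp h3, h4⟩

theorem prp_two [CompleteSpace X] {e : ℂ} (he : Sg e) {T : X →L[ℂ] X} {y z : X}
    {g g' : X →L[ℂ] ℂ} (hyz : LinearIndependent ℂ ![y, z]) (h1 : g y = 0) (h2 : g z = 0)
    (h3 : g' y = 0) (h4 : g' z = 0) :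
    Prp e T (ten y g + ten z g') ↔
      g (T y) + g' (T z) = 0 ∧ g (T y) * g' (T z) - g (T z) * g' (T y) = 0 := by
  have he0 := BasicB_ne he
  constructor
  · intro h
    have e1 : (T * (ten y g + ten z g') + e • ((ten y g + ten z g') * T)) y =
        (e * g (T y)) • y + (e * g' (T y)) • z := by
      show T (g y • y + g' y • z) + e • (g (T y) • y + g' (T y) • z) = _
      rw [h1, h3, zero_smul, zero_smul, add_zero, map_zero, zero_add]
      module
    have e2 : (T * (ten y g + ten z g') + e • ((ten y g + ten z g') * T)) z =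
        (e * g (T z)) • y + (e * g' (T z)) • z := by
      show T (g z • y + g' z • z) + e • (g (T z) • y + g' (T z) • z) = _
      rw [h2, h4, zero_smul, zero_smul, add_zero, map_zero, zero_add]
      module
    obtain ⟨h5, h6⟩ := BasicB_forward h hyz e1 e2
    refine ⟨mul_left_cancel₀ he0 ?_, mul_left_cancel₀ (mul_ne_zero he0 he0) ?_⟩
    · linear_combination h5
    · linear_combination h6
  · rintro ⟨ht, hd⟩
    have hDD : ∀ x, (ten y g + ten z g') ((ten y g + ten z g') x) = 0 := by
      intro x
      show g (g x • y + g' x • z) • y + g' (g x • y + g' x • z) • z = 0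
      rw [map_add, map_add, map_smul, map_smul, map_smul, map_smul, h1, h2, h3, h4, smul_zero,
        smul_zero, add_zero, zero_smul, zero_smul, add_zero]
    have hT : ∀ a b : ℂ, (ten y g + ten z g') (T (a • y + b • z)) =
        (a * g (T y) + b * g (T z)) • y + (a * g' (T y) + b * g' (T z)) • z := by
      intro a b
      show g (T (a • y + b • z)) • y + g' (T (a • y + b • z)) • z = _
      simp only [map_add, map_smul, smul_eq_mul]
    have hD5 : ∀ x, (ten y g + ten z g') (T ((ten y g + ten z g') (T ((ten y g + ten z g') x)))) =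
        0 := by
      intro x
      have hx : (ten y g + ten z g') x = g x • y + g' x • z := rfl
      have c1 : (g x * g (T y) + g' x * g (T z)) * g (T y) +
          (g x * g' (T y) + g' x * g' (T z)) * g (T z) = 0 := by
        linear_combination g x * (g (T y) * ht - hd) + g' x * g (T z) * ht
      have c2 : (g x * g (T y) + g' x * g (T z)) * g' (T y) +
          (g x * g' (T y) + g' x * g' (T z)) * g' (T z) = 0 := by
        linear_combination g x * g' (T y) * ht + g' x * (g' (T z) * ht - hd)
      rw [hx, hT, hT, c1, c2, zero_smul, zero_smul, add_zero]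
    have hab : (T * (ten y g + ten z g')) * (e • ((ten y g + ten z g') * T)) = 0 := by
      ext x
      show T ((ten y g + ten z g') (e • ((ten y g + ten z g') (T x)))) = 0
      rw [map_smul, hDD, smul_zero, map_zero]
    have haa : (T * (ten y g + ten z g')) * (T * (ten y g + ten z g')) *
        (T * (ten y g + ten z g')) = 0 := by
      ext x
      show T ((ten y g + ten z g') (T ((ten y g + ten z g') (T ((ten y g + ten z g') x))))) = 0
      rw [hD5, map_zero]
    have hbb : (e • ((ten y g + ten z g') * T)) * (e • ((ten y g + ten z g') * T)) *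
        (e • ((ten y g + ten z g') * T)) = 0 := by
      ext x
      show e • (ten y g + ten z g') (T (e • (ten y g + ten z g') (T (e •
        (ten y g + ten z g') (T x))))) = 0
      simp only [map_smul, hD5, smul_zero]
    exact qn_of_pow (BasicB_pow hab haa hbb)

theorem prp_nil [CompleteSpace X] {e s : ℂ} (he : Sg e) (hs : Sc e s) {w : X}
    {h : X →L[ℂ] ℂ} (hw : h w = 0) {S : X →L[ℂ] X} :
    Prp e (s • (1 : X →L[ℂ] X) + ten w h) S ↔ h (S w) = 0 := by
  rw [add_comm, prp_add hs, prp_symm he, prp_one he hw]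

end Pool.Agent.H.MP_bb4c62_an.JL
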