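import Pool.Agent.H.MP_bb4c62_an.JL.Fam

/-!
# Module JL/CaseA1

Let `y, A y, B y` be independent, `Z = span {y, A y, B y}`, `z ∉ Z`.
`ca_out`: suppose that `U z ∉ Z + ℂ z`. There is `g1` with `g1 = 0` on `Z` and in `z`, `g1 (U z) = 1`
(`exists_sep_sub`). For every `g0` with `g0 y = g0 z = 0` there is by `hl_meet2` (with `y, z, g0, g1`) a member
`W` with `g0 (W y) + g1 (W z) = 0` and `g0 (W y) * g1 (W z) - g0 (W z) * g1 (W y) = 0`; `W y ∈ Z` (`hl_span`), so
`g1 (W y) = 0`, and `g0 (W y) = 0`, `g1 (W z) = 0`. Let `W0` be such a member (for `g0 = 0` say). If `W` is one with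
`¬ Par e W0 W` then `g1 (U z) = 0` by `hl_fun`, a contradiction. So `W = c W0 + s`, `c ≠ 0` because `W y` is not a
multiple of `y` (`hl_li1`), and `g0 (W0 y) = 0` for all `g0` with `g0 y = g0 z = 0`. So `W0 y ∈ span {y, z}`
(`HLine_mem` in QP/HLine) and in `Z`; as `z ∉ Z` it is a multiple of `y`, a contradiction to `hl_li1`.
`ca_scal`: `scalar_mod` with `K = ⊥` (`z ∉ Z` implies `z ≠ 0`; `⊥ ≠ ⊤`) and `exists_two_mod`.
-/

namespace Pool.Agent.H.MP_bb4c62_an.JL

open Pool.Agent.H.MP_bb4c62_an.helper6.NL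
open Pool.Agent.H.MP_bb4c62_an.helper6.Perturb
open Pool.Agent.H.MP_bb4c62_an.helper6.Gadgets

variable {X : Type*} [NormedAddCommGroup X] [NormedSpace ℂ X]

section Fix

variable [CompleteSpace X] {e : ℂ} (he : Sg e) {ℓ : Set (X →L[ℂ] X)} (hℓ : HLine e ℓ)
  {A B : X →L[ℂ] X} (hA : A ∈ ℓ) (hB : B ∈ ℓ) {y : X}
  (hy : LinearIndependent ℂ ![y, A y, B y])

include he hℓ hA hB hy

theorem ca_out {U : X →L[ℂ] X} (hU : U ∈ ℓ) {z : X}
    (hz : z ∉ Submodule.span ℂ {y, A y, B y}) :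
    ∃ c : ℂ, U z - c • z ∈ Submodule.span ℂ {y, A y, B y} := by
  by_contra hcon
  push Not at hcon
  have hAB : ¬ Par e A B := not_par_of_li hy
  have hy0 : y ≠ 0 := hy.ne_zero 0
  have hyZ : y ∈ Submodule.span ℂ ({y, A y, B y} : Set X) := Submodule.subset_span (by simp)
  have hM : U z ∉ Submodule.span ℂ (insert z ({y, A y, B y} : Set X)) := by
    intro h
    obtain ⟨c, w, hw, h1⟩ := Submodule.mem_span_insert.1 h
    refine hcon c ?_
    rw [h1, add_sub_cancel_left]
    exact hw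
  obtain ⟨g1, hg1, hg1U⟩ := exists_sep_sub (Submodule.fg_span
    (Set.toFinite (insert z ({y, A y, B y} : Set X)))) hM
  have hZM : Submodule.span ℂ ({y, A y, B y} : Set X) ≤
      Submodule.span ℂ (insert z ({y, A y, B y} : Set X)) :=
    Submodule.span_mono (Set.subset_insert _ _)
  have hg1z : g1 z = 0 := hg1 z (Submodule.subset_span (Set.mem_insert _ _))
  have hg1y : g1 y = 0 := hg1 y (hZM hyZ)
  have hyz : LinearIndependent ℂ ![y, z] := by
    rw [LinearIndependent.pair_iff]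
    intro a b hab
    have hb : b = 0 := by
      by_contra hb
      refine hz ?_
      have e1 : z = b⁻¹ • (-(a • y)) := by
        have e2 : -(a • y) = b • z := by
          rw [neg_eq_iff_add_eq_zero]
          exact hab
        rw [e2, smul_smul, inv_mul_cancel₀ hb, one_smul]
      rw [e1]
      exact Submodule.smul_mem _ _ (Submodule.neg_mem _ (Submodule.smul_mem _ _ hyZ))
    refine ⟨?_, hb⟩
    rw [hb, zero_smul, add_zero] at hab
    exact (smul_eq_zero.1 hab).resolve_right hy0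
  have hW : ∀ g0 : X →L[ℂ] ℂ, g0 y = 0 → g0 z = 0 → ∃ W ∈ ℓ, g0 (W y) = 0 ∧ g1 (W z) = 0 := by
    intro g0 h0 h0'
    obtain ⟨W, hW, h1, h2⟩ := hl_meet2 he hℓ hyz h0 h0' hg1y hg1z
    have h3 : g1 (W y) = 0 := hg1 _ (hZM (hl_span he hℓ hA hB hAB hW y))
    rw [h3, mul_zero, sub_zero] at h2
    rcases mul_eq_zero.1 h2 with h4 | h4
    · refine ⟨W, hW, h4, ?_⟩
      rwa [h4, zero_add] at h1
    · refine ⟨W, hW, ?_, h4⟩
      rwa [h4, add_zero] at h1
  obtain ⟨W0, hW0, -, hW0z⟩ := hW 0 (by simp) (by simp)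
  have hspan : W0 y ∈ Submodule.span ℂ ({y, z} : Set X) := by
    by_contra hn
    obtain ⟨g0, hg0, hg0W⟩ := exists_sep_sub (Submodule.fg_span
      (Set.toFinite ({y, z} : Set X))) hn
    have hg0y : g0 y = 0 := hg0 y (Submodule.subset_span (by simp))
    have hg0z : g0 z = 0 := hg0 z (Submodule.subset_span (by simp))
    obtain ⟨W, hWm, hWy, hWz⟩ := hW g0 hg0y hg0z
    have hpar : Par e W0 W := by
      by_contra hp
      have h := hl_fun he hℓ hW0 hWm hp hU hg1z hW0z hWz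
      rw [h] at hg1U
      exact zero_ne_one hg1U
    obtain ⟨c, s, -, hc⟩ := hpar
    have hWy' : W y = c • W0 y + s • y := by
      rw [hc]
      rfl
    have hc0 : c ≠ 0 := by
      rintro rfl
      have hli := hl_li1 he hℓ hA hB hy hWm
      rw [LinearIndependent.pair_iff] at hli
      have h5 := (hli (-s) 1 (by rw [hWy', zero_smul, zero_add, one_smul, neg_smul, neg_add_cancel])).2
      exact one_ne_zero h5
    rw [hWy', map_add, map_smul, map_smul, hg0W, hg0y, smul_zero, add_zero, smul_eq_mul,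
      mul_one] at hWy
    exact hc0 hWy
  obtain ⟨a, b, hab⟩ := Submodule.mem_span_pair.1 hspan
  have hli := hl_li1 he hℓ hA hB hy hW0
  rw [LinearIndependent.pair_iff] at hli
  by_cases hb : b = 0
  · rw [hb, zero_smul, add_zero] at hab
    have h5 := (hli (-a) 1 (by rw [← hab, one_smul, neg_smul, neg_add_cancel])).2
    exact one_ne_zero h5
  · refine hz ?_
    have e1 : z = b⁻¹ • (W0 y - a • y) := by
      rw [← hab, add_sub_cancel_left, smul_smul, inv_mul_cancel₀ hb, one_smul]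
    rw [e1]
    exact Submodule.smul_mem _ _ (Submodule.sub_mem _ (hl_span he hℓ hA hB hAB hW0 y)
      (Submodule.smul_mem _ _ hyZ))

theorem ca_scal (h5 : Dim5 X) {U : X →L[ℂ] X} (hU : U ∈ ℓ) :
    ∃ c : ℂ, ∀ z, U z - c • z ∈ Submodule.span ℂ {y, A y, B y} := by
  have hy0 : y ≠ 0 := hy.ne_zero 0
  have hbt : (⊥ : Submodule ℂ X) ≠ ⊤ := by
    intro h
    have h1 : y ∈ (⊥ : Submodule ℂ X) := by
      rw [h]
      exact Submodule.mem_top
    exact hy0 ((Submodule.mem_bot ℂ).1 h1)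
  obtain ⟨c, hc⟩ := scalar_mod (Submodule.span ℂ {y, A y, B y}) ⊥ hbt
    (exists_two_mod h5 y (A y) (B y)) (U : X →ₗ[ℂ] X)
    (fun z hz _ => ca_out he hℓ hA hB hy hU hz)
  exact ⟨c, hc⟩

end Fix

end Pool.Agent.H.MP_bb4c62_an.JL
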