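import Pool.Agent.H.MP_bb4c62_an.JL.CaseA1

/-!
# Module JL/CaseA2

Let `Z = span {y, A y, B y}`. Choose `v ∉ Z` (`exists_notMem4`) and `t ≠ 0` such that for `y' = y + t v` the vectors
`y', A y', B y'` are independent (`LinearIndependent.eventually`, or a determinant which is a polynomial in `t`);
`y' ∉ Z`. `Z' = span {y', A y', B y'}`. By `ca_scal` for `y` and for `y'`: `U - c` maps into `Z`, `U - c'` maps into
`Z'`. With `U = A`, `c = a`: `n1 = A y' - a y' ∈ Z`, `n2 = B y' - b y' ∈ Z`, `Z' = span {y', n1, n2}`. So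
`(c - c') z ∈ Z + Z' ⊆ span {y, A y, B y, y'}` for all `z`; `exists_notMem4` gives `c = c'`. `Z ∩ Z' = span {n1, n2}` (if
`k y' + r n1 + s n2 ∈ Z` then `k y' ∈ Z`, `k = 0`). So `U - c` maps into `span {n1, n2}`.
`y', n1, n2` are independent because `y', A y', B y'` are.
-/

namespace Pool.Agent.H.MP_bb4c62_an.JL

open Pool.Agent.H.MP_bb4c62_an.helper6.NL
open Pool.Agent.H.MP_bb4c62_an.helper6.Perturb
open Pool.Agent.H.MP_bb4c62_an.helper6.Gadgets

variable {X : Type*} [NormedAddCommGroup X] [NormedSpace ℂ X]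

private theorem CaseA2_near (A B : X →L[ℂ] X) {y : X} (hy : LinearIndependent ℂ ![y, A y, B y])
    (v : X) : ∃ t : ℂ, t ≠ 0 ∧
      LinearIndependent ℂ ![y + t • v, A (y + t • v), B (y + t • v)] := by
  have h1 := hy.eventually
  have h2 : Filter.Tendsto (fun t : ℂ => ![y + t • v, A (y + t • v), B (y + t • v)]) (nhds 0)
      (nhds ![y, A y, B y]) := by
    have hc : Continuous (fun t : ℂ => ![y + t • v, A (y + t • v), B (y + t • v)]) := by
      refine continuous_pi fun i => ?_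
      fin_cases i
      · show Continuous fun t : ℂ => y + t • v
        fun_prop
      · show Continuous fun t : ℂ => A (y + t • v)
        fun_prop
      · show Continuous fun t : ℂ => B (y + t • v)
        fun_prop
    have h3 := hc.tendsto 0
    rw [zero_smul, add_zero] at h3
    exact h3
  have h3 := (h2.eventually h1).filter_mono (nhdsWithin_le_nhds (s := {(0 : ℂ)}ᶜ))
  obtain ⟨t, ht1, ht2⟩ := (h3.and self_mem_nhdsWithin).exists
  exact ⟨t, ht2, ht1⟩

private theorem CaseA2_li {y u w : X} (h : LinearIndependent ℂ ![y, u, w]) (a b : ℂ) :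
    LinearIndependent ℂ ![y, u - a • y, w - b • y] := by
  rw [Fintype.linearIndependent_iff] at h ⊢
  intro g hg
  rw [Fin.sum_univ_three] at hg
  have hg' : g 0 • y + g 1 • (u - a • y) + g 2 • (w - b • y) = 0 := hg
  have h1 := h ![g 0 - g 1 * a - g 2 * b, g 1, g 2] (by
    rw [Fin.sum_univ_three]
    show (g 0 - g 1 * a - g 2 * b) • y + g 1 • u + g 2 • w = 0
    rw [← hg']
    module)
  have e0 : g 0 - g 1 * a - g 2 * b = 0 := h1 0
  have e1 : g 1 = 0 := h1 1
  have e2 : g 2 = 0 := h1 2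
  intro i
  fin_cases i
  · show g 0 = 0
    rw [e1, e2] at e0
    linear_combination e0
  · exact e1
  · exact e2

theorem ca_plane [CompleteSpace X] {e : ℂ} (he : Sg e) (h5 : Dim5 X)
    {ℓ : Set (X →L[ℂ] X)} (hℓ : HLine e ℓ) {A B : X →L[ℂ] X} (hA : A ∈ ℓ) (hB : B ∈ ℓ) {y : X}
    (hy : LinearIndependent ℂ ![y, A y, B y]) :
    ∃ (y' n1 n2 : X) (a b : ℂ), LinearIndependent ℂ ![y', n1, n2] ∧ A y' - a • y' = n1 ∧
      B y' - b • y' = n2 ∧ (∀ z, A z - a • z ∈ Submodule.span ℂ {n1, n2}) ∧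
      (∀ z, B z - b • z ∈ Submodule.span ℂ {n1, n2}) ∧
      ∀ U ∈ ℓ, ∃ c : ℂ, ∀ z, U z - c • z ∈ Submodule.span ℂ {n1, n2} := by
  obtain ⟨v, hv⟩ := exists_notMem4 h5 y (A y) (B y) 0
  have hvZ : v ∉ Submodule.span ℂ {y, A y, B y} := by
    intro h
    apply hv
    refine Submodule.span_mono ?_ h
    intro x hx
    simp only [Set.mem_insert_iff, Set.mem_singleton_iff] at hx ⊢
    tauto
  obtain ⟨t, ht, hy'⟩ := CaseA2_near A B hy v
  obtain ⟨y', hy'def⟩ : ∃ y', y' = y + t • v := ⟨_, rfl⟩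
  rw [← hy'def] at hy'
  have hyZ : y ∈ Submodule.span ℂ {y, A y, B y} := Submodule.subset_span (by simp)
  have hy'Z : y' ∉ Submodule.span ℂ {y, A y, B y} := by
    intro h
    apply hvZ
    have h1 : t • v ∈ Submodule.span ℂ {y, A y, B y} := by
      have h2 := Submodule.sub_mem _ h hyZ
      rw [hy'def, add_sub_cancel_left] at h2
      exact h2
    exact (Submodule.smul_mem_iff _ ht).1 h1
  obtain ⟨a, ha⟩ := ca_scal he hℓ hA hB hy h5 hA
  obtain ⟨b, hb⟩ := ca_scal he hℓ hA hB hy h5 hB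
  have hn1 : A y' - a • y' ∈ Submodule.span ℂ {y, A y, B y} := ha y'
  have hn2 : B y' - b • y' ∈ Submodule.span ℂ {y, A y, B y} := hb y'
  -- the members of `Z'`
  have hZ' : ∀ w ∈ Submodule.span ℂ {y', A y', B y'}, ∃ k r s : ℂ,
      w = k • y' + r • (A y' - a • y') + s • (B y' - b • y') := by
    intro w hw
    obtain ⟨p, q, r, h⟩ := Submodule.mem_span_triple.1 hw
    refine ⟨p + q * a + r * b, q, r, ?_⟩
    rw [← h]
    module
  have hY4 : ∀ w ∈ Submodule.span ℂ {y, A y, B y},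
      w ∈ Submodule.span ℂ {y, A y, B y, y'} := by
    intro w hw
    refine Submodule.span_mono ?_ hw
    intro x hx
    simp only [Set.mem_insert_iff, Set.mem_singleton_iff] at hx ⊢
    tauto
  have hy'4 : y' ∈ Submodule.span ℂ {y, A y, B y, y'} := Submodule.subset_span (by simp)
  have hZ'4 : ∀ w ∈ Submodule.span ℂ {y', A y', B y'},
      w ∈ Submodule.span ℂ {y, A y, B y, y'} := by
    intro w hw
    obtain ⟨k, r, s, h⟩ := hZ' w hw
    rw [h]
    exact Submodule.add_mem _ (Submodule.add_mem _ (Submodule.smul_mem _ _ hy'4)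
      (Submodule.smul_mem _ _ (hY4 _ hn1))) (Submodule.smul_mem _ _ (hY4 _ hn2))
  obtain ⟨u, hu⟩ := exists_notMem4 h5 y (A y) (B y) y'
  have hcc : ∀ U ∈ ℓ, ∀ c : ℂ, (∀ z, U z - c • z ∈ Submodule.span ℂ {y, A y, B y}) →
      ∀ z, U z - c • z ∈ Submodule.span ℂ {A y' - a • y', B y' - b • y'} := by
    intro U hU c hc z
    obtain ⟨c', hc'⟩ := ca_scal he hℓ hA hB hy' h5 hU
    have h1 : (c - c') • u ∈ Submodule.span ℂ {y, A y, B y, y'} := by
      have h2 := Submodule.sub_mem _ (hZ'4 _ (hc' u)) (hY4 _ (hc u))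
      have h3 : U u - c' • u - (U u - c • u) = (c - c') • u := by module
      rwa [h3] at h2
    have h4 : c = c' := by
      by_contra hne
      exact hu ((Submodule.smul_mem_iff _ (sub_ne_zero.2 hne)).1 h1)
    subst h4
    obtain ⟨k, r, s, h⟩ := hZ' _ (hc' z)
    have h5' : k • y' ∈ Submodule.span ℂ {y, A y, B y} := by
      have h6 : k • y' = (U z - c • z) - (r • (A y' - a • y') + s • (B y' - b • y')) := by
        rw [h]
        module
      rw [h6]
      exact Submodule.sub_mem _ (hc z) (Submodule.add_mem _ (Submodule.smul_mem _ _ hn1)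
        (Submodule.smul_mem _ _ hn2))
    have hk : k = 0 := by
      by_contra hk
      exact hy'Z ((Submodule.smul_mem_iff _ hk).1 h5')
    rw [h, hk, zero_smul, zero_add]
    exact Submodule.mem_span_pair.2 ⟨r, s, rfl⟩
  refine ⟨y', A y' - a • y', B y' - b • y', a, b, CaseA2_li hy' a b, rfl, rfl,
    hcc A hA a ha, hcc B hB b hb, fun U hU => ?_⟩
  obtain ⟨c, hc⟩ := ca_scal he hℓ hA hB hy h5 hU
  exact ⟨c, hcc U hU c hc⟩

end Pool.Agent.H.MP_bb4c62_an.JL
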