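import Pool.Agent.H.MP_bb4c62_an.JL.Fam

/-!
# Module JL/CaseA3

`N = span {n1, n2}`, `A y = a y + n1`, `B y = b y + n2`; `y, A y, B y` are independent. `z ∉ span {y, n1, n2}`, `w ∈ N`
not `0`, `A z - a z = r w`, `B z - b z = s w`. Claim: `r = s = 0`. Suppose not. Every member `U` has `U = c + R` with `R`
into `N`, and `R z` is a multiple of `w`: `U z ∈ span {z, A z, B z} ⊆ span {z, w}` (`hl_span`, `not_par_of_li`) and
`z ∉ N`. Let `w'` be such that `w, w'` span `N`; `y, z, w, w'` are independent; for `k = 0, 1` let `g` (depending on `k`),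
`g'` be functionals (`exists_dual_family`) with `g y = g z = g' y = g' z = 0`, `g w = 1`, `g w' = k`, `g' w = 0`,
`g' w' = 1`. `hl_meet2` (`y, z, g, g'`): there is `U = c + R` in `ℓ` with `g (R y) + g' (R z) = 0`,
`g (R y) * g' (R z) - g (R z) * g' (R y) = 0`; `g' (R z) = 0`; so `g (R y) = 0` and `g (R z) = 0` or `g' (R y) = 0`. In the
second case `R y = 0` (`R y ∈ N`, `g` and `g'` independent on `N`), a contradiction to `hl_li1`. So `g (R z) = 0`, `R z = 0`
(a multiple of `w`), `R y` is a multiple of `w' - k w`. The two members `U0`, `U1` (for `k = 0, 1`): `¬ Par e U0 U1`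
(otherwise `R1 y` would be a multiple of `R0 y`: compare `U1 y = c U0 y + s y` with independence of `y, w, w'`; they are
not zero by `hl_li1`). `hl_span` for `U0, U1` at `z`: `A z ∈ span {z, U0 z, U1 z} = ℂ z`, so `r w ∈ ℂ z`, `r = 0`; the same
for `B`, `s = 0`.
-/

namespace Pool.Agent.H.MP_bb4c62_an.JL

open Pool.Agent.H.MP_bb4c62_an.helper6.NL
open Pool.Agent.H.MP_bb4c62_an.helper6.Perturb
open Pool.Agent.H.MP_bb4c62_an.helper6.Gadgets

variable {X : Type*} [NormedAddCommGroup X] [NormedSpace ℂ X]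

/-- dual functionals for `z, y, n1, n2` -/
private theorem CaseA3_dual {y n1 n2 z : X} (hli : LinearIndependent ℂ ![y, n1, n2])
    (hz : z ∉ Submodule.span ℂ {y, n1, n2}) :
    ∃ p0 p1 p2 p3 : X →L[ℂ] ℂ, (p0 z = 1 ∧ p0 y = 0 ∧ p0 n1 = 0 ∧ p0 n2 = 0) ∧
      (p1 z = 0 ∧ p1 y = 1 ∧ p1 n1 = 0 ∧ p1 n2 = 0) ∧
      (p2 z = 0 ∧ p2 y = 0 ∧ p2 n1 = 1 ∧ p2 n2 = 0) ∧
      (p3 z = 0 ∧ p3 y = 0 ∧ p3 n1 = 0 ∧ p3 n2 = 1) := by
  have h4 : LinearIndependent ℂ ![z, y, n1, n2] := by
    have h5 : LinearIndependent ℂ (Fin.cons z ![y, n1, n2] : Fin 4 → X) := by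
      rw [linearIndependent_finCons]
      refine ⟨hli, ?_⟩
      have hr : Set.range ![y, n1, n2] = {y, n1, n2} := by
        ext x
        simp only [Matrix.range_cons, Matrix.range_empty, Set.union_empty, Set.mem_union,
          Set.mem_singleton_iff, Set.mem_insert_iff]
      rw [hr]
      exact hz
    exact h5
  choose f hf using fun i : Fin 4 => exists_dual h4 (fun j => if i = j then (1 : ℂ) else 0)
  have h : ∀ i : Fin 4, f i z = (if i = 0 then 1 else 0) ∧ f i y = (if i = 1 then 1 else 0) ∧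
      f i n1 = (if i = 2 then 1 else 0) ∧ f i n2 = (if i = 3 then 1 else 0) := fun i =>
    ⟨hf i 0, hf i 1, hf i 2, hf i 3⟩
  refine ⟨f 0, f 1, f 2, f 3, ?_, ?_, ?_, ?_⟩
  · simpa using h 0
  · simpa using h 1
  · simpa using h 2
  · simpa using h 3

/-- functionals adapted to `w` -/
private theorem CaseA3_fun {y n1 n2 z w : X} (hli : LinearIndependent ℂ ![y, n1, n2])
    (hz : z ∉ Submodule.span ℂ {y, n1, n2}) (hw : w ≠ 0)
    (hw' : w ∈ Submodule.span ℂ {n1, n2}) :
    ∃ f f' : X →L[ℂ] ℂ, f y = 0 ∧ f z = 0 ∧ f' y = 0 ∧ f' z = 0 ∧ f w = 1 ∧ f' w = 0 ∧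
      ∀ x ∈ Submodule.span ℂ {n1, n2}, f x = 0 → f' x = 0 → x = 0 := by
  obtain ⟨p0, p1, p2, p3, h0, h1, h2, h3⟩ := CaseA3_dual hli hz
  obtain ⟨a, b, rfl⟩ := Submodule.mem_span_pair.1 hw'
  have hx : ∀ x ∈ Submodule.span ℂ {n1, n2}, p2 x = 0 → p3 x = 0 → x = 0 := by
    intro x hx k2 k3
    obtain ⟨c, d, rfl⟩ := Submodule.mem_span_pair.1 hx
    have e2 : p2 (c • n1 + d • n2) = c := by
      rw [map_add, map_smul, map_smul, h2.2.2.1, h2.2.2.2]
      simp
    have e3 : p3 (c • n1 + d • n2) = d := by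
      rw [map_add, map_smul, map_smul, h3.2.2.1, h3.2.2.2]
      simp
    rw [e2] at k2
    rw [e3] at k3
    rw [k2, k3]
    simp
  have ea : p2 (a • n1 + b • n2) = a := by
    rw [map_add, map_smul, map_smul, h2.2.2.1, h2.2.2.2]
    simp
  have eb : p3 (a • n1 + b • n2) = b := by
    rw [map_add, map_smul, map_smul, h3.2.2.1, h3.2.2.2]
    simp
  by_cases ha : a = 0
  · have hb : b ≠ 0 := by
      rintro rfl
      apply hw
      rw [ha]
      simp
    refine ⟨b⁻¹ • p3, p2, ?_, ?_, h2.2.1, h2.1, ?_, ?_, ?_⟩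
    · simp [h3.2.1]
    · simp [h3.1]
    · rw [ContinuousLinearMap.smul_apply, eb, smul_eq_mul, inv_mul_cancel₀ hb]
    · rw [ea, ha]
    · intro x hxm k1 k2
      refine hx x hxm k2 ?_
      rw [ContinuousLinearMap.smul_apply, smul_eq_mul] at k1
      exact (mul_eq_zero.1 k1).resolve_left (inv_ne_zero hb)
  · refine ⟨a⁻¹ • p2, p3 - (b * a⁻¹) • p2, ?_, ?_, ?_, ?_, ?_, ?_, ?_⟩
    · simp [h2.2.1]
    · simp [h2.1]
    · simp [h2.2.1, h3.2.1]
    · simp [h2.1, h3.1]
    · rw [ContinuousLinearMap.smul_apply, ea, smul_eq_mul, inv_mul_cancel₀ ha]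
    · rw [ContinuousLinearMap.sub_apply, ContinuousLinearMap.smul_apply, ea, eb, smul_eq_mul,
        mul_assoc, inv_mul_cancel₀ ha, mul_one, sub_self]
    · intro x hxm k1 k2
      rw [ContinuousLinearMap.smul_apply, smul_eq_mul] at k1
      have k3 : p2 x = 0 := (mul_eq_zero.1 k1).resolve_left (inv_ne_zero ha)
      refine hx x hxm k3 ?_
      rw [ContinuousLinearMap.sub_apply, ContinuousLinearMap.smul_apply, k3, smul_zero,
        sub_zero] at k2
      exact k2

theorem ca_zero [CompleteSpace X] {e : ℂ} (he : Sg e)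
    {ℓ : Set (X →L[ℂ] X)} (hℓ : HLine e ℓ) {A B : X →L[ℂ] X} (hA : A ∈ ℓ) (hB : B ∈ ℓ)
    {y n1 n2 : X} {a b : ℂ} (hli : LinearIndependent ℂ ![y, n1, n2]) (hAy : A y - a • y = n1)
    (hBy : B y - b • y = n2) (hN : ∀ U ∈ ℓ, ∃ c : ℂ, ∀ z, U z - c • z ∈ Submodule.span ℂ {n1, n2})
    {z w : X} (hz : z ∉ Submodule.span ℂ {y, n1, n2}) (hw : w ≠ 0)
    (hw' : w ∈ Submodule.span ℂ {n1, n2}) {r s : ℂ} (hr : A z - a • z = r • w)
    (hs : B z - b • z = s • w) : r = 0 ∧ s = 0 := by
  obtain ⟨p0, p1, p2, p3, h0, h1, h2, h3⟩ := CaseA3_dual hli hz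
  obtain ⟨f, f', fy, fz, fy', fz', fw, fw', hff⟩ := CaseA3_fun hli hz hw hw'
  have eAy : A y = a • y + n1 := by rw [← hAy]; abel
  have eBy : B y = b • y + n2 := by rw [← hBy]; abel
  have eAz : A z = a • z + r • w := by rw [← hr]; abel
  have eBz : B z = b • z + s • w := by rw [← hs]; abel
  have hyz : LinearIndependent ℂ ![y, z] := by
    rw [LinearIndependent.pair_iff]
    intro c d hcd
    have e0 := congrArg p0 hcd
    have e1 := congrArg p1 hcd
    rw [map_add, map_smul, map_smul, map_zero] at e0 e1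
    rw [h0.1, h0.2.1] at e0
    rw [h1.1, h1.2.1] at e1
    simp only [smul_eq_mul, mul_zero, mul_one, zero_add, add_zero] at e0 e1
    exact ⟨e1, e0⟩
  have hyAB : LinearIndependent ℂ ![y, A y, B y] := by
    rw [Fintype.linearIndependent_iff]
    intro g hg
    rw [Fin.sum_univ_three] at hg
    simp only [Matrix.cons_val_zero, Matrix.cons_val_one, Matrix.cons_val] at hg
    rw [eAy, eBy] at hg
    have e1 := congrArg p1 hg
    have e2 := congrArg p2 hg
    have e3 := congrArg p3 hg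
    simp only [map_add, map_smul, map_zero, h1.2.1, h1.2.2.1, h1.2.2.2, h2.2.1, h2.2.2.1,
      h2.2.2.2, h3.2.1, h3.2.2.1, h3.2.2.2, smul_eq_mul, mul_zero, mul_one, zero_add,
      add_zero] at e1 e2 e3
    rw [e2, e3] at e1
    simp only [zero_mul, add_zero] at e1
    intro i
    fin_cases i
    · exact e1
    · exact e2
    · exact e3
  have hAB : ¬ Par e A B := not_par_of_li hyAB
  -- the value at `z` of a member has no component along the second functional
  have hfz : ∀ U ∈ ℓ, f' (U z) = 0 := by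
    intro U hU
    refine hl_fun he hℓ hA hB hAB hU fz' ?_ ?_
    · rw [eAz, map_add, map_smul, map_smul, fz', fw']
      simp
    · rw [eBz, map_add, map_smul, map_smul, fz', fw']
      simp
  -- the value at `y`
  have hUy : ∀ U ∈ ℓ, f (U y) = 0 → f' (U y) = 0 → False := by
    intro U hU k1 k2
    obtain ⟨c, hc⟩ := hN U hU
    have h5 : U y - c • y = 0 := by
      refine hff _ (hc y) ?_ ?_
      · rw [map_sub, map_smul, k1, fy]
        simp
      · rw [map_sub, map_smul, k2, fy']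
        simp
    have h6 := hl_li1 he hℓ hA hB hyAB hU
    rw [LinearIndependent.pair_iff] at h6
    have h7 := h6 (-c) 1 (by rw [one_smul, neg_smul, neg_add_eq_sub]; exact h5)
    exact one_ne_zero h7.2
  have key : ∀ k : ℂ, ∃ U ∈ ℓ, f (U z) = 0 ∧ f (U y) + k * f' (U y) = 0 ∧ f' (U y) ≠ 0 := by
    intro k
    obtain ⟨U, hU, m1, m2⟩ := hl_meet2 he hℓ (g := f + k • f') (g' := f') hyz
      (by rw [ContinuousLinearMap.add_apply, ContinuousLinearMap.smul_apply, fy, fy']; simp)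
      (by rw [ContinuousLinearMap.add_apply, ContinuousLinearMap.smul_apply, fz, fz']; simp)
      fy' fz'
    simp only [ContinuousLinearMap.add_apply, ContinuousLinearMap.smul_apply, smul_eq_mul,
      hfz U hU, mul_zero, add_zero, zero_sub, neg_eq_zero] at m1 m2
    have hne : f' (U y) ≠ 0 := by
      intro h5
      rw [h5, mul_zero, add_zero] at m1
      exact hUy U hU m1 h5
    exact ⟨U, hU, (mul_eq_zero.1 m2).resolve_right hne, m1, hne⟩
  obtain ⟨U0, hU0, u1, u2, u3⟩ := key 0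
  obtain ⟨U1, hU1, v1, v2, v3⟩ := key 1
  have hUU : ¬ Par e U0 U1 := by
    rintro ⟨c, t, -, h5⟩
    have h6 : f (U1 y) = 0 := by
      rw [h5, ContinuousLinearMap.add_apply, ContinuousLinearMap.smul_apply,
        ContinuousLinearMap.smul_apply, ContinuousLinearMap.one_apply, map_add, map_smul,
        map_smul, fy]
      rw [zero_mul, add_zero] at u2
      rw [u2]
      simp
    rw [h6, zero_add, one_mul] at v2
    exact v3 v2
  constructor
  · have h5 := hl_fun he hℓ hU0 hU1 hUU hA fz u1 v1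
    rw [eAz, map_add, map_smul, map_smul, fz, fw] at h5
    simpa using h5
  · have h5 := hl_fun he hℓ hU0 hU1 hUU hB fz u1 v1
    rw [eBz, map_add, map_smul, map_smul, fz, fw] at h5
    simpa using h5

end Pool.Agent.H.MP_bb4c62_an.JL
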