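import Pool.Agent.H.MP_bb4c62_an.JL.CaseA2
import Pool.Agent.H.MP_bb4c62_an.JL.CaseA3

/-!
# Module JL/CaseA4

`ca_plane` gives `y, n1, n2, a, b` (write `y` for `y'`). Let `η` be a functional with `η n1 = 1` and
`f z = η (A z - a z)`, so `f y = 1`. Claim: for `z ∉ span {y, n1, n2}` and every member `U` with constant `c`:
`U z - c z = f z • (U y - c y)`. Proof: `A z - a z = α1 n1 + α2 n2`, `B z - b z = β1 n1 + β2 n2`; let `t` be a root of
`t ^ 2 + (α1 + β2) t + (α1 β2 - α2 β1)` (`exists_quadratic`-like lemma or `IsAlgClosed.exists_root`); `z' = z + t y` is not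
in `span {y, n1, n2}`, and `A z' - a z' = (α1 + t) n1 + α2 n2`, `B z' - b z' = β1 n1 + (β2 + t) n2` are dependent, so both
are multiples of some `w ≠ 0` in `span {n1, n2}`; `ca_zero`: both are `0`. So `A z' = a z'`, `B z' = b z'`,
`U z' ∈ span {z', A z', B z'} = ℂ z'` (`hl_span`), `U z' = k z'`, `(k - c) z' ∈ span {n1, n2}`, `k = c`. So
`U z - c z = -t (U y - c y)`, and for `U = A`: `f z = -t`.
For `z` in the span take `z0` outside (`exists_notMem4`), `z = (z + z0) - z0`. So `U = c + ten (U y - c y) f`.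
-/

namespace Pool.Agent.H.MP_bb4c62_an.JL

open Pool.Agent.H.MP_bb4c62_an.helper6.NL
open Pool.Agent.H.MP_bb4c62_an.helper6.Perturb
open Pool.Agent.H.MP_bb4c62_an.helper6.Gadgets

variable {X : Type*} [NormedAddCommGroup X] [NormedSpace ℂ X]

private theorem CaseA4_root (α1 α2 β1 β2 : ℂ) :
    ∃ t : ℂ, (α1 + t) * (β2 + t) - α2 * β1 = 0 := by
  obtain ⟨s, hs⟩ := IsAlgClosed.exists_eq_mul_self
    (discrim (1 : ℂ) (α1 + β2) (α1 * β2 - α2 * β1))
  obtain ⟨t, ht⟩ := exists_quadratic_eq_zero one_ne_zero ⟨s, hs⟩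
  exact ⟨t, by linear_combination ht⟩

/-- two dependent combinations are multiples of one vector -/
private theorem CaseA4_dep {n1 n2 : X}
    (hn : ∀ p q : ℂ, p • n1 + q • n2 = 0 → p = 0 ∧ q = 0) {p q p' q' : ℂ}
    (h : p * q' - q * p' = 0) :
    ∃ (w : X) (r s : ℂ), w ≠ 0 ∧ w ∈ Submodule.span ℂ {n1, n2} ∧
      p • n1 + q • n2 = r • w ∧ p' • n1 + q' • n2 = s • w := by
  by_cases h1 : p • n1 + q • n2 = 0
  · by_cases h2 : p' • n1 + q' • n2 = 0
    · refine ⟨n1, 0, 0, ?_, Submodule.subset_span (Set.mem_insert _ _), by rw [h1, zero_smul],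
        by rw [h2, zero_smul]⟩
      intro h3
      exact one_ne_zero (hn 1 0 (by rw [h3, smul_zero, zero_smul, add_zero])).1
    · exact ⟨p' • n1 + q' • n2, 0, 1, h2, Submodule.mem_span_pair.mpr ⟨p', q', rfl⟩,
        by rw [h1, zero_smul], by rw [one_smul]⟩
  · by_cases hp : p = 0
    · have hq : q ≠ 0 := by
        intro hq
        apply h1
        rw [hp, hq, zero_smul, zero_smul, add_zero]
      have hp' : p' = 0 := by
        rw [hp, zero_mul, zero_sub, neg_eq_zero] at h
        exact (mul_eq_zero.mp h).resolve_left hq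
      refine ⟨p • n1 + q • n2, 1, q' / q, h1, Submodule.mem_span_pair.mpr ⟨p, q, rfl⟩,
        by rw [one_smul], ?_⟩
      rw [hp, hp', zero_smul, zero_add, zero_add, smul_smul, div_mul_cancel₀ _ hq]
    · refine ⟨p • n1 + q • n2, 1, p' / p, h1, Submodule.mem_span_pair.mpr ⟨p, q, rfl⟩,
        by rw [one_smul], ?_⟩
      have hq' : p' / p * q = q' := by
        field_simp
        linear_combination -h
      rw [smul_add, smul_smul, smul_smul, div_mul_cancel₀ _ hp, hq']

theorem caseA [CompleteSpace X] {e : ℂ} (he : Sg e) (h5 : Dim5 X)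
    {ℓ : Set (X →L[ℂ] X)} (hℓ : HLine e ℓ) {A B : X →L[ℂ] X} (hA : A ∈ ℓ) (hB : B ∈ ℓ) {y : X}
    (hy : LinearIndependent ℂ ![y, A y, B y]) : ColFam ℓ := by
  have hAB : ¬ Par e A B := not_par_of_li hy
  obtain ⟨y', n1, n2, a, b, hli, hAy, hBy, hAN, hBN, hUN⟩ := ca_plane he h5 hℓ hA hB hy
  have hn : ∀ p q : ℂ, p • n1 + q • n2 = 0 → p = 0 ∧ q = 0 := by
    intro p q h
    have h1 := Fintype.linearIndependent_iff.mp hli ![0, p, q] (by
      rw [Fin.sum_univ_three]
      show (0 : ℂ) • y' + p • n1 + q • n2 = 0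
      rw [zero_smul, zero_add, h])
    exact ⟨h1 1, h1 2⟩
  have hn1 : n1 ≠ 0 := by
    intro h3
    exact one_ne_zero (hn 1 0 (by rw [h3, smul_zero, zero_smul, add_zero])).1
  have hsub : ∀ v ∈ Submodule.span ℂ {n1, n2}, v ∈ Submodule.span ℂ {y', n1, n2} :=
    fun v hv => Submodule.span_mono (Set.subset_insert _ _) hv
  have hy' : y' ∈ Submodule.span ℂ {y', n1, n2} := Submodule.subset_span (Set.mem_insert _ _)
  obtain ⟨η, hη⟩ := SeparatingDual.exists_eq_one (R := ℂ) hn1
  obtain ⟨f, hf⟩ : ∃ f : X →L[ℂ] ℂ, ∀ z, f z = η (A z - a • z) :=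
    ⟨η.comp (A - a • (1 : X →L[ℂ] X)), fun _ => rfl⟩
  have key : ∀ U ∈ ℓ, ∀ c : ℂ, (∀ z, U z - c • z ∈ Submodule.span ℂ {n1, n2}) →
      ∀ z, z ∉ Submodule.span ℂ {y', n1, n2} → U z - c • z = f z • (U y' - c • y') := by
    intro U hU c hc z hz
    obtain ⟨α1, α2, hα⟩ := Submodule.mem_span_pair.mp (hAN z)
    obtain ⟨β1, β2, hβ⟩ := Submodule.mem_span_pair.mp (hBN z)
    obtain ⟨t, ht⟩ := CaseA4_root α1 α2 β1 β2
    have hz' : z + t • y' ∉ Submodule.span ℂ {y', n1, n2} := by
      intro h
      apply hz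
      have h1 := Submodule.sub_mem _ h (Submodule.smul_mem _ t hy')
      rwa [add_sub_cancel_right] at h1
    have hA' : A (z + t • y') - a • (z + t • y') = (α1 + t) • n1 + α2 • n2 := by
      have h1 : A (z + t • y') - a • (z + t • y') =
          (A z - a • z) + t • (A y' - a • y') := by
        rw [map_add, map_smul]
        module
      rw [h1, ← hα, hAy]
      module
    have hB' : B (z + t • y') - b • (z + t • y') = β1 • n1 + (β2 + t) • n2 := by
      have h1 : B (z + t • y') - b • (z + t • y') =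
          (B z - b • z) + t • (B y' - b • y') := by
        rw [map_add, map_smul]
        module
      rw [h1, ← hβ, hBy]
      module
    obtain ⟨w, r, s, hw, hwN, hr, hs⟩ := CaseA4_dep hn ht
    obtain ⟨hr0, hs0⟩ := ca_zero he hℓ hA hB hli hAy hBy hUN hz' hw hwN (hA'.trans hr)
      (hB'.trans hs)
    have hA'' : A (z + t • y') = a • (z + t • y') := by
      rw [← sub_eq_zero, hA', hr, hr0, zero_smul]
    have hB'' : B (z + t • y') = b • (z + t • y') := by
      rw [← sub_eq_zero, hB', hs, hs0, zero_smul]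
    have hUz := hl_span he hℓ hA hB hAB hU (z + t • y')
    rw [hA'', hB''] at hUz
    obtain ⟨k1, k2, k3, hk⟩ := Submodule.mem_span_triple.mp hUz
    have hk' : U (z + t • y') = (k1 + k2 * a + k3 * b) • (z + t • y') := by
      rw [← hk]
      module
    have hkc : k1 + k2 * a + k3 * b = c := by
      by_contra hne
      apply hz'
      have h1 := hsub _ (hc (z + t • y'))
      rw [hk', ← sub_smul] at h1
      have h2 := Submodule.smul_mem _ (k1 + k2 * a + k3 * b - c)⁻¹ h1
      rwa [smul_smul, inv_mul_cancel₀ (sub_ne_zero.mpr hne), one_smul] at h2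
    have hft : f z = -t := by
      rw [hf]
      have h1 : A z - a • z = -(t • n1) := by
        have h2 : A z - a • z + t • (A y' - a • y') = 0 := by
          have h3 : A (z + t • y') - a • (z + t • y') = 0 := by rw [hA'', sub_self]
          rw [← h3, map_add, map_smul]
          module
        rw [hAy] at h2
        exact eq_neg_of_add_eq_zero_left h2
      rw [h1, map_neg, map_smul, hη, smul_eq_mul, mul_one]
    rw [hft]
    have h1 : U (z + t • y') - c • (z + t • y') = 0 := by rw [hk', hkc, sub_self]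
    have h2 : U z - c • z + t • (U y' - c • y') = 0 := by
      rw [← h1, map_add, map_smul]
      module
    rw [neg_smul]
    exact eq_neg_of_add_eq_zero_left h2
  obtain ⟨z0, hz0⟩ := exists_notMem4 h5 y' n1 n2 n2
  have hz0' : z0 ∉ Submodule.span ℂ {y', n1, n2} := by
    intro h
    apply hz0
    refine Submodule.span_mono ?_ h
    intro v hv
    rcases hv with h1 | h1 | h1
    · exact Or.inl h1
    · exact Or.inr (Or.inl h1)
    · exact Or.inr (Or.inr (Or.inl h1))
  have hf0 : f ≠ 0 := by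
    intro h
    have h1 : f y' = 1 := by rw [hf, hAy, hη]
    rw [h] at h1
    exact zero_ne_one h1
  refine ⟨f, hf0, fun U hU => ?_⟩
  obtain ⟨c, hc⟩ := hUN U hU
  refine ⟨c, U y' - c • y', ?_⟩
  have hall : ∀ z, U z - c • z = f z • (U y' - c • y') := by
    intro z
    by_cases hz : z ∈ Submodule.span ℂ {y', n1, n2}
    · have hz1 : z + z0 ∉ Submodule.span ℂ {y', n1, n2} := by
        intro h
        apply hz0'
        have h1 := Submodule.sub_mem _ h hz
        rwa [add_sub_cancel_left] at h1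
      have h1 := key U hU c hc _ hz1
      have h2 := key U hU c hc _ hz0'
      have h3 : U z - c • z = (U (z + z0) - c • (z + z0)) - (U z0 - c • z0) := by
        rw [map_add]
        module
      rw [h3, h1, h2, ← sub_smul, map_add, add_sub_cancel_right]
    · exact key U hU c hc z hz
  ext z
  show U z = c • z + f z • (U y' - c • y')
  rw [← hall]
  abel

end Pool.Agent.H.MP_bb4c62_an.JL
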