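import Pool.Agent.H.MP_bb4c62_an.JL.KOne

/-!
# Module JL/CaseB1

All triples `y, A y, B y` are dependent. Say that `U` kills `z` if `z, U z` are dependent.
(1) If `z, W z` are independent for some member `W`, and `U, V` are members which kill `z` (`z ≠ 0`), then `Par e U V`
(otherwise `W z ∈ span {z, U z, V z} = ℂ z` by `hl_span`).
(2) If `z, W z` are independent then `V z ∈ span {z, W z}` for all members `V`: `A z` and `B z` are in
`span {z, W z}` (`span {z, A z, B z}` has dimension at most two and contains `z, W z`), and `hl_span`.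
(3) Then there is a member which kills `z`: `g` with `g z = 0`, `g (W z) = 1`, `hl_meet1`, and (2).
(4) There are a member `W` and `y` with `y, W y` independent: otherwise `A` and `B` are scalars (`mul_of_local`), both
trivial for `e = -1`, and `Par 1 A B` for `e = 1` (`A ≠ 0` by `hl_nt`).
(5) Let `U0` be a member which kills `y` (3). There is `z` with `z, U0 z` independent: otherwise `U0` is a scalar (so
`e = 1`) which kills everything; let `W`, `y` be as in (4) (so `¬ Par e U0 W`); for every `z` and member `V`: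
`V z ∈ span {z, W z}` (by (2) if `z, W z` are independent; if `W z ∈ ℂ z`, `z ≠ 0` then `V z ∈ span {z, U0 z, W z} = ℂ z` by
`hl_span` for `U0, W`), so `V = c W + s` by `lld`, for all members `V`, a contradiction to `kone'`.
(6) Let `P = span {y, W y}`. Claim: `U0 z ∈ P + ℂ z` for all `z ∉ P`. Suppose not; then `y, z, W y, U0 z` are
independent. Functionals `g, g'` with `g y = g z = 0`, `g (W y) = 1`, `g (U0 z) = 0`, `g' y = g' z = g' (W y) = 0`,
`g' (U0 z) = 1`. `hl_meet2`: a member `U` with `g (U y) + g' (U z) = 0`, `g (U y) * g' (U z) - g (U z) * g' (U y) = 0`.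
By (2) `U y ∈ span {y, W y}`, `U z ∈ span {z, U0 z}`, so `g' (U y) = 0` and `g (U z) = 0`; so
`g (U y) = g' (U z) = 0`, `U` kills `y` and `z`. By (1) (at `y`) `Par e U U0`: `U0 = c U + s` kills `z`, a contradiction.
(7) `scalar_mod` with `Z = P`, `K = ⊥` (`exists_two_mod` with `y, W y, 0`).
-/

namespace Pool.Agent.H.MP_bb4c62_an.JL

open Pool.Agent.H.MP_bb4c62_an.helper6.NL
open Pool.Agent.H.MP_bb4c62_an.helper6.Perturb
open Pool.Agent.H.MP_bb4c62_an.helper6.Gadgets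

variable {X : Type*} [NormedAddCommGroup X] [NormedSpace ℂ X]

private theorem CaseB1_li {W : X →L[ℂ] X} {z : X} :
    LinearIndependent ℂ ![z, W z] ↔ ¬ ∃ c : ℂ, W z = c • z := by
  by_cases hz : z = 0
  · subst hz
    constructor
    · intro h
      exact absurd rfl (h.ne_zero 0)
    · intro h
      exact absurd ⟨0, by rw [map_zero, smul_zero]⟩ h
  · rw [LinearIndependent.pair_iff' hz]
    constructor
    · rintro h ⟨c, hc⟩
      exact h c hc.symm
    · intro h c hc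
      exact h ⟨c, hc.symm⟩

private theorem CaseB1_mem3 {p q r w : X} :
    w ∈ Submodule.span ℂ {p, q, r} ↔ ∃ a b c : ℂ, w = a • p + b • q + c • r := by
  rw [Submodule.mem_span_triple]
  constructor
  · rintro ⟨a, b, c, h⟩
    exact ⟨a, b, c, h.symm⟩
  · rintro ⟨a, b, c, h⟩
    exact ⟨a, b, c, h.symm⟩

private theorem CaseB1_mem2 {p q w : X} :
    w ∈ Submodule.span ℂ {p, q} ↔ ∃ a b : ℂ, w = a • p + b • q := by
  rw [Submodule.mem_span_pair]
  constructor
  · rintro ⟨a, b, h⟩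
    exact ⟨a, b, h.symm⟩
  · rintro ⟨a, b, h⟩
    exact ⟨a, b, h.symm⟩

private theorem CaseB1_lin1 {z a b w v : X} {x y t p q r p' q' r' : ℂ}
    (h0 : x • z + y • a + t • b = 0) (ht : t ≠ 0)
    (hw : w = p • z + q • a + r • b) (hv : v = p' • z + q' • a + r' • b)
    (hn : ¬ ∃ c : ℂ, w = c • z) : ∃ l m : ℂ, v = l • z + m • w := by
  have hb : b = (-(x / t)) • z + (-(y / t)) • a := by
    have h1 : t • b = -(x • z + y • a) := by
      rw [eq_neg_iff_add_eq_zero, ← h0]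
      abel
    have h2 : b = t⁻¹ • (t • b) := by
      rw [smul_smul, inv_mul_cancel₀ ht, one_smul]
    rw [h2, h1]
    module
  obtain ⟨s, hs⟩ : ∃ s, s = q - r * (y / t) := ⟨_, rfl⟩
  obtain ⟨s', hs'⟩ : ∃ s, s = q' - r' * (y / t) := ⟨_, rfl⟩
  obtain ⟨P, hP⟩ : ∃ s, s = p - r * (x / t) := ⟨_, rfl⟩
  obtain ⟨P', hP'⟩ : ∃ s, s = p' - r' * (x / t) := ⟨_, rfl⟩
  have e1 : w = P • z + s • a := by
    rw [hw, hb, hs, hP]
    module
  have e2 : v = P' • z + s' • a := by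
    rw [hv, hb, hs', hP']
    module
  have hs0 : s ≠ 0 := by
    intro h
    exact hn ⟨P, by rw [e1, h, zero_smul, add_zero]⟩
  refine ⟨P' - s' * s⁻¹ * P, s' * s⁻¹, ?_⟩
  have e3 : s' = s' * s⁻¹ * s := by
    rw [mul_assoc, inv_mul_cancel₀ hs0, mul_one]
  rw [e1, e2, smul_add, smul_smul, smul_smul, ← e3]
  module

private theorem CaseB1_lin {z a b w v : X} (hz : z ≠ 0)
    (hdep : ¬ LinearIndependent ℂ ![z, a, b])
    (hw : w ∈ Submodule.span ℂ {z, a, b}) (hv : v ∈ Submodule.span ℂ {z, a, b})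
    (hn : ¬ ∃ c : ℂ, w = c • z) : ∃ l m : ℂ, v = l • z + m • w := by
  obtain ⟨p, q, r, hw⟩ := CaseB1_mem3.mp hw
  obtain ⟨p', q', r', hv⟩ := CaseB1_mem3.mp hv
  obtain ⟨g, hg, i, hi⟩ := Fintype.not_linearIndependent_iff.mp hdep
  rw [Fin.sum_univ_three] at hg
  have hg' : g 0 • z + g 1 • a + g 2 • b = 0 := hg
  by_cases h2 : g 2 = 0
  · by_cases h1 : g 1 = 0
    · exfalso
      rw [h1, h2, zero_smul, zero_smul, add_zero, add_zero] at hg'
      have h0 := (smul_eq_zero.mp hg').resolve_right hz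
      apply hi
      fin_cases i
      · exact h0
      · exact h1
      · exact h2
    · exact CaseB1_lin1 (x := g 0) (y := g 2) (t := g 1) (a := b) (b := a) (p := p) (q := r)
        (r := q) (p' := p') (q' := r') (r' := q') (by rw [← hg']; abel) h1
        (by rw [hw]; abel) (by rw [hv]; abel) hn
  · exact CaseB1_lin1 hg' h2 hw hv hn

section CaseB1_Fix

variable [CompleteSpace X] {e : ℂ} (he : Sg e) {ℓ : Set (X →L[ℂ] X)} (hℓ : HLine e ℓ)

include he hℓ

private theorem CaseB1_par {U V W : X →L[ℂ] X} (hU : U ∈ ℓ) (hV : V ∈ ℓ) (hW : W ∈ ℓ) {z : X}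
    (h1 : ∃ c : ℂ, U z = c • z) (h2 : ∃ c : ℂ, V z = c • z) (h3 : ¬ ∃ c : ℂ, W z = c • z) :
    Par e U V := by
  by_contra hn
  obtain ⟨c, hc⟩ := h1
  obtain ⟨d, hd⟩ := h2
  obtain ⟨p, q, r, h⟩ := CaseB1_mem3.mp (hl_span he hℓ hU hV hn hW z)
  exact h3 ⟨p + q * c + r * d, by rw [h, hc, hd, smul_smul, smul_smul, add_smul, add_smul]⟩

variable {A B : X →L[ℂ] X} (hA : A ∈ ℓ) (hB : B ∈ ℓ) (hAB : ¬ Par e A B)
  (hdep : ∀ y, ¬ LinearIndependent ℂ ![y, A y, B y])

include hA hB hAB hdep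

private theorem CaseB1_two {V W : X →L[ℂ] X} (hV : V ∈ ℓ) (hW : W ∈ ℓ) {z : X}
    (h3 : ¬ ∃ c : ℂ, W z = c • z) : ∃ a b : ℂ, V z = a • z + b • W z := by
  have hz : z ≠ 0 := by
    rintro rfl
    exact h3 ⟨0, by rw [map_zero, smul_zero]⟩
  exact CaseB1_lin hz (hdep z) (hl_span he hℓ hA hB hAB hW z) (hl_span he hℓ hA hB hAB hV z) h3

private theorem CaseB1_kill {W : X →L[ℂ] X} (hW : W ∈ ℓ) {z : X}
    (h3 : ¬ ∃ c : ℂ, W z = c • z) : ∃ U ∈ ℓ, ∃ c : ℂ, U z = c • z := by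
  have hz : z ≠ 0 := by
    rintro rfl
    exact h3 ⟨0, by rw [map_zero, smul_zero]⟩
  obtain ⟨g, hg0, hg1⟩ := (exists_sep' hz h3).1
  obtain ⟨U, hU, hgU⟩ := hl_meet1 he hℓ hg0
  obtain ⟨a, b, hab⟩ := CaseB1_two he hℓ hA hB hAB hdep hU hW h3
  refine ⟨U, hU, a, ?_⟩
  rw [hab, map_add, map_smul, map_smul, hg0, hg1, smul_zero, zero_add, smul_eq_mul, mul_one] at hgU
  rw [hab, hgU, zero_smul, add_zero]

omit hdep in
private theorem CaseB1_ex : ∃ W ∈ ℓ, ∃ y, ¬ ∃ c : ℂ, W y = c • y := by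
  by_contra hn
  push Not at hn
  have key : ∀ W ∈ ℓ, ∃ c : ℂ, W = c • (1 : X →L[ℂ] X) := by
    intro W hW
    obtain ⟨c, hc⟩ := QP.mul_of_local (LinearMap.id : X →ₗ[ℂ] X) (W : X →ₗ[ℂ] X)
      (fun x => hn W hW x)
    exact ⟨c, by ext x; exact hc x⟩
  obtain ⟨a, ha⟩ := key A hA
  obtain ⟨b, hb⟩ := key B hB
  rcases he with he1 | he1
  · have ha0 : a ≠ 0 := by
      rintro rfl
      exact hl_nt hℓ hA ⟨0, Or.inr rfl, ha⟩
    refine hAB ⟨b / a, 0, Or.inr rfl, ?_⟩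
    rw [zero_smul, add_zero, ha, smul_smul, div_mul_cancel₀ _ ha0, hb]
  · refine hAB ⟨0, b, Or.inl he1, ?_⟩
    rw [zero_smul, zero_add, hb]

private theorem CaseB1_sc (h5 : Dim5 X) {U0 : X →L[ℂ] X} (hU0 : U0 ∈ ℓ) :
    ∃ z, ¬ ∃ c : ℂ, U0 z = c • z := by
  by_contra hn
  push Not at hn
  obtain ⟨W, hW, y, hy⟩ := CaseB1_ex he hℓ hA hB hAB
  have hnp : ¬ Par e U0 W := by
    rintro ⟨c, s, -, h⟩
    obtain ⟨d, hd⟩ := hn y
    apply hy
    refine ⟨c * d + s, ?_⟩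
    rw [h]
    show c • U0 y + s • y = (c * d + s) • y
    rw [hd, smul_smul, add_smul]
  obtain ⟨V, hV, hVn⟩ := kone' he hℓ hW (CaseB1_li.mpr hy)
  apply hVn
  obtain ⟨c, s, h⟩ := lld h5 (W : X →ₗ[ℂ] X) (V : X →ₗ[ℂ] X) (by
    intro z
    by_cases hz : ∃ c : ℂ, W z = c • z
    · obtain ⟨p, q, r, h⟩ := CaseB1_mem3.mp (hl_span he hℓ hU0 hW hnp hV z)
      obtain ⟨d, hd⟩ := hn z
      refine ⟨p + q * d, r, ?_⟩
      show V z = (p + q * d) • z + r • W z
      rw [h, hd, smul_smul, add_smul]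
    · exact CaseB1_two he hℓ hA hB hAB hdep hV hW hz)
  refine ⟨c, s, ?_⟩
  ext z
  exact h z

private theorem CaseB1_out {U0 W : X →L[ℂ] X} (hU0 : U0 ∈ ℓ) (hW : W ∈ ℓ) {y : X}
    (hy : ¬ ∃ c : ℂ, W y = c • y) (hk : ∃ c : ℂ, U0 y = c • y) {z : X}
    (hz : z ∉ Submodule.span ℂ {y, W y}) :
    ∃ c : ℂ, U0 z - c • z ∈ Submodule.span ℂ {y, W y} := by
  by_contra hn
  push Not at hn
  have hy0 : y ≠ 0 := by
    rintro rfl
    exact hy ⟨0, by rw [map_zero, smul_zero]⟩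
  have hU0z : ¬ ∃ c : ℂ, U0 z = c • z := by
    rintro ⟨c, hc⟩
    apply hn c
    rw [hc, sub_self]
    exact Submodule.zero_mem _
  have hyz : LinearIndependent ℂ ![y, z] := by
    rw [LinearIndependent.pair_iff' hy0]
    rintro a rfl
    exact hz (Submodule.smul_mem _ _ (Submodule.subset_span (Set.mem_insert _ _)))
  have m1 : W y ∉ Submodule.span ℂ {y, z, U0 z} := by
    intro h
    obtain ⟨a, b, c, h⟩ := CaseB1_mem3.mp h
    by_cases hc : c = 0
    · rw [hc, zero_smul, add_zero] at h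
      have hb : b ≠ 0 := by
        rintro rfl
        rw [zero_smul, add_zero] at h
        exact hy ⟨a, h⟩
      apply hz
      refine CaseB1_mem2.mpr ⟨-(b⁻¹ * a), b⁻¹, ?_⟩
      have e1 : z = b⁻¹ • (b • z) := by
        rw [smul_smul, inv_mul_cancel₀ hb, one_smul]
      rw [h, smul_add, ← e1, smul_smul]
      module
    · apply hn (-(c⁻¹ * b))
      refine CaseB1_mem2.mpr ⟨-(c⁻¹ * a), c⁻¹, ?_⟩
      have e1 : U0 z = c⁻¹ • (c • U0 z) := by
        rw [smul_smul, inv_mul_cancel₀ hc, one_smul]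
      rw [h, smul_add, ← e1, smul_add, smul_smul, smul_smul]
      module
  have m2 : U0 z ∉ Submodule.span ℂ {y, z, W y} := by
    intro h
    obtain ⟨a, b, c, h⟩ := CaseB1_mem3.mp h
    apply hn b
    refine CaseB1_mem2.mpr ⟨a, c, ?_⟩
    rw [h]
    abel
  obtain ⟨g, hg, hg1⟩ := exists_sep_sub
    (Submodule.fg_span (((Set.finite_singleton _).insert _).insert _)) m1
  obtain ⟨g', hg', hg1'⟩ := exists_sep_sub
    (Submodule.fg_span (((Set.finite_singleton _).insert _).insert _)) m2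
  have gy : g y = 0 := hg _ (Submodule.subset_span (by simp))
  have gz : g z = 0 := hg _ (Submodule.subset_span (by simp))
  have gu : g (U0 z) = 0 := hg _ (Submodule.subset_span (by simp))
  have gy' : g' y = 0 := hg' _ (Submodule.subset_span (by simp))
  have gz' : g' z = 0 := hg' _ (Submodule.subset_span (by simp))
  have gu' : g' (W y) = 0 := hg' _ (Submodule.subset_span (by simp))
  obtain ⟨U, hU, t1, t2⟩ := hl_meet2 he hℓ hyz gy gz gy' gz'
  obtain ⟨a, b, hab⟩ := CaseB1_two he hℓ hA hB hAB hdep hU hW hy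
  obtain ⟨c, d, hcd⟩ := CaseB1_two he hℓ hA hB hAB hdep hU hU0 hU0z
  have f1 : g (U y) = b := by
    rw [hab, map_add, map_smul, map_smul, gy, hg1, smul_zero, zero_add, smul_eq_mul, mul_one]
  have f2 : g' (U y) = 0 := by
    rw [hab, map_add, map_smul, map_smul, gy', gu', smul_zero, smul_zero, add_zero]
  have f3 : g (U z) = 0 := by
    rw [hcd, map_add, map_smul, map_smul, gz, gu, smul_zero, smul_zero, add_zero]
  have f4 : g' (U z) = d := by
    rw [hcd, map_add, map_smul, map_smul, gz', hg1', smul_zero, zero_add, smul_eq_mul, mul_one]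
  rw [f1, f4] at t1
  rw [f1, f2, f3, f4, mul_zero, sub_zero] at t2
  have hb : b = 0 := by
    rcases mul_eq_zero.mp t2 with h | h
    · exact h
    · rw [h, add_zero] at t1
      exact t1
  have hd : d = 0 := by
    rw [hb, zero_add] at t1
    exact t1
  rw [hb, zero_smul, add_zero] at hab
  rw [hd, zero_smul, add_zero] at hcd
  obtain ⟨k, s, -, hks⟩ := CaseB1_par he hℓ hU hU0 hW ⟨a, hab⟩ hk hy
  apply hU0z
  refine ⟨k * c + s, ?_⟩
  rw [hks]
  show k • U z + s • z = (k * c + s) • z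
  rw [hcd, smul_smul, add_smul]

end CaseB1_Fix

theorem cb_killer [CompleteSpace X] {e : ℂ} (he : Sg e) (h5 : Dim5 X)
    {ℓ : Set (X →L[ℂ] X)} (hℓ : HLine e ℓ) {A B : X →L[ℂ] X} (hA : A ∈ ℓ) (hB : B ∈ ℓ)
    (hAB : ¬ Par e A B) (hdep : ∀ y, ¬ LinearIndependent ℂ ![y, A y, B y]) :
    ∃ U0 ∈ ℓ, (∃ z, LinearIndependent ℂ ![z, U0 z]) ∧
      (∃ (p q : X) (l : ℂ), ∀ z, U0 z - l • z ∈ Submodule.span ℂ {p, q}) ∧
      ∀ V ∈ ℓ, ∀ z, LinearIndependent ℂ ![z, U0 z] → V z ∈ Submodule.span ℂ {z, U0 z} := by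
  obtain ⟨W, hW, y, hy⟩ := CaseB1_ex he hℓ hA hB hAB
  obtain ⟨U0, hU0, hk⟩ := CaseB1_kill he hℓ hA hB hAB hdep hW hy
  obtain ⟨z0, hz0⟩ := CaseB1_sc he hℓ hA hB hAB hdep h5 hU0
  refine ⟨U0, hU0, ⟨z0, CaseB1_li.mpr hz0⟩, ?_, ?_⟩
  · have hz00 : z0 ≠ 0 := by
      rintro rfl
      exact hz0 ⟨0, by rw [map_zero, smul_zero]⟩
    have hK : (⊥ : Submodule ℂ X) ≠ ⊤ := by
      intro h
      apply hz00
      have : z0 ∈ (⊥ : Submodule ℂ X) := by
        rw [h]
        exact Submodule.mem_top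
      exact (Submodule.mem_bot ℂ).mp this
    obtain ⟨u, v, huv⟩ := exists_two_mod h5 y (W y) 0
    obtain ⟨l, hl⟩ := scalar_mod (Submodule.span ℂ {y, W y}) ⊥ hK
      ⟨u, v, fun a b hab => huv a b (Submodule.span_mono (by
        intro x hx
        rcases hx with hx | hx
        · exact Or.inl hx
        · exact Or.inr (Or.inl hx)) hab)⟩ (U0 : X →ₗ[ℂ] X)
      (fun z hz _ => CaseB1_out he hℓ hA hB hAB hdep hU0 hW hy hk hz)
    exact ⟨y, W y, l, hl⟩
  · intro V hV z hz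
    exact CaseB1_mem2.mpr (CaseB1_two he hℓ hA hB hAB hdep hV hU0 (CaseB1_li.mp hz))

end Pool.Agent.H.MP_bb4c62_an.JL
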