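import Pool.Agent.H.MP_bb4c62_an.JL.CaseB1

/-!
# Module JL/CaseB2

`cb_killer`: `U0 = l + R0`, `R0` maps into `P = span {p, q}`, `R0 ≠ 0`. For a member `V` and `z ∉ P` with `R0 z ≠ 0`: `z, U0 z`
are independent (if `U0 z = k z` then `(k - l) z ∈ P`, `k = l`, `R0 z = 0`), so `V z ∈ span {z, R0 z} ⊆ P + ℂ z`.
`scalar_mod` (`Z = P`, `K` the kernel of `R0`; `exists_two_mod`): `V = c + R`, `R` maps into `P`; and `R z` is a multiple of
`R0 z` for `z ∉ P`, `R0 z ≠ 0` (`V z = α z + β R0 z`, `(c - α) z ∈ P`).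
For all `z`: `R0 z, R z` are dependent: let `R0 z ≠ 0`, `z ∈ P`, `w ∉ P`, `R0 w = 0` (`exists_ker_notMem`); `R (z + w)` and
`R (z + 2 w)` are multiples of `R0 z`, so `R w` and `R z` are.
Choose `V` by `kone'` (`V` not in `span {1, U0}`): `R` is not a multiple of `R0`; `adj_of_local` (QP/Basic) gives
`R0 = ten w f`. For every other member `W = c' + R'`: if `R'` is a multiple of `R0` it is a `ten w f'`; otherwise
`adj_of_local` gives `R0 = ten w' f'`, `R' = ten w' g'`, and `w'` is a multiple of `w` because `R0 ≠ 0`.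
-/

namespace Pool.Agent.H.MP_bb4c62_an.JL

open Pool.Agent.H.MP_bb4c62_an.helper6.NL
open Pool.Agent.H.MP_bb4c62_an.helper6.Perturb
open Pool.Agent.H.MP_bb4c62_an.helper6.Gadgets

variable {X : Type*} [NormedAddCommGroup X] [NormedSpace ℂ X]

theorem CaseB2_li {U : X →L[ℂ] X} {l : ℂ} {P : Submodule ℂ X} (hU : ∀ z, U z - l • z ∈ P)
    {z : X} (hz : z ∉ P) (h0 : U z - l • z ≠ 0) : LinearIndependent ℂ ![z, U z] := by
  have hz0 : z ≠ 0 := by
    rintro rfl
    exact hz P.zero_mem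
  rw [LinearIndependent.pair_iff' hz0]
  intro a ha
  have h1 : (a - l) • z ∈ P := by
    have h2 := hU z
    rw [← ha, ← sub_smul] at h2
    exact h2
  by_cases hal : a - l = 0
  · apply h0
    rw [← ha, ← sub_smul, hal, zero_smul]
  · exact hz ((Submodule.smul_mem_iff P hal).1 h1)

/-- multiples outside of `P` -/
theorem CaseB2_out {U V : X →L[ℂ] X} {l c : ℂ} {P : Submodule ℂ X}
    (hU : ∀ z, U z - l • z ∈ P) (hV : ∀ z, V z - c • z ∈ P)
    (h : ∀ z, LinearIndependent ℂ ![z, U z] → V z ∈ Submodule.span ℂ {z, U z})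
    {z : X} (hz : z ∉ P) (h0 : U z - l • z ≠ 0) : ∃ b : ℂ, V z - c • z = b • (U z - l • z) := by
  obtain ⟨α, β, hαβ⟩ := Submodule.mem_span_pair.1 (h z (CaseB2_li hU hz h0))
  have e1 : V z - c • z = (α + β * l - c) • z + β • (U z - l • z) := by
    rw [← hαβ]
    module
  have h1 : (α + β * l - c) • z ∈ P := by
    have h2 := P.sub_mem (hV z) (P.smul_mem β (hU z))
    rw [e1, add_sub_cancel_right] at h2
    exact h2
  by_cases h3 : α + β * l - c = 0
  · exact ⟨β, by rw [e1, h3, zero_smul, zero_add]⟩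
  · exact absurd ((Submodule.smul_mem_iff P h3).1 h1) hz

theorem CaseB2_all {U V : X →L[ℂ] X} {l c : ℂ} {P : Submodule ℂ X}
    (hU : ∀ z, U z - l • z ∈ P) (hV : ∀ z, V z - c • z ∈ P)
    (h : ∀ z, LinearIndependent ℂ ![z, U z] → V z ∈ Submodule.span ℂ {z, U z})
    {w : X} (hw : w ∉ P) (hw0 : U w - l • w = 0) {z : X} (h0 : U z - l • z ≠ 0) :
    ∃ b : ℂ, V z - c • z = b • (U z - l • z) := by
  by_cases hz : z ∈ P
  · have h1 : ∀ t : ℂ, t ≠ 0 → z + t • w ∉ P := by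
      intro t ht h2
      have h3 := P.sub_mem h2 hz
      rw [add_sub_cancel_left] at h3
      exact hw ((Submodule.smul_mem_iff P ht).1 h3)
    have h2 : ∀ t : ℂ, U (z + t • w) - l • (z + t • w) = U z - l • z := by
      intro t
      have e : U (z + t • w) - l • (z + t • w) = (U z - l • z) + t • (U w - l • w) := by
        rw [map_add, map_smul]
        module
      rw [e, hw0, smul_zero, add_zero]
    have h3 : ∀ t : ℂ, t ≠ 0 → ∃ b : ℂ, (V z - c • z) + t • (V w - c • w) =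
        b • (U z - l • z) := by
      intro t ht
      obtain ⟨b, hb⟩ := CaseB2_out hU hV h (h1 t ht) (by rw [h2]; exact h0)
      refine ⟨b, ?_⟩
      rw [h2] at hb
      rw [← hb, map_add, map_smul]
      module
    obtain ⟨b, hb⟩ := h3 1 one_ne_zero
    obtain ⟨b', hb'⟩ := h3 2 two_ne_zero
    refine ⟨2 * b - b', ?_⟩
    have e : V z - c • z = (2 : ℂ) • ((V z - c • z) + (1 : ℂ) • (V w - c • w)) -
        ((V z - c • z) + (2 : ℂ) • (V w - c • w)) := by module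
    rw [e, hb, hb']
    module
  · exact CaseB2_out hU hV h hz h0

theorem caseB [CompleteSpace X] {e : ℂ} (he : Sg e) (h5 : Dim5 X)
    {ℓ : Set (X →L[ℂ] X)} (hℓ : HLine e ℓ) {A B : X →L[ℂ] X} (hA : A ∈ ℓ) (hB : B ∈ ℓ)
    (hAB : ¬ Par e A B) (hdep : ∀ y, ¬ LinearIndependent ℂ ![y, A y, B y]) : RowFam ℓ := by
  obtain ⟨U0, hU0, ⟨z0, hz0⟩, ⟨p, q, l, hl⟩, hspan⟩ := cb_killer he h5 hℓ hA hB hAB hdep
  obtain ⟨P, hP⟩ : ∃ P : Submodule ℂ X, P = Submodule.span ℂ {p, q} := ⟨_, rfl⟩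
  obtain ⟨R0, hR0⟩ : ∃ R0 : X →L[ℂ] X, R0 = U0 - l • (1 : X →L[ℂ] X) := ⟨_, rfl⟩
  have hR0a : ∀ z, R0 z = U0 z - l • z := fun z => by
    rw [hR0]
    rfl
  have hRz0 : R0 z0 ≠ 0 := by
    intro h0
    rw [hR0a, sub_eq_zero] at h0
    have h1 := LinearIndependent.pair_iff.1 hz0 l (-1) (by rw [h0]; module)
    exact neg_ne_zero.2 one_ne_zero h1.2
  have hR0ne : R0 ≠ 0 := by
    rintro h0
    rw [h0] at hRz0
    exact hRz0 rfl
  have hlP : ∀ z, U0 z - l • z ∈ P := by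
    rw [hP]
    exact hl
  obtain ⟨w1, hw1, hw1'⟩ := exists_ker_notMem h5 p q (R0 : X →ₗ[ℂ] X) (by
    intro z
    show R0 z ∈ _
    rw [hR0a]
    exact hl z)
  rw [← hP] at hw1
  have hw2 : U0 w1 - l • w1 = 0 := by
    rw [← hR0a]
    exact hw1'
  obtain ⟨u, v, huv⟩ := exists_two_mod h5 p q q
  have hsc : ∀ V ∈ ℓ, ∃ c : ℂ, ∀ z, V z - c • z ∈ P := by
    intro V hV
    refine scalar_mod P (LinearMap.ker (R0 : X →ₗ[ℂ] X)) ?_ ⟨u, v, fun a b hab => huv a b ?_⟩
      (V : X →ₗ[ℂ] X) ?_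
    · intro h0
      have h1 : z0 ∈ LinearMap.ker (R0 : X →ₗ[ℂ] X) := by
        rw [h0]
        exact Submodule.mem_top
      exact hRz0 (LinearMap.mem_ker.1 h1)
    · rw [hP] at hab
      refine Submodule.span_mono ?_ hab
      exact Set.insert_subset_insert (Set.singleton_subset_iff.2 (Set.mem_insert _ _))
    · intro z hz hz'
      have h0 : U0 z - l • z ≠ 0 := by
        rw [← hR0a]
        exact fun h1 => hz' (LinearMap.mem_ker.2 h1)
      obtain ⟨α, β, hαβ⟩ := Submodule.mem_span_pair.1 (hspan V hV z (CaseB2_li hlP hz h0))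
      refine ⟨α + β * l, ?_⟩
      have e : V z - (α + β * l) • z = β • (U0 z - l • z) := by
        rw [← hαβ]
        module
      show V z - (α + β * l) • z ∈ P
      rw [e]
      exact P.smul_mem β (hlP z)
  have hdepR : ∀ V ∈ ℓ, ∀ c : ℂ, (∀ z, V z - c • z ∈ P) → ∀ z,
      ¬ LinearIndependent ℂ ![R0 z, (V - c • (1 : X →L[ℂ] X)) z] := by
    intro V hV c hc z hli
    have h0 : R0 z ≠ 0 := hli.ne_zero 0
    obtain ⟨b, hb⟩ := CaseB2_all hlP hc (hspan V hV) hw1 hw2 (z := z) (by rw [← hR0a]; exact h0)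
    rw [← hR0a] at hb
    exact (LinearIndependent.pair_iff' h0).1 hli b hb.symm
  obtain ⟨V, hV, hVn⟩ := kone' he hℓ hU0 hz0
  obtain ⟨c, hc⟩ := hsc V hV
  obtain ⟨w, f, g, hf, -⟩ := QP.adj_of_local hR0ne (B := V - c • (1 : X →L[ℂ] X)) (by
    rintro ⟨k, hk⟩
    refine hVn ⟨k, c - k * l, ?_⟩
    rw [sub_eq_iff_eq_add] at hk
    rw [hk, hR0]
    module) (hdepR V hV c hc)
  have hw0 : w ≠ 0 := by
    rintro rfl
    apply hRz0
    rw [hf]
    show f z0 • (0 : X) = 0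
    rw [smul_zero]
  refine ⟨w, hw0, fun W hW => ?_⟩
  obtain ⟨c', hc'⟩ := hsc W hW
  by_cases hk : ∃ k : ℂ, W - c' • (1 : X →L[ℂ] X) = k • R0
  · obtain ⟨k, hk⟩ := hk
    refine ⟨c', k • f, ?_⟩
    rw [sub_eq_iff_eq_add] at hk
    rw [hk, hf, add_comm]
    congr 1
    ext x
    show k • (f x • w) = (k * f x) • w
    rw [smul_smul]
  · obtain ⟨w', f', g', hf', hg'⟩ := QP.adj_of_local hR0ne hk (hdepR W hW c' hc')
    have h1 : f z0 • w = f' z0 • w' := by
      have h2 : R0 z0 = f z0 • w := by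
        rw [hf]
        rfl
      have h3 : R0 z0 = f' z0 • w' := by
        rw [hf']
        rfl
      rw [← h2, ← h3]
    have h4 : f' z0 ≠ 0 := by
      intro h4
      apply hRz0
      rw [hf']
      show f' z0 • w' = 0
      rw [h4, zero_smul]
    refine ⟨c', ((f' z0)⁻¹ * f z0) • g', ?_⟩
    rw [sub_eq_iff_eq_add] at hg'
    rw [hg', add_comm]
    congr 1
    ext x
    show g' x • w' = (((f' z0)⁻¹ * f z0) * g' x) • w
    have h5 : w' = ((f' z0)⁻¹ * f z0) • w := by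
      rw [mul_smul, h1, smul_smul, inv_mul_cancel₀ h4, one_smul]
    rw [h5, smul_smul, mul_comm]

end Pool.Agent.H.MP_bb4c62_an.JL
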