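import Pool.Agent.H.MP_bb4c62_an.JL.Fam

/-!
# Module JL/Col1

`e = -1`: nothing to prove (`Sc` holds). `e = 1`. Members are `U = a + ten n f`.
(1) `meet` with `S = 1`: a member `U` with `2 U` quasinilpotent; `qn_eig` with a `y ≠ 0` in the kernel of `f`: `a = 0`;
`U n = f n • n`: `f n = 0` (`n ≠ 0` because `U` is not trivial). Call it `B' = ten b f`, `b ≠ 0`, `f b = 0`.
(2) Choose `u` with `f u = 1`, `y` with `f y = 0`, `y ∉ ℂ b` (so `b, u, y` are independent) and functionals `g, h`: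
`g y = 1`, `g b = g u = 0`, `h b = 1`, `h y = h u = 0`. `S = ten y g + ten u h`. `B' S + S B' = ten b h + ten u f` has trace
`2`, so `¬ Prp 1 B' S` (`qn_two`). `meet`: a member `A' = a + ten n f` with `Prp 1 A' S`; `(A' S + S A') y = 2 a y`
(`S y = y`, `A' y = a y`), `qn_eig`: `a = 0`. `n` is not a multiple of `b` (otherwise `A'` is a multiple of `B'`, not `0`, and
`Prp 1 B' S`). So `¬ Par 1 A' B'`.
(3) A member `W = m + ten k f`. Choose `y` with `f y = 0`, `y ∉ span {n, b}` and `g` with `g y = 1`, `g n = g b = 0`;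
`S = ten y g`: `A' S + S A' = 0`, `B' S + S B' = 0`, so `Prp 1 W S` by `gen`; `(W S + S W) y = 2 m y` (`W y = m y`), so `m = 0`.
-/

namespace Pool.Agent.H.MP_bb4c62_an.JL

open Pool.Agent.H.MP_bb4c62_an.helper6.NL
open Pool.Agent.H.MP_bb4c62_an.helper6.Perturb
open Pool.Agent.H.MP_bb4c62_an.helper6.Gadgets

variable {X : Type*} [NormedAddCommGroup X] [NormedSpace ℂ X]

private theorem Col1_eig [CompleteSpace X] {U S : X →L[ℂ] X} (h : Prp 1 U S) {y : X}
    (hy : y ≠ 0) {m : ℂ} (hS : S y = y) (hU : U y = m • y) : m = 0 := by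
  have h1 : (U * S + (1 : ℂ) • (S * U)) y = (2 * m) • y := by
    show U (S y) + (1 : ℂ) • S (U y) = (2 * m) • y
    rw [hS, hU, map_smul, hS, one_smul, two_mul, add_smul]
  have h2 : 2 * m = 0 := qn_eig h hy h1
  exact (mul_eq_zero.1 h2).resolve_left two_ne_zero

private theorem Col1_ker (h5 : Dim5 X) {f : X →L[ℂ] ℂ} {u : X} (hu : f u = 1) (n b : X) :
    ∃ y, f y = 0 ∧ y ∉ Submodule.span ℂ {n, b, u} := by
  obtain ⟨v, hv⟩ := exists_notMem4 h5 n b u u
  refine ⟨v - f v • u, ?_, fun h => hv ?_⟩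
  · rw [map_sub, map_smul, hu, smul_eq_mul, mul_one, sub_self]
  · have h1 : v = (v - f v • u) + f v • u := by rw [sub_add_cancel]
    rw [h1]
    refine Submodule.add_mem _ (Submodule.span_mono ?_ h)
      (Submodule.smul_mem _ _ (Submodule.subset_span (by simp)))
    intro x hx
    simp only [Set.mem_insert_iff, Set.mem_singleton_iff] at hx ⊢
    tauto

theorem col_scal [CompleteSpace X] {e : ℂ} (he : Sg e) (h5 : Dim5 X)
    {ℓ : Set (X →L[ℂ] X)} (hℓ : HLine e ℓ) {f : X →L[ℂ] ℂ} (hf : f ≠ 0)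
    (h : ∀ U ∈ ℓ, ∃ (a : ℂ) (n : X), U = a • (1 : X →L[ℂ] X) + ten n f) :
    ∀ U ∈ ℓ, ∃ (a : ℂ) (n : X), Sc e a ∧ U = a • (1 : X →L[ℂ] X) + ten n f := by
  rcases he with rfl | rfl
  · obtain ⟨u, hu⟩ := exists_ap hf
    have happ : ∀ (a : ℂ) (n y : X), f y = 0 →
        (a • (1 : X →L[ℂ] X) + ten n f) y = a • y := by
      intro a n y hy
      show a • y + f y • n = a • y
      rw [hy, zero_smul, add_zero]
    have hform : ∀ n : X, (0 : ℂ) • (1 : X →L[ℂ] X) + ten n f = ten n f := fun n => by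
      rw [zero_smul, zero_add]
    -- (1)
    obtain ⟨B, hB, hB1⟩ := hℓ.meet 1
    obtain ⟨a, b, hBe⟩ := h B hB
    obtain ⟨y₀, hy₀, hy₀'⟩ := Col1_ker h5 hu 0 0
    have hy₀0 : y₀ ≠ 0 := fun h0 => hy₀' (by rw [h0]; exact Submodule.zero_mem _)
    have ha : a = 0 := Col1_eig hB1 hy₀0 rfl (by rw [hBe]; exact happ a b y₀ hy₀)
    rw [ha, hform] at hBe
    have hb0 : b ≠ 0 := by
      rintro rfl
      refine hl_nt hℓ hB ⟨0, Or.inr rfl, ?_⟩
      rw [hBe, zero_smul]
      ext y
      simp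
    have hfb : f b = 0 := Col1_eig hB1 hb0 rfl (by rw [hBe]; rfl)
    -- (2)
    obtain ⟨y, hy, hyn⟩ := Col1_ker h5 hu b b
    obtain ⟨g, hg0, hgy⟩ := exists_sep_sub (M := Submodule.span ℂ {b, b, u})
      (Submodule.fg_span (Set.toFinite _)) hyn
    have hgb : g b = 0 := hg0 b (Submodule.subset_span (by simp))
    have hgu : g u = 0 := hg0 u (Submodule.subset_span (by simp))
    have hbn : b ∉ Submodule.span ℂ {u, y} := by
      intro hb
      obtain ⟨α, β, hαβ⟩ := Submodule.mem_span_pair.1 hb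
      have h1 := congrArg f hαβ
      rw [map_add, map_smul, map_smul, hu, hy, hfb, smul_eq_mul, smul_eq_mul, mul_one, mul_zero,
        add_zero] at h1
      rw [h1, zero_smul, zero_add] at hαβ
      have h2 : g b = β := by rw [← hαβ, map_smul, hgy, smul_eq_mul, mul_one]
      rw [hgb] at h2
      rw [← h2, zero_smul] at hαβ
      exact hb0 hαβ.symm
    obtain ⟨k, hk0, hkb⟩ := exists_sep_sub (M := Submodule.span ℂ {u, y})
      (Submodule.fg_span (Set.toFinite _)) hbn
    have hky : k y = 0 := hk0 y (Submodule.subset_span (by simp))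
    obtain ⟨S, hS⟩ : ∃ S, S = ten y g + ten u k := ⟨_, rfl⟩
    have hSy : S y = y := by
      rw [hS]
      show g y • y + k y • u = y
      rw [hgy, hky, one_smul, zero_smul, add_zero]
    have hBS : ¬ Prp 1 B S := by
      intro hq
      have h1 : B * S + (1 : ℂ) • (S * B) = ten b k + ten u f := by
        rw [hBe, hS]
        ext x
        show f (g x • y + k x • u) • b + (1 : ℂ) • (g (f x • b) • y + k (f x • b) • u) =
          k x • b + f x • u
        rw [map_add, map_smul, map_smul, map_smul, map_smul, hy, hu, hgb, hkb]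
        simp only [smul_eq_mul, mul_zero, mul_one, zero_add, zero_smul, one_smul]
      unfold Prp at hq
      rw [h1] at hq
      have h2 := (QP.qn_two hq).1
      rw [hkb, hu] at h2
      norm_num at h2
    obtain ⟨A, hA, hAS⟩ := hℓ.meet S
    obtain ⟨a', n, hAe⟩ := h A hA
    have hy0 : y ≠ 0 := by
      rintro rfl
      rw [map_zero] at hgy
      exact zero_ne_one hgy
    have ha' : a' = 0 := Col1_eig hAS hy0 hSy (by rw [hAe]; exact happ a' n y hy)
    rw [ha', hform] at hAe
    have hnp : ¬ Par 1 A B := fun hp => hBS (par_dep hp hAS)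
    -- (3)
    intro W hW
    obtain ⟨m, w, hWe⟩ := h W hW
    obtain ⟨y', hy', hyn'⟩ := Col1_ker h5 hu n b
    obtain ⟨g', hg0', hgy'⟩ := exists_sep_sub (M := Submodule.span ℂ {n, b, u})
      (Submodule.fg_span (Set.toFinite _)) hyn'
    have hgn' : g' n = 0 := hg0' n (Submodule.subset_span (by simp))
    have hgb' : g' b = 0 := hg0' b (Submodule.subset_span (by simp))
    have hy0' : y' ≠ 0 := by
      rintro rfl
      rw [map_zero] at hgy'
      exact zero_ne_one hgy'
    have hz : ∀ v, g' v = 0 → Prp 1 (ten v f) (ten y' g') := by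
      intro v hv
      have h1 : ten v f * ten y' g' + (1 : ℂ) • (ten y' g' * ten v f) = 0 := by
        ext x
        show f (g' x • y') • v + (1 : ℂ) • (g' (f x • v) • y') = 0
        rw [map_smul, map_smul, hy', hv]
        simp only [smul_eq_mul, mul_zero, zero_smul, smul_zero, add_zero]
      unfold Prp
      rw [h1]
      exact qn_zero
    have hWS : Prp 1 W (ten y' g') := ((hℓ.gen A hA B hB hnp W).1 hW).2 _
      (by rw [hAe]; exact hz n hgn') (by rw [hBe]; exact hz b hgb')
    have hm : m = 0 := Col1_eig hWS hy0'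
      (by show g' y' • y' = y'; rw [hgy', one_smul]) (by rw [hWe]; exact happ m w y' hy')
    exact ⟨m, w, Or.inr hm, hWe⟩
  · intro U hU
    obtain ⟨a, n, hUe⟩ := h U hU
    exact ⟨a, n, Or.inl rfl, hUe⟩

end Pool.Agent.H.MP_bb4c62_an.JL
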