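import Pool.Agent.H.MP_bb4c62_an.JL.Col1

/-!
# Module JL/Col2

By `col_scal` all members are `a + ten n f` with `Sc e a`. `A = a + ten n1 f`, `B = b + ten n2 f`; `n1, n2` are not
proportional (`¬ Par e A B`, nontrivial). `N = span {n1, n2}`.
(1) For every `n ∈ N`, `n ≠ 0`, some `a + ten n f` with `Sc e a` is in `ℓ`: choose `y` with `f y = 1`, `y ∉ N` (if `y ∈ N` add an
element of the kernel of `f` outside of `N`), `g` with `g y = 0`, `g n = 0`, `g ≠ 0` on `N`. `hl_meet1`: a member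
`U = a + ten m f` with `g (U y) = g m = 0`. `m ∈ N`: `hl_fun` says that functionals vanishing in `y, n1, n2` vanish in `m`,
for two different `y` (`y` and `y + y0`, `f y0 = 0`, `y0 ∉ span {y, n1, n2}`), so `m ∈ N`. So `m = c n`, `c ≠ 0`, and
`c⁻¹ U ∈ ℓ` by `gen` (`par_dep`).
(2) `f = 0` on `N`: otherwise `N` has a basis `a, b` with `f a = 1`, `f b = 0`; choose `v` with `f v = 0`, `a, b, v` independent
and functionals `p, q` with `p b = 1`, `p a = p v = 0`, `q v = 1`, `q a = q b = 0`. `S = ten v p + ten a q` (`b ↦ v ↦ a ↦ 0`).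
`(ten n f) S + e S (ten n f) = ten n (f ∘ S) + e ten (S n) f`, `f ∘ S = q`. For `n = a`: `ten a q`, nilpotent. For
`n = b`: `ten b q + ten (e v) f`: `q b = 0`, `f v = 0`, `q v * f b = 0`: `qn_of_two`. For `n = a + b`:
`ten (a + b) q + ten (e v) f`: determinant `q (a+b) * (e * f v) - q (e v) * f (a+b) = -e ≠ 0`, not quasinilpotent
(`qn_two`). The members `· + ten a f`, `· + ten b f`, `· + ten (a + b) f` (by (1); use `prp_add`) contradict `gen`
(members depend on `A, B` and on each other pair).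
(3) So `f n1 = f n2 = 0` and the second alternative of `NAdj`.
-/

namespace Pool.Agent.H.MP_bb4c62_an.JL

open Pool.Agent.H.MP_bb4c62_an.helper6.NL
open Pool.Agent.H.MP_bb4c62_an.helper6.Perturb
open Pool.Agent.H.MP_bb4c62_an.helper6.Gadgets

variable {X : Type*} [NormedAddCommGroup X] [NormedSpace ℂ X]

private theorem Col2_span {V : Type*} [AddCommGroup V] [Module ℂ V] {f g h1 h2 h : V}
    (m1 : h1 ∈ Submodule.span ℂ {f, g}) (m2 : h2 ∈ Submodule.span ℂ {f, g})
    (m : h ∈ Submodule.span ℂ {f, g}) (hn : h1 ≠ 0) (hp : ¬ ∃ c : ℂ, h2 = c • h1) :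
    ∃ a b : ℂ, h = a • h1 + b • h2 := by
  obtain ⟨a1, b1, rfl⟩ := Submodule.mem_span_pair.1 m1
  obtain ⟨a2, b2, rfl⟩ := Submodule.mem_span_pair.1 m2
  obtain ⟨a, b, rfl⟩ := Submodule.mem_span_pair.1 m
  have hD : a1 * b2 - a2 * b1 ≠ 0 := by
    intro hD
    apply hp
    by_cases h0 : a1 = 0
    · have hb : b1 ≠ 0 := by
        rintro rfl
        apply hn
        rw [h0, zero_smul, zero_smul, add_zero]
      have ha2 : a2 = 0 := by
        rw [h0, zero_mul, zero_sub, neg_eq_zero] at hD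
        rcases mul_eq_zero.1 hD with h3 | h3
        · exact h3
        · exact absurd h3 hb
      refine ⟨b2 / b1, ?_⟩
      rw [h0, ha2, zero_smul, zero_add, zero_add, smul_smul, div_mul_cancel₀ _ hb]
    · refine ⟨a2 / a1, ?_⟩
      have h3 : b2 = a2 / a1 * b1 := by
        field_simp
        linear_combination hD
      rw [smul_add, smul_smul, smul_smul, div_mul_cancel₀ _ h0, ← h3]
  obtain ⟨c1, hc1⟩ : ∃ c, c = (a * b2 - b * a2) / (a1 * b2 - a2 * b1) := ⟨_, rfl⟩
  obtain ⟨c2, hc2⟩ : ∃ c, c = (b * a1 - a * b1) / (a1 * b2 - a2 * b1) := ⟨_, rfl⟩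
  have e1 : c1 * a1 + c2 * a2 = a := by
    rw [hc1, hc2, div_mul_eq_mul_div, div_mul_eq_mul_div, ← add_div, div_eq_iff hD]
    ring
  have e2 : c1 * b1 + c2 * b2 = b := by
    rw [hc1, hc2, div_mul_eq_mul_div, div_mul_eq_mul_div, ← add_div, div_eq_iff hD]
    ring
  refine ⟨c1, c2, ?_⟩
  rw [← e1, ← e2]
  module

/-- a vector in the kernel outside of the span of three vectors -/
private theorem Col2_ker (h5 : Dim5 X) {f : X →L[ℂ] ℂ} (hf : f ≠ 0) (a b c : X) :
    ∃ v, f v = 0 ∧ v ∉ Submodule.span ℂ {a, b, c} := by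
  classical
  by_contra hcon
  push Not at hcon
  obtain ⟨u, hu⟩ : ∃ u, f u ≠ 0 := by
    by_contra hc
    push Not at hc
    exact hf (ContinuousLinearMap.ext hc)
  obtain ⟨v, hv⟩ := h5
  have htop : Submodule.span ℂ ((({u, a, b, c} : Finset X)) : Set X) = ⊤ := by
    rw [eq_top_iff]
    intro x _
    have h1 : x - (f x / f u) • u ∈ Submodule.span ℂ {a, b, c} := hcon _ (by
      rw [map_sub, map_smul, smul_eq_mul, div_mul_cancel₀ _ hu, sub_self])
    have h2 : Submodule.span ℂ {a, b, c} ≤ Submodule.span ℂ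
        ((({u, a, b, c} : Finset X)) : Set X) := by
      apply Submodule.span_mono
      intro z hz
      simp only [Finset.coe_insert, Finset.coe_singleton]
      exact Or.inr hz
    have h3 : u ∈ Submodule.span ℂ ((({u, a, b, c} : Finset X)) : Set X) :=
      Submodule.subset_span (by simp)
    have h4 := Submodule.add_mem _ (h2 h1) (Submodule.smul_mem _ (f x / f u) h3)
    rwa [sub_add_cancel] at h4
  have h6 := linearIndependent_le_span_finset v hv _ htop
  have h7 : ({u, a, b, c} : Finset X).card ≤ 4 := Finset.card_le_four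
  have h8 : (Cardinal.mk (Fin 5)) = 5 := by simp
  rw [h8] at h6
  have h9 : (5 : Cardinal) = ((5 : ℕ) : Cardinal) := by norm_num
  rw [h9, Nat.cast_le] at h6
  omega

private theorem Col2_sc {e a b c : ℂ} (ha : Sc e a) (hb : Sc e b) : Sc e (b - c * a) := by
  rcases ha with h | rfl
  · exact Or.inl h
  · rcases hb with h | rfl
    · exact Or.inl h
    · right
      rw [mul_zero, sub_zero]

private theorem Col2_scm {e a c : ℂ} (ha : Sc e a) : Sc e (c * a) := by
  rcases ha with h | rfl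
  · exact Or.inl h
  · right
    rw [mul_zero]

private theorem Col2_par {e a b c : ℂ} (ha : Sc e a) (hb : Sc e b) (n : X) (f : X →L[ℂ] ℂ) :
    Par e (a • (1 : X →L[ℂ] X) + ten n f) (b • (1 : X →L[ℂ] X) + ten (c • n) f) := by
  refine ⟨c, b - c * a, Col2_sc ha hb, ?_⟩
  rw [ten_smul_left]
  module

private theorem Col2_prp [CompleteSpace X] {e a : ℂ} (ha : Sc e a) {T S : X →L[ℂ] X} :
    Prp e (a • (1 : X →L[ℂ] X) + T) S ↔ Prp e T S := by
  rw [add_comm]
  exact prp_add ha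

private theorem Col2_mem [CompleteSpace X] {e : ℂ} (he : Sg e) (h5 : Dim5 X)
    {ℓ : Set (X →L[ℂ] X)} (hℓ : HLine e ℓ) {f : X →L[ℂ] ℂ} (hf : f ≠ 0)
    (h : ∀ U ∈ ℓ, ∃ (a : ℂ) (n : X), Sc e a ∧ U = a • (1 : X →L[ℂ] X) + ten n f)
    {a1 a2 : ℂ} {n1 n2 : X} (hA : a1 • (1 : X →L[ℂ] X) + ten n1 f ∈ ℓ)
    (hB : a2 • (1 : X →L[ℂ] X) + ten n2 f ∈ ℓ)
    (hAB : ¬ Par e (a1 • (1 : X →L[ℂ] X) + ten n1 f) (a2 • (1 : X →L[ℂ] X) + ten n2 f))
    (hn1 : n1 ≠ 0) (hn2 : ¬ ∃ c : ℂ, n2 = c • n1)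
    {n : X} (hn : n ∈ Submodule.span ℂ {n1, n2}) (hn0 : n ≠ 0) :
    ∃ a : ℂ, Sc e a ∧ a • (1 : X →L[ℂ] X) + ten n f ∈ ℓ := by
  obtain ⟨N, hN⟩ : ∃ N, N = Submodule.span ℂ {n1, n2} := ⟨_, rfl⟩
  have m1 : n1 ∈ N := hN ▸ Submodule.subset_span (by simp)
  have m2 : n2 ∈ N := hN ▸ Submodule.subset_span (by simp)
  have hnN : n ∈ N := hN ▸ hn
  -- `y`
  obtain ⟨y, hy1, hyN⟩ : ∃ y, f y = 1 ∧ y ∉ N := by
    obtain ⟨u, hu⟩ : ∃ u, f u ≠ 0 := by
      by_contra hc
      push Not at hc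
      exact hf (ContinuousLinearMap.ext hc)
    have hu1 : f ((f u)⁻¹ • u) = 1 := by rw [map_smul, smul_eq_mul, inv_mul_cancel₀ hu]
    by_cases hyN : (f u)⁻¹ • u ∈ N
    · obtain ⟨v0, hv0, hv1⟩ := Col2_ker h5 hf n1 n2 n2
      refine ⟨(f u)⁻¹ • u + v0, by rw [map_add, hu1, hv0, add_zero], fun hc => hv1 ?_⟩
      have h1 : v0 ∈ N := by
        have h2 := N.sub_mem hc hyN
        rwa [add_sub_cancel_left] at h2
      rw [hN] at h1
      refine Submodule.span_mono ?_ h1
      intro z hz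
      rcases hz with rfl | hz
      · exact Or.inl rfl
      · exact Or.inr (Or.inl hz)
    · exact ⟨_, hu1, hyN⟩
  -- `n'`
  obtain ⟨n', hn'N, hn'⟩ : ∃ n', n' ∈ N ∧ ¬ ∃ c : ℂ, n' = c • n := by
    by_contra hcon
    push Not at hcon
    obtain ⟨c, hc⟩ := hcon n1 m1
    obtain ⟨d, hd⟩ := hcon n2 m2
    have hc0 : c ≠ 0 := by
      rintro rfl
      exact hn1 (by rw [hc, zero_smul])
    apply hn2
    refine ⟨d * c⁻¹, ?_⟩
    rw [hd, hc, smul_smul, mul_assoc, inv_mul_cancel₀ hc0, mul_one]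
  -- `g`
  obtain ⟨g, hg0, hg1⟩ : ∃ g : X →L[ℂ] ℂ, (∀ z ∈ Submodule.span ℂ {y, n}, g z = 0) ∧
      g n' = 1 := by
    refine exists_sep_sub (Submodule.fg_span (Set.toFinite _)) ?_
    intro hmem
    obtain ⟨α, β, hαβ⟩ := Submodule.mem_span_pair.1 hmem
    by_cases hα : α = 0
    · apply hn'
      refine ⟨β, ?_⟩
      rw [← hαβ, hα, zero_smul, zero_add]
    · apply hyN
      have h1 : y = α⁻¹ • (n' - β • n) := by
        rw [← hαβ, add_sub_cancel_right, smul_smul, inv_mul_cancel₀ hα, one_smul]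
      rw [h1]
      exact N.smul_mem _ (N.sub_mem hn'N (N.smul_mem _ hnN))
  have hgy : g y = 0 := hg0 _ (Submodule.subset_span (by simp))
  have hgn : g n = 0 := hg0 _ (Submodule.subset_span (by simp))
  obtain ⟨U, hU, hgU⟩ := hl_meet1 he hℓ hgy
  obtain ⟨a, m, ha, rfl⟩ := h U hU
  have hgm : g m = 0 := by
    have h1 : (a • (1 : X →L[ℂ] X) + ten m f) y = a • y + m := by
      rw [_root_.add_apply, _root_.smul_apply, ten_apply, hy1, one_smul]
      rfl
    rw [h1, map_add, map_smul, hgy, smul_zero, zero_add] at hgU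
    exact hgU
  -- `m ∈ span {z, n1, n2}` for `f z = 1`
  have key : ∀ z, f z = 1 → m ∈ Submodule.span ℂ {z, n1, n2} := by
    intro z hz
    have h1 := hl_span he hℓ hA hB hAB hU z
    have hz1 : z ∈ Submodule.span ℂ {z, n1, n2} := Submodule.subset_span (by simp)
    have hz2 : n1 ∈ Submodule.span ℂ {z, n1, n2} := Submodule.subset_span (by simp)
    have hz3 : n2 ∈ Submodule.span ℂ {z, n1, n2} := Submodule.subset_span (by simp)
    have happ : ∀ (b : ℂ) (k : X), (b • (1 : X →L[ℂ] X) + ten k f) z = b • z + k := by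
      intro b k
      rw [_root_.add_apply, _root_.smul_apply, ten_apply, hz, one_smul]
      rfl
    rw [happ, happ, happ] at h1
    have h2 : Submodule.span ℂ {z, a1 • z + n1, a2 • z + n2} ≤ Submodule.span ℂ {z, n1, n2} := by
      rw [Submodule.span_le]
      rintro x (rfl | rfl | rfl)
      · exact hz1
      · exact Submodule.add_mem _ (Submodule.smul_mem _ _ hz1) hz2
      · exact Submodule.add_mem _ (Submodule.smul_mem _ _ hz1) hz3
    have h3 := Submodule.sub_mem _ (h2 h1) (Submodule.smul_mem _ a hz1)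
    rwa [add_sub_cancel_left] at h3
  have hmN : m ∈ N := by
    obtain ⟨y0, hy0, hy0'⟩ := Col2_ker h5 hf y n1 n2
    have h1 := key y hy1
    have h2 := key (y + y0) (by rw [map_add, hy1, hy0, add_zero])
    rw [Submodule.mem_span_insert] at h2
    obtain ⟨β, z, hz, hm⟩ := h2
    have hzz : Submodule.span ℂ {n1, n2} ≤ Submodule.span ℂ {y, n1, n2} :=
      Submodule.span_mono (fun w hw => Or.inr hw)
    have hyy : y ∈ Submodule.span ℂ {y, n1, n2} := Submodule.subset_span (by simp)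
    have hβ : β = 0 := by
      by_contra hβ
      apply hy0'
      have h3 : y0 = β⁻¹ • (m - z) - y := by
        rw [hm, add_sub_cancel_right, smul_smul, inv_mul_cancel₀ hβ, one_smul,
          add_sub_cancel_left]
      rw [h3]
      exact Submodule.sub_mem _ (Submodule.smul_mem _ _ (Submodule.sub_mem _ h1 (hzz hz))) hyy
    rw [hβ, zero_smul, zero_add] at hm
    rw [hm, hN]
    exact hz
  obtain ⟨c, d, hcd⟩ := Col2_span (hN ▸ hnN) (hN ▸ hn'N) (hN ▸ hmN) hn0 hn'
  have hd : d = 0 := by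
    rw [hcd, map_add, map_smul, map_smul, hgn, hg1, smul_zero, zero_add, smul_eq_mul,
      mul_one] at hgm
    exact hgm
  rw [hd, zero_smul, add_zero] at hcd
  have hnt := hl_nt hℓ hU
  have hc0 : c ≠ 0 := by
    rintro rfl
    apply hnt
    refine ⟨a, ha, ?_⟩
    rw [hcd, zero_smul]
    have h1 : ten (0 : X) f = 0 := by
      ext v
      simp [ten_apply]
    rw [h1, add_zero]
  have hdep := ((hℓ.gen _ hA _ hB hAB _).1 hU).2
  refine ⟨c⁻¹ * a, Col2_scm ha, ?_⟩
  have h1 : (c⁻¹ * a) • (1 : X →L[ℂ] X) + ten n f = c⁻¹ • (a • (1 : X →L[ℂ] X) + ten m f) := by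
    rw [hcd, ten_smul_left, smul_add, smul_smul, smul_smul, inv_mul_cancel₀ hc0, one_smul]
  rw [h1]
  refine (hℓ.gen _ hA _ hB hAB _).2 ⟨?_, fun S hS1 hS2 => prp_smul (hdep S hS1 hS2) _⟩
  rintro ⟨s, hs, hs'⟩
  apply hnt
  refine ⟨c * s, Col2_scm hs, ?_⟩
  rw [mul_smul, ← hs', smul_smul, mul_inv_cancel₀ hc0, one_smul]

private theorem Col2_key [CompleteSpace X] {e : ℂ} {p q f : X →L[ℂ] ℂ} {v a n : X}
    (hv : f v = 0) (ha : f a = 1) : Prp e (ten n f) (ten v p + ten a q) ↔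
      QN (ten n q + ten (e • (p n • v + q n • a)) f) := by
  unfold Prp
  have h1 : f.comp (ten v p + ten a q) = q := by
    ext x
    rw [ContinuousLinearMap.comp_apply, _root_.add_apply, ten_apply, ten_apply, map_add, map_smul,
      map_smul, hv, ha, smul_zero, zero_add, smul_eq_mul, mul_one]
  have h2 : (ten v p + ten a q) n = p n • v + q n • a := by
    rw [_root_.add_apply, ten_apply, ten_apply]
  rw [ten_mul, mul_ten, h1, h2, ten_smul_left]

theorem colfam_nadj [CompleteSpace X] {e : ℂ} (he : Sg e) (h5 : Dim5 X)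
    {ℓ : Set (X →L[ℂ] X)} (hℓ : HLine e ℓ) (h : ColFam ℓ) {A B : X →L[ℂ] X} (hA : A ∈ ℓ)
    (hB : B ∈ ℓ) (hAB : ¬ Par e A B) : NAdj e A B := by
  obtain ⟨f, hf, h⟩ := h
  replace h := col_scal he h5 hℓ hf h
  obtain ⟨a1, n1, ha1, rfl⟩ := h A hA
  obtain ⟨a2, n2, ha2, rfl⟩ := h B hB
  have he0 : e ≠ 0 := by
    rcases he with rfl | rfl
    · exact one_ne_zero
    · exact neg_ne_zero.2 one_ne_zero
  have hn1 : n1 ≠ 0 := by
    rintro rfl
    apply hl_nt hℓ hA
    refine ⟨a1, ha1, ?_⟩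
    have h1 : ten (0 : X) f = 0 := by
      ext v
      simp [ten_apply]
    rw [h1, add_zero]
  have hn2 : ¬ ∃ c : ℂ, n2 = c • n1 := by
    rintro ⟨c, rfl⟩
    exact hAB (Col2_par ha1 ha2 n1 f)
  by_cases hfN : f n1 = 0 ∧ f n2 = 0
  · exact Or.inr ⟨a1, a2, n1, n2, f, ha1, ha2, hfN.1, hfN.2, rfl, rfl⟩
  exfalso
  have m1 : n1 ∈ Submodule.span ℂ {n1, n2} := Submodule.subset_span (by simp)
  have m2 : n2 ∈ Submodule.span ℂ {n1, n2} := Submodule.subset_span (by simp)
  obtain ⟨a, haN, hfa⟩ : ∃ a ∈ Submodule.span ℂ {n1, n2}, f a = 1 := by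
    by_cases h1 : f n1 = 0
    · have h2 : f n2 ≠ 0 := fun h2 => hfN ⟨h1, h2⟩
      exact ⟨(f n2)⁻¹ • n2, Submodule.smul_mem _ _ m2, by
        rw [map_smul, smul_eq_mul, inv_mul_cancel₀ h2]⟩
    · exact ⟨(f n1)⁻¹ • n1, Submodule.smul_mem _ _ m1, by
        rw [map_smul, smul_eq_mul, inv_mul_cancel₀ h1]⟩
  obtain ⟨b, hbN, hfb, hb0⟩ : ∃ b ∈ Submodule.span ℂ {n1, n2}, f b = 0 ∧ b ≠ 0 := by
    refine ⟨f n2 • n1 - f n1 • n2, Submodule.sub_mem _ (Submodule.smul_mem _ _ m1)
      (Submodule.smul_mem _ _ m2), ?_, ?_⟩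
    · rw [map_sub, map_smul, map_smul, smul_eq_mul, smul_eq_mul]
      ring
    · intro h0
      by_cases h1 : f n1 = 0
      · have h2 : f n2 ≠ 0 := fun h2 => hfN ⟨h1, h2⟩
        rw [h1, zero_smul, sub_zero] at h0
        rcases smul_eq_zero.1 h0 with h3 | h3
        · exact h2 h3
        · exact hn1 h3
      · apply hn2
        refine ⟨(f n1)⁻¹ * f n2, ?_⟩
        rw [sub_eq_zero] at h0
        rw [mul_smul, h0, smul_smul, inv_mul_cancel₀ h1, one_smul]
  have hab0 : a + b ≠ 0 := by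
    intro h0
    have h1 : f (a + b) = 0 := by rw [h0, map_zero]
    rw [map_add, hfa, hfb, add_zero] at h1
    exact one_ne_zero h1
  have ha0 : a ≠ 0 := by
    rintro rfl
    rw [map_zero] at hfa
    exact zero_ne_one hfa
  obtain ⟨v, hfv, hv⟩ := Col2_ker h5 hf a b b
  have hv' : v ∉ Submodule.span ℂ {a, b} := by
    intro hc
    apply hv
    refine Submodule.span_mono ?_ hc
    intro z hz
    rcases hz with rfl | hz
    · exact Or.inl rfl
    · exact Or.inr (Or.inl hz)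
  have hv0 : v ≠ 0 := by
    rintro rfl
    exact hv' (Submodule.zero_mem _)
  obtain ⟨p, hp0, hpb⟩ : ∃ p : X →L[ℂ] ℂ, (∀ z ∈ Submodule.span ℂ {a, v}, p z = 0) ∧
      p b = 1 := by
    refine exists_sep_sub (Submodule.fg_span (Set.toFinite _)) ?_
    intro hmem
    obtain ⟨α, β, hαβ⟩ := Submodule.mem_span_pair.1 hmem
    have hα : α = 0 := by
      have h1 : f (α • a + β • v) = 0 := by rw [hαβ, hfb]
      rw [map_add, map_smul, map_smul, hfa, hfv, smul_zero, add_zero, smul_eq_mul, mul_one] at h1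
      exact h1
    rw [hα, zero_smul, zero_add] at hαβ
    have hβ : β ≠ 0 := by
      rintro rfl
      exact hb0 (by rw [← hαβ, zero_smul])
    apply hv'
    have h2 : v = β⁻¹ • b := by rw [← hαβ, smul_smul, inv_mul_cancel₀ hβ, one_smul]
    rw [h2]
    exact Submodule.smul_mem _ _ (Submodule.subset_span (by simp))
  obtain ⟨q, hq0, hqv⟩ := exists_sep_sub
    (Submodule.fg_span (Set.toFinite {a, b})) hv'
  have hpa : p a = 0 := hp0 _ (Submodule.subset_span (by simp))
  have hqa : q a = 0 := hq0 _ (Submodule.subset_span (by simp))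
  have hqb : q b = 0 := hq0 _ (Submodule.subset_span (by simp))
  obtain ⟨α, hα, hA'⟩ := Col2_mem he h5 hℓ hf h hA hB hAB hn1 hn2 haN ha0
  obtain ⟨β, hβ, hB'⟩ := Col2_mem he h5 hℓ hf h hA hB hAB hn1 hn2 hbN hb0
  obtain ⟨γ, hγ, hC'⟩ := Col2_mem he h5 hℓ hf h hA hB hAB hn1 hn2
    (Submodule.add_mem _ haN hbN) hab0
  have hpar : ¬ Par e (α • (1 : X →L[ℂ] X) + ten a f) (β • (1 : X →L[ℂ] X) + ten b f) := by
    rintro ⟨c, s, -, hcs⟩
    have happ : ∀ (b : ℂ) (k z : X), (b • (1 : X →L[ℂ] X) + ten k f) z = b • z + f z • k := by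
      intro b k z
      rw [_root_.add_apply, _root_.smul_apply, ten_apply]
      rfl
    have h1 : ∀ z, β • z + f z • b = c • (α • z + f z • a) + s • z := by
      intro z
      have h2 := congrArg (fun T : X →L[ℂ] X => T z) hcs
      simp only [_root_.add_apply, _root_.smul_apply, ten_apply] at h2
      exact h2
    have h2 := h1 v
    rw [hfv, zero_smul, zero_smul, add_zero, add_zero, smul_smul, ← add_smul] at h2
    have h3 : β = c * α + s := by
      have h4 : (β - (c * α + s)) • v = 0 := by rw [sub_smul, h2, sub_self]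
      rcases smul_eq_zero.1 h4 with h5 | h5
      · exact sub_eq_zero.1 h5
      · exact absurd h5 hv0
    have h4 := h1 a
    rw [hfa, one_smul, one_smul, h3] at h4
    have h6 : b = c • a := by
      have h7 : b = c • (α • a + a) + s • a - (c * α + s) • a := by
        rw [← h4]
        abel
      rw [h7]
      module
    have h8 : c = 0 := by
      have h9 : f (c • a) = 0 := by rw [← h6, hfb]
      rw [map_smul, hfa, smul_eq_mul, mul_one] at h9
      exact h9
    exact hb0 (by rw [h6, h8, zero_smul])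
  have hdep := ((hℓ.gen _ hA' _ hB' hpar _).1 hC').2 (ten v p + ten a q) ?_ ?_
  · rw [Col2_prp hγ, Col2_key hfv hfa] at hdep
    have h1 := (QP.qn_two hdep).2
    simp only [map_add, map_smul, hpa, hpb, hqa, hqb, hqv, hfv, hfa, hfb, smul_eq_mul,
      zero_add, add_zero, mul_zero, one_smul, zero_smul, zero_mul, mul_one] at h1
    apply he0
    linear_combination -h1
  · rw [Col2_prp hα, Col2_key hfv hfa]
    apply qn_of_two
    · simp [hpa, hqa]
    · simp [hpa, hqa]
  · rw [Col2_prp hβ, Col2_key hfv hfa]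
    apply qn_of_two
    · simp [hpb, hqb, hfv]
    · simp [hpb, hqb, hfv, hfb]

end Pool.Agent.H.MP_bb4c62_an.JL
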