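import Pool.Agent.H.MP_bb4c62_an.JL.Flags
import Pool.Agent.H.MP_bb4c62_an.QP.Ext

/-!
# Module JL/Data: the projective data (compare `Main_data` in QP/Main)

`inc`: (⟹) from `flags`. (⟸) `q e' (p e) = 0`: `ten (p e) (q e')` is a nilpotent of rank one in `Y`, so with a partner it is
adjacent to something; `φ A = ten (p e) (q e')`; `Pres.nadj` backwards: `A = s + ten x f` with `f x = 0`; so `p e` is a
multiple of `p x` and `q e'` of `q f` (compare values; `s' + ten = s'' + ten` implies `s' = s''` by `Dim5`). If `e`, `x` are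
not proportional choose `k ≠ 0` with `k e = k x = 0`: `φ (ten e k)` and `φ (ten x k)` are `Par`, a contradiction to
`Pres.par_iff`. So `e ∥ x`, similarly `e' ∥ f`, and `P e e' = 0`. `psurj`, `qsurj` similar. `sep`: `HLine_mem` (QP/HLine),
`mem_span_dual` (helper6/NInst).
-/

namespace Pool.Agent.H.MP_bb4c62_an.JL

open Pool.Agent.H.MP_bb4c62_an.helper6.NL
open Pool.Agent.H.MP_bb4c62_an.helper6.Perturb
open Pool.Agent.H.MP_bb4c62_an.helper6.Gadgets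
open Pool.Agent.H.MP_bb4c62_an.QP (PData PStd ev)

variable {X : Type*} [NormedAddCommGroup X] [NormedSpace ℂ X]
variable {Y : Type*} [NormedAddCommGroup Y] [NormedSpace ℂ Y]

/-- a nilpotent of rank one in `Y` is, modulo scalars, the image of one in `X` -/
theorem Data_pre [CompleteSpace X] [CompleteSpace Y] {e : ℂ} (he : Sg e) (hX : Dim5 X)
    (hY : Dim5 Y) {φ : (X →L[ℂ] X) → (Y →L[ℂ] Y)} (h : Pres e φ) {y : Y} {g : Y →L[ℂ] ℂ}
    (hy : y ≠ 0) (hg : g ≠ 0) (hgy : g y = 0) : ∃ (x : X) (f : X →L[ℂ] ℂ), x ≠ 0 ∧ f ≠ 0 ∧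
      f x = 0 ∧ ∃ c s : ℂ, c ≠ 0 ∧ φ (ten x f) = c • ten y g + s • (1 : Y →L[ℂ] Y) := by
  obtain ⟨g', hg', h1, -, h2⟩ := Flags_fun hY y 0 g
  obtain ⟨A, hA⟩ := h.surj (ten y g)
  obtain ⟨B, hB⟩ := h.surj (ten y g')
  have hA0 : ¬ Triv e A := by
    rw [← h.triv_iff he hX hY, hA]
    exact Flags_triv hY hy hg
  have hB0 : ¬ Triv e B := by
    rw [← h.triv_iff he hX hY, hB]
    exact Flags_triv hY hy hg'
  have hAB : ¬ Par e A B := by
    rw [← h.par_iff he hX hY, hA, hB]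
    exact fun h3 => h2 (Flags_par hY hy hg' h3).2
  have h3 : NAdj e A B := by
    rw [← h.nadj he hX hY hA0 hB0 hAB, hA, hB]
    exact Flags_row_adj hgy h1
  have key : ∀ (a : ℂ) (w : X) (k : X →L[ℂ] ℂ), Sc e a → k w = 0 →
      A = a • (1 : X →L[ℂ] X) + ten w k → ∃ (x : X) (f : X →L[ℂ] ℂ), x ≠ 0 ∧ f ≠ 0 ∧
      f x = 0 ∧ ∃ c s : ℂ, c ≠ 0 ∧ φ (ten x f) = c • ten y g + s • (1 : Y →L[ℂ] Y) := by
    intro a w k ha hk h4
    have h5 : ten w k ≠ 0 := by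
      intro h6
      exact hA0 ⟨a, ha, by rw [h4, h6, add_zero]⟩
    rw [Ne, ten_eq_zero_iff, not_or] at h5
    have h6 : Par e A (ten w k) := by
      refine ⟨1, -a, ?_, ?_⟩
      · rcases ha with ha | ha
        · exact Or.inl ha
        · exact Or.inr (by rw [ha, neg_zero])
      · rw [h4, one_smul, neg_smul]
        abel
    obtain ⟨c, s, -, h7⟩ := (h.par_iff he hX hY A (ten w k)).mpr h6
    rw [hA] at h7
    refine ⟨w, k, h5.1, h5.2, hk, c, s, ?_, h7⟩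
    rintro rfl
    rw [zero_smul, zero_add] at h7
    obtain ⟨s', y', k', hs', hk', hy', hk0, h8⟩ := Flags_image he hX hY h h5.1 h5.2 hk
    rw [h7] at h8
    have h9 : s • (1 : Y →L[ℂ] Y) + ten (0 : Y) k' = s' • (1 : Y →L[ℂ] Y) + ten y' k' := by
      rw [← h8, ten_eq_zero_iff.mpr (Or.inl rfl), add_zero]
    have h10 := (Flags_uniq hY h9).2
    rw [ten_eq_zero_iff.mpr (Or.inl rfl)] at h10
    exact (ten_eq_zero_iff.mp h10.symm).elim hy' hk0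
  rcases h3 with ⟨a, b, w, k, k', ha, hb, hk, hk', h4, h5⟩ |
    ⟨a, b, w, z, k, ha, hb, hk, hk', h4, h5⟩
  · exact key a w k ha hk h4
  · exact key a w k ha hk h4

/-- the data, for the two types at once -/
theorem Data_gen [CompleteSpace X] [CompleteSpace Y] {e : ℂ} (he : Sg e) (hX : Dim5 X)
    (hY : Dim5 Y) {φ : (X →L[ℂ] X) → (Y →L[ℂ] Y)} (h : Pres e φ)
    {E E' : Type*} [AddCommGroup E] [Module ℂ E] [AddCommGroup E'] [Module ℂ E']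
    (P : E →ₗ[ℂ] E' →ₗ[ℂ] ℂ) (R : E → E' → (X →L[ℂ] X))
    (hrank : ∀ (x : X) (f : X →L[ℂ] ℂ), x ≠ 0 → f ≠ 0 → f x = 0 →
      ∃ a a', a ≠ 0 ∧ a' ≠ 0 ∧ P a a' = 0 ∧ ten x f = R a a')
    (hpar : ∀ a b a' b', b ≠ 0 → b' ≠ 0 → Par e (R a a') (R b b') →
      (∃ c : ℂ, b = c • a) ∧ ∃ c : ℂ, b' = c • a')
    (hcom : ∀ a b : E, ∃ k : E', k ≠ 0 ∧ P a k = 0 ∧ P b k = 0)
    (hcom' : ∀ a b : E', ∃ k : E, k ≠ 0 ∧ P k a = 0 ∧ P k b = 0)
    {p : E → Y} {q : E' → (Y →L[ℂ] ℂ)} (hp : ∀ a, a ≠ 0 → p a ≠ 0) (hq : ∀ a, a ≠ 0 → q a ≠ 0)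
    (hpq : ∀ a a', a ≠ 0 → a' ≠ 0 → P a a' = 0 → q a' (p a) = 0 ∧
      ∃ d s : ℂ, d ≠ 0 ∧ Sc e s ∧ φ (R a a') = s • (1 : Y →L[ℂ] Y) + d • ten (p a) (q a'))
    (sep : ∀ x x' z : E, (∀ e', P x e' = 0 → P x' e' = 0 → P z e' = 0) →
      z ∈ Submodule.span ℂ {x, x'}) : PData P p q := by
  -- every nilpotent of rank one is a multiple of some `ten (p a) (q a')`
  have key : ∀ (y : Y) (g : Y →L[ℂ] ℂ), y ≠ 0 → g ≠ 0 → g y = 0 → ∃ a a', a ≠ 0 ∧ a' ≠ 0 ∧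
      P a a' = 0 ∧ (∃ c : ℂ, c ≠ 0 ∧ y = c • p a) ∧ ∃ c : ℂ, c ≠ 0 ∧ g = c • q a' := by
    intro y g hy hg hgy
    obtain ⟨x, f, hx, hf, hxf, c, s, hc, h1⟩ := Data_pre he hX hY h hy hg hgy
    obtain ⟨a, a', ha, ha', hP, h2⟩ := hrank x f hx hf hxf
    obtain ⟨-, d, t, hd, -, h3⟩ := hpq a a' ha ha' hP
    rw [h2, h3] at h1
    have h4 : t • (1 : Y →L[ℂ] Y) + ten (d • p a) (q a') = s • (1 : Y →L[ℂ] Y) + ten (c • y) g := by
      rw [ten_smul_left, ten_smul_left, h1, add_comm]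
    obtain ⟨⟨m, hm, hm'⟩, ⟨n, hn, hn'⟩⟩ := Flags_two (Flags_uniq hY h4).2 (by
      rw [Ne, ten_eq_zero_iff, not_or]
      exact ⟨smul_ne_zero hd (hp a ha), hq a' ha'⟩)
    refine ⟨a, a', ha, ha', hP, ⟨c⁻¹ * (m * d), mul_ne_zero (inv_ne_zero hc) (mul_ne_zero hm hd), ?_⟩,
      ⟨n, hn, hn'⟩⟩
    rw [mul_smul, mul_smul, ← hm', smul_smul, inv_mul_cancel₀ hc, one_smul]
  -- `p` and `q` are injective on lines
  have hpi : ∀ a b, a ≠ 0 → b ≠ 0 → (∃ c : ℂ, c ≠ 0 ∧ p b = c • p a) → ∃ c : ℂ, b = c • a := by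
    rintro a b ha hb ⟨c, hc, h1⟩
    obtain ⟨k, hk, h2, h3⟩ := hcom a b
    obtain ⟨-, d, s, hd, hs, h4⟩ := hpq a k ha hk h2
    obtain ⟨-, d', s', hd', hs', h5⟩ := hpq b k hb hk h3
    have h6 : Par e (φ (R a k)) (φ (R b k)) := by
      refine ⟨d' * c * d⁻¹, s' - d' * c * d⁻¹ * s, ?_, ?_⟩
      · rcases hs with hs | hs
        · exact Or.inl hs
        · rcases hs' with hs' | hs'
          · exact Or.inl hs'
          · exact Or.inr (by rw [hs, hs', mul_zero, sub_zero])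
      · rw [h4, h5, h1, ten_smul_left, smul_add, smul_smul, smul_smul, smul_smul, sub_smul,
          mul_assoc (d' * c) d⁻¹ d, inv_mul_cancel₀ hd, mul_one]
        abel
    exact (hpar a b k k hb hk ((h.par_iff he hX hY _ _).mp h6)).1
  have hqi : ∀ a b, a ≠ 0 → b ≠ 0 → (∃ c : ℂ, c ≠ 0 ∧ q b = c • q a) → ∃ c : ℂ, b = c • a := by
    rintro a b ha hb ⟨c, hc, h1⟩
    obtain ⟨k, hk, h2, h3⟩ := hcom' a b
    obtain ⟨-, d, s, hd, hs, h4⟩ := hpq k a hk ha h2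
    obtain ⟨-, d', s', hd', hs', h5⟩ := hpq k b hk hb h3
    have h6 : Par e (φ (R k a)) (φ (R k b)) := by
      refine ⟨d' * c * d⁻¹, s' - d' * c * d⁻¹ * s, ?_, ?_⟩
      · rcases hs with hs | hs
        · exact Or.inl hs
        · rcases hs' with hs' | hs'
          · exact Or.inl hs'
          · exact Or.inr (by rw [hs, hs', mul_zero, sub_zero])
      · rw [h4, h5, h1, ten_smul_right, smul_add, smul_smul, smul_smul, smul_smul, sub_smul,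
          mul_assoc (d' * c) d⁻¹ d, inv_mul_cancel₀ hd, mul_one]
        abel
    exact (hpar k k a b hk hb ((h.par_iff he hX hY _ _).mp h6)).2
  refine ⟨hp, hq, ?_, ?_, ?_, sep⟩
  · intro a a' ha ha'
    constructor
    · intro hP
      exact (hpq a a' ha ha' hP).1
    · intro h1
      obtain ⟨b, b', hb, hb', hP, h2, h3⟩ := key (p a) (q a') (hp a ha) (hq a' ha') h1
      obtain ⟨c, hc⟩ := hpi b a hb ha h2
      obtain ⟨d, hd⟩ := hqi b' a' hb' ha' h3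
      rw [hc, hd, map_smul, map_smul, LinearMap.smul_apply, hP, smul_zero, smul_zero]
  · intro y hy
    obtain ⟨g, hg, h1, -, -⟩ := Flags_fun hY y 0 0
    obtain ⟨a, a', ha, -, -, ⟨c, -, hc⟩, -⟩ := key y g hy hg h1
    exact ⟨a, ha, c, hc⟩
  · intro g hg
    obtain ⟨y, hy, h1, -, -⟩ := Flags_vec hY g g 0
    obtain ⟨a, a', -, ha', -, -, ⟨c, -, hc⟩⟩ := key y g hy hg h1
    exact ⟨a', ha', c, hc⟩

theorem data_one [CompleteSpace X] [CompleteSpace Y] {e : ℂ} (he : Sg e) (hX : Dim5 X)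
    (hY : Dim5 Y) {φ : (X →L[ℂ] X) → (Y →L[ℂ] Y)} (h : Pres e φ)
    {p : X → Y} {q : (X →L[ℂ] ℂ) → (Y →L[ℂ] ℂ)} (hp : ∀ x, x ≠ 0 → p x ≠ 0)
    (hq : ∀ f, f ≠ 0 → q f ≠ 0) (hpq : ∀ x f, x ≠ 0 → f ≠ 0 → f x = 0 → q f (p x) = 0 ∧
        ∃ d s : ℂ, d ≠ 0 ∧ Sc e s ∧
          φ (ten x f) = s • (1 : Y →L[ℂ] Y) + d • ten (p x) (q f)) : PData (ev X) p q :=
  Data_gen he hX hY h (ev X) (fun x f => ten x f)
    (fun x f hx hf hxf => ⟨x, f, hx, hf, hxf, rfl⟩)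
    (fun a b a' b' hb hb' hp => Flags_par hX hb hb' hp)
    (fun a b => by
      obtain ⟨g, hg, h2, h3, -⟩ := Flags_fun hX a b 0
      exact ⟨g, hg, h2, h3⟩)
    (fun a b => by
      obtain ⟨z, hz, h2, h3, -⟩ := Flags_vec hX a b 0
      exact ⟨z, hz, h2, h3⟩)
    hp hq (fun a a' ha ha' hP => hpq a a' ha ha' hP)
    (fun x x' z hz => QP.HLine_mem fun g h1 h2 => hz g h1 h2)

theorem data_two [CompleteSpace X] [CompleteSpace Y] {e : ℂ} (he : Sg e) (hX : Dim5 X)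
    (hY : Dim5 Y) {φ : (X →L[ℂ] X) → (Y →L[ℂ] Y)} (h : Pres e φ)
    {p : (X →L[ℂ] ℂ) → Y} {q : X → (Y →L[ℂ] ℂ)} (hp : ∀ f, f ≠ 0 → p f ≠ 0)
    (hq : ∀ x, x ≠ 0 → q x ≠ 0) (hpq : ∀ x f, x ≠ 0 → f ≠ 0 → f x = 0 → q x (p f) = 0 ∧
        ∃ d s : ℂ, d ≠ 0 ∧ Sc e s ∧
          φ (ten x f) = s • (1 : Y →L[ℂ] Y) + d • ten (p f) (q x)) :
    PData (ev X).flip p q :=
  Data_gen he hX hY h (ev X).flip (fun f x => ten x f)
    (fun x f hx hf hxf => ⟨f, x, hf, hx, hxf, rfl⟩)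
    (fun a b a' b' hb hb' hp => (Flags_par hX hb' hb hp).symm)
    (fun a b => by
      obtain ⟨z, hz, h2, h3, -⟩ := Flags_vec hX a b 0
      exact ⟨z, hz, h2, h3⟩)
    (fun a b => by
      obtain ⟨g, hg, h2, h3, -⟩ := Flags_fun hX a b 0
      exact ⟨g, hg, h2, h3⟩)
    hp hq (fun a a' ha ha' hP => hpq a' a ha' ha hP)
    (fun f f' g hz => by
      obtain ⟨a, b, rfl⟩ := mem_span_dual (f := f) (f' := f') (h := g) fun x h1 h2 => hz x h1 h2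
      exact Submodule.add_mem _ (Submodule.smul_mem _ _ (Submodule.subset_span (by simp)))
        (Submodule.smul_mem _ _ (Submodule.subset_span (by simp))))

end Pool.Agent.H.MP_bb4c62_an.JL
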