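import Pool.Agent.H.MP_bb4c62_an.QP.Basic

/-!
# Module JL/Defs: quasinilpotent Jordan products (`e = 1`) and Lie products (`e = -1`)

`Prp e T S`: `T S + e S T` is quasinilpotent. All notions are modulo scalar operators for the Lie product
(`Sc e s`: `e = -1` or `s = 0`).
-/

namespace Pool.Agent.H.MP_bb4c62_an.JL

open Pool.Agent.H.MP_bb4c62_an.helper6.NL
open Pool.Agent.H.MP_bb4c62_an.helper6.Perturb
open Pool.Agent.H.MP_bb4c62_an.helper6.Gadgets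

variable {X : Type*} [NormedAddCommGroup X] [NormedSpace ℂ X]
variable {Y : Type*} [NormedAddCommGroup Y] [NormedSpace ℂ Y]

/-- the two signs -/
def Sg (e : ℂ) : Prop := e = 1 ∨ e = -1

/-- `T S + e S T` is quasinilpotent -/
def Prp (e : ℂ) (T S : X →L[ℂ] X) : Prop := QN (T * S + e • (S * T))

/-- admissible scalars: all for the Lie product, only `0` for the Jordan product -/
def Sc (e s : ℂ) : Prop := e = -1 ∨ s = 0

/-- `S` is a multiple of `T`, modulo admissible scalars -/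
def Par (e : ℂ) (T S : X →L[ℂ] X) : Prop :=
  ∃ c s : ℂ, Sc e s ∧ S = c • T + s • (1 : X →L[ℂ] X)

/-- `T` is an admissible scalar -/
def Triv (e : ℂ) (T : X →L[ℂ] X) : Prop := ∃ s : ℂ, Sc e s ∧ T = s • (1 : X →L[ℂ] X)

/-- `C` depends on `A` and `B` -/
def Dep (e : ℂ) (A B C : X →L[ℂ] X) : Prop := ∀ S, Prp e A S → Prp e B S → Prp e C S

/-- sets generated by any two independent members, and meeting all `{T | Prp e T S}` -/
structure HLine (e : ℂ) (ℓ : Set (X →L[ℂ] X)) : Prop where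
  two : ∃ A ∈ ℓ, ∃ B ∈ ℓ, ¬ Par e A B
  gen : ∀ A ∈ ℓ, ∀ B ∈ ℓ, ¬ Par e A B → ∀ C, C ∈ ℓ ↔ ¬ Triv e C ∧ Dep e A B C
  meet : ∀ S, ∃ U ∈ ℓ, Prp e U S

/-- `A` and `B` are nilpotent of rank at most one with common range or with common kernel, modulo
admissible scalars -/
def NAdj (e : ℂ) (A B : X →L[ℂ] X) : Prop :=
  (∃ (a b : ℂ) (w : X) (f g : X →L[ℂ] ℂ), Sc e a ∧ Sc e b ∧ f w = 0 ∧ g w = 0 ∧
    A = a • (1 : X →L[ℂ] X) + ten w f ∧ B = b • (1 : X →L[ℂ] X) + ten w g) ∨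
  (∃ (a b : ℂ) (w z : X) (f : X →L[ℂ] ℂ), Sc e a ∧ Sc e b ∧ f w = 0 ∧ f z = 0 ∧
    A = a • (1 : X →L[ℂ] X) + ten w f ∧ B = b • (1 : X →L[ℂ] X) + ten z f)

/-- all members of `ℓ` are scalar plus rank one with a common kernel -/
def ColFam (ℓ : Set (X →L[ℂ] X)) : Prop :=
  ∃ f : X →L[ℂ] ℂ, f ≠ 0 ∧ ∀ U ∈ ℓ, ∃ (a : ℂ) (n : X), U = a • (1 : X →L[ℂ] X) + ten n f

/-- all members of `ℓ` are scalar plus rank one with a common range -/
def RowFam (ℓ : Set (X →L[ℂ] X)) : Prop :=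
  ∃ w : X, w ≠ 0 ∧ ∀ U ∈ ℓ, ∃ (a : ℂ) (f : X →L[ℂ] ℂ), U = a • (1 : X →L[ℂ] X) + ten w f

/-- dimension at least five -/
def Dim5 (E : Type*) [AddCommGroup E] [Module ℂ E] : Prop :=
  ∃ v : Fin 5 → E, LinearIndependent ℂ v

/-- surjective maps which preserve the relation `Prp e` in both directions -/
structure Pres (e : ℂ) (φ : (X →L[ℂ] X) → (Y →L[ℂ] Y)) : Prop where
  surj : Function.Surjective φ
  iff : ∀ T S, Prp e (φ T) (φ S) ↔ Prp e T S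

/-- the description: `φ T = c S T S⁻¹ + d` or `φ T = c S T* S⁻¹ + d`, with `d = 0` for `e = 1` -/
def Form (e : ℂ) (φ : (X →L[ℂ] X) → (Y →L[ℂ] Y)) : Prop :=
  ∃ c d : (X →L[ℂ] X) → ℂ, (∀ T, c T ≠ 0) ∧ (∀ T, Sc e (d T)) ∧
    ((∃ (τ : ℂ ≃+* ℂ) (S : X ≃+ Y), Adm τ S ∧
        ∀ (T : X →L[ℂ] X) (x : X), φ T (S x) = c T • S (T x) + d T • S x) ∨
      (∃ (τ : ℂ ≃+* ℂ) (S : (X →L[ℂ] ℂ) ≃+ Y), Adm τ S ∧
        ∀ (T : X →L[ℂ] X) (f : X →L[ℂ] ℂ), φ T (S f) = c T • S (f.comp T) + d T • S f))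

end Pool.Agent.H.MP_bb4c62_an.JL
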