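import Pool.Agent.H.MP_bb4c62_an.JL.Lld
import Pool.Agent.H.MP_bb4c62_an.QP.Ext

/-!
# Module JL/Ext0: extension to all operators from the isotropic pairs

Let `B e = S⁻¹ (T' (S e))` (linear, see `ext_op` in QP/Ext). If `P e e' = 0` and `P (T e) e' = 0` then
`Q e' (S (B e)) = 0`, i.e. `τ (P (B e) e') = 0`. By `sep` (with `e`, `T e`, `B e`): `B e ∈ span {e, T e}`. `lld`:
`B = c T + s`; `T' (S e) = τ c • S (T e) + τ s • S e`. If `c = 0`: for all `P e e' = 0`: `Q e' (T' (S e)) = τ s * τ (P e e') = 0`,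
so `P (T e) e' = 0`; `sep` with `e`, `e`, `T e`: `T e ∈ ℂ e` for all `e`; `mul_of_local`: `T = a`.
-/

namespace Pool.Agent.H.MP_bb4c62_an.JL

open Pool.Agent.H.MP_bb4c62_an.helper6.NL
open Pool.Agent.H.MP_bb4c62_an.helper6.Perturb
open Pool.Agent.H.MP_bb4c62_an.helper6.Gadgets
open Pool.Agent.H.MP_bb4c62_an.QP

variable {Y : Type*} [NormedAddCommGroup Y] [NormedSpace ℂ Y]
variable {E E' : Type*} [AddCommGroup E] [Module ℂ E] [AddCommGroup E'] [Module ℂ E']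
variable {P : E →ₗ[ℂ] E' →ₗ[ℂ] ℂ} {p : E → Y} {q : E' → (Y →L[ℂ] ℂ)}

theorem ext_iso (D : PData P p q) (h5 : Dim5 E) {τ : ℂ ≃+* ℂ} {S : E ≃+ Y}
    {Q : E' → (Y →L[ℂ] ℂ)} (hS : PStd P p q τ S Q) (T : E →ₗ[ℂ] E) (T' : Y →L[ℂ] Y)
    (h : ∀ e e', P e e' = 0 → (P (T e) e' = 0 ↔ Q e' (T' (S e)) = 0)) :
    ∃ c s : ℂ, (c = 0 → ∃ a : ℂ, ∀ e, T e = a • e) ∧
      ∀ e, T' (S e) = c • S (T e) + s • S e := by
  let B : E →ₗ[ℂ] E :=
    { toFun := fun e => S.symm (T' (S e))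
      map_add' := fun a b => by rw [map_add, map_add, map_add]
      map_smul' := fun c e => by
        apply S.injective
        rw [RingHom.id_apply, S.apply_symm_apply, hS.semi c e, hS.semi c (S.symm (T' (S e))),
          S.apply_symm_apply, map_smul] }
  have hB : ∀ e, S (B e) = T' (S e) := fun e => S.apply_symm_apply _
  have hloc : ∀ e, ∃ a b : ℂ, B e = a • e + b • T e := by
    intro e
    have h1 := D.sep e (T e) (B e) (fun e' h1 h2 => by
      have h3 := (h e e' h1).1 h2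
      rw [← hB, hS.pair] at h3
      exact τ.injective (by rw [h3, map_zero]))
    obtain ⟨a, b, hab⟩ := Submodule.mem_span_pair.1 h1
    exact ⟨a, b, hab.symm⟩
  obtain ⟨c, s, hcs⟩ := lld h5 T B hloc
  have hT' : ∀ e, T' (S e) = τ c • S (T e) + τ s • S e := by
    intro e
    rw [← hB, hcs e, map_add, hS.semi, hS.semi]
  refine ⟨τ c, τ s, fun hc => ?_, hT'⟩
  have h1 : ∀ e, ∃ a : ℂ, T e = a • (LinearMap.id : E →ₗ[ℂ] E) e := by
    intro e
    have h2 := D.sep e e (T e) (fun e' h2 _ => by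
      refine (h e e' h2).2 ?_
      rw [hT' e, hc, zero_smul, zero_add, map_smul, hS.pair, h2, map_zero, smul_zero])
    rw [Set.pair_eq_singleton, Submodule.mem_span_singleton] at h2
    obtain ⟨a, ha⟩ := h2
    exact ⟨a, ha.symm⟩
  obtain ⟨a, ha⟩ := mul_of_local (LinearMap.id : E →ₗ[ℂ] E) T h1
  exact ⟨a, fun e => ha e⟩

end Pool.Agent.H.MP_bb4c62_an.JL
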