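import Pool.Agent.H.MP_bb4c62_an.JL.Basic

/-!
# Module JL/FamA: proportionality

`par_symm`: if `Par e A B` (`B = c A + s`) and `B` is not trivial then `c ≠ 0`. `par_dep`: `prp_smul`, `prp_add`.
`hl_nt`: `gen` applied to a pair of `two`. `not_par_of_li`: `B y = c A y + s y`.
-/

namespace Pool.Agent.H.MP_bb4c62_an.JL

open Pool.Agent.H.MP_bb4c62_an.helper6.NL
open Pool.Agent.H.MP_bb4c62_an.helper6.Perturb
open Pool.Agent.H.MP_bb4c62_an.helper6.Gadgets

variable {X : Type*} [NormedAddCommGroup X] [NormedSpace ℂ X]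

theorem par_refl (e : ℂ) (A : X →L[ℂ] X) : Par e A A := by
  exact ⟨1, 0, Or.inr rfl, by simp⟩

theorem par_symm {e : ℂ} {A B : X →L[ℂ] X} (hB : ¬ Triv e B) (h : Par e A B) : Par e B A := by
  obtain ⟨c, s, hs, rfl⟩ := h
  have hc : c ≠ 0 := by
    rintro rfl
    exact hB ⟨s, hs, by simp⟩
  refine ⟨c⁻¹, -(c⁻¹ * s), ?_, ?_⟩
  · rcases hs with h | rfl
    · exact Or.inl h
    · exact Or.inr (by simp)
  · rw [smul_add, smul_smul, smul_smul, inv_mul_cancel₀ hc, one_smul, neg_smul,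
      add_neg_cancel_right]

theorem par_trans {e : ℂ} {A B C : X →L[ℂ] X} (h : Par e A B) (h' : Par e B C) : Par e A C := by
  obtain ⟨c, s, hs, rfl⟩ := h
  obtain ⟨c', s', hs', rfl⟩ := h'
  refine ⟨c' * c, c' * s + s', ?_, ?_⟩
  · rcases hs with h | rfl
    · exact Or.inl h
    · rcases hs' with h | rfl
      · exact Or.inl h
      · exact Or.inr (by simp)
  · rw [smul_add, smul_smul, smul_smul, add_smul, add_assoc]

theorem par_dep [CompleteSpace X] {e : ℂ} {A B : X →L[ℂ] X} (h : Par e A B) {S : X →L[ℂ] X}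
    (hS : Prp e A S) : Prp e B S := by
  obtain ⟨c, s, hs, rfl⟩ := h
  exact (prp_add hs).2 (prp_smul hS c)

/-- independent values exclude proportionality -/
theorem not_par_of_li {e : ℂ} {A B : X →L[ℂ] X} {y : X}
    (hy : LinearIndependent ℂ ![y, A y, B y]) : ¬ Par e A B := by
  rintro ⟨c, s, -, rfl⟩
  have h1 := Fintype.linearIndependent_iff.1 hy ![-s, -c, 1] (by
    rw [Fin.sum_univ_three]
    simp only [Matrix.cons_val_zero, Matrix.cons_val_one, Matrix.cons_val]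
    show -s • y + -c • A y + (1 : ℂ) • (c • A y + s • y) = 0
    rw [one_smul, neg_smul, neg_smul]
    abel) 2
  simp at h1

theorem hl_nt [CompleteSpace X] {e : ℂ} {ℓ : Set (X →L[ℂ] X)} (hℓ : HLine e ℓ)
    {U : X →L[ℂ] X} (hU : U ∈ ℓ) : ¬ Triv e U := by
  obtain ⟨A, hA, B, hB, hAB⟩ := hℓ.two
  exact ((hℓ.gen A hA B hB hAB U).1 hU).1

end Pool.Agent.H.MP_bb4c62_an.JL
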