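import Pool.Agent.H.MP_bb4c62_an.JL.CaseA4
import Pool.Agent.H.MP_bb4c62_an.JL.CaseB2
import Pool.Agent.H.MP_bb4c62_an.JL.Col2
import Pool.Agent.H.MP_bb4c62_an.JL.Row2

/-!
# Module JL/HMain: H-lines consist of adjacent nilpotents of rank one
-/

namespace Pool.Agent.H.MP_bb4c62_an.JL

open Pool.Agent.H.MP_bb4c62_an.helper6.NL
open Pool.Agent.H.MP_bb4c62_an.helper6.Perturb
open Pool.Agent.H.MP_bb4c62_an.helper6.Gadgets

variable {X : Type*} [NormedAddCommGroup X] [NormedSpace ℂ X]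

theorem hline_nadj [CompleteSpace X] {e : ℂ} (he : Sg e) (h5 : Dim5 X)
    {ℓ : Set (X →L[ℂ] X)} (hℓ : HLine e ℓ) {A B : X →L[ℂ] X} (hA : A ∈ ℓ)
    (hB : B ∈ ℓ) (hAB : ¬ Par e A B) : NAdj e A B := by
  by_cases h : ∃ y, LinearIndependent ℂ ![y, A y, B y]
  · obtain ⟨y, hy⟩ := h
    exact colfam_nadj he h5 hℓ (caseA he h5 hℓ hA hB hy) hA hB hAB
  · push Not at h
    exact rowfam_nadj he h5 hℓ (caseB he h5 hℓ hA hB hAB h) hA hB hAB

end Pool.Agent.H.MP_bb4c62_an.JL
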