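import Pool.Agent.H.MP_bb4c62_an.JL.JTest

/-!
# Module JL/JFin (Jordan product): the scalars vanish

`θ T = c T + s`, `c ≠ 0` unless `T` is a scalar, and `Prp 1 (θ T) (θ R) ↔ Prp 1 T R`.
(1) `P = ten x f` with `f x = 1` (any such `x, f`): `θ P = c P + s` has `s = 0`. Choose `y, g` with `f y = 0`, `g x = 0`, `g y = 1` and
`Q = ten y g`: `P Q = Q P = 0`, so `Prp 1 P Q`, `K = θ P θ Q + θ Q θ P` is quasinilpotent, `θ Q = c' Q + s'`. Let `z ≠ 0`
with `f z = g z = 0` (`Dim5`): `K z = 2 s s' z`, `K x = 2 s' (c + s) x`, `K y = 2 s (c' + s') y`. `qn_eig`: all three are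
`0`. If `s ≠ 0` then `s' = 0`, `c' = 0`, a contradiction (`Q` is not a scalar).
(2) `R` not a scalar with `R z = 0`, `z ≠ 0`: `θ R = c R + s` has `s = 0`: `f` with `f z = 1`, `P = ten z f`:
`R P + P R = ten z (f ∘ R)` with `f (R z) = 0`: `Prp 1 R P`; so `K = θ R θ P + θ P θ R` is quasinilpotent, `θ P = c' P`,
`c' ≠ 0`; `K = c' • (c • ten z (f ∘ R) + 2 s • ten z f)`, `K z = 2 c' s z`, so `s = 0`.
(3) `T` not a scalar: `jordan_test` gives `R` with `Prp 1 T R`; by (2) `θ R = c' R`, `c' ≠ 0`; `Prp 1 (c T + s) (c' R)`, so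
`Prp 1 (c T + s) R` (`prp_symm`, `prp_smul`), `s = 0`.
(4) `T = t` scalar: `θ T = u` scalar, `θ 1 = u1`. `Prp 1 1 1` is false (`qn_eig`), so `u1 ≠ 0`. `t = 0`: `Prp 1 0 1`, so
`2 u u1` is quasinilpotent, `u = 0`, take `c = 1`. `t ≠ 0`: `Prp 1 t 1` is false, so `u ≠ 0`, `θ T = (u / t) T`.
-/

namespace Pool.Agent.H.MP_bb4c62_an.JL

open Pool.Agent.H.MP_bb4c62_an.helper6.NL
open Pool.Agent.H.MP_bb4c62_an.helper6.Perturb
open Pool.Agent.H.MP_bb4c62_an.helper6.Gadgets

variable {X : Type*} [NormedAddCommGroup X] [NormedSpace ℂ X]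

/-- common eigenvectors -/
theorem JFin_prp [CompleteSpace X] {A B : X →L[ℂ] X} (h : Prp 1 A B) {v : X} (hv : v ≠ 0)
    {a b : ℂ} (ha : A v = a • v) (hb : B v = b • v) : a * b = 0 := by
  have h1 : (A * B + (1 : ℂ) • (B * A)) v = (2 * (a * b)) • v := by
    show A (B v) + (1 : ℂ) • B (A v) = _
    rw [hb, ha, map_smul, map_smul, ha, hb]
    module
  have h2 := qn_eig h hv h1
  exact (mul_eq_zero.1 h2).resolve_left two_ne_zero

theorem JFin_zero [CompleteSpace X] (B : X →L[ℂ] X) : Prp 1 0 B := by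
  show QN (0 * B + (1 : ℂ) • (B * 0))
  rw [zero_mul, mul_zero, smul_zero, add_zero]
  exact qn_zero

/-- a dual pair beside a given one -/
theorem JFin_dual (h5 : Dim5 X) {x : X} {f : X →L[ℂ] ℂ} (hf : f x = 1) :
    ∃ (y : X) (g : X →L[ℂ] ℂ), f y = 0 ∧ g x = 0 ∧ g y = 1 := by
  obtain ⟨u, hu⟩ := exists_notMem4 h5 x x x x
  have hfy : f (u - f u • x) = 0 := by
    rw [map_sub, map_smul, hf, smul_eq_mul, mul_one, sub_self]
  have hy : u - f u • x ≠ 0 := by
    intro h
    refine hu ?_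
    rw [sub_eq_zero.1 h]
    exact Submodule.smul_mem _ _ (Submodule.subset_span (by simp))
  have hli : LinearIndependent ℂ ![x, u - f u • x] := by
    rw [LinearIndependent.pair_iff]
    intro a b hab
    have h1 : f (a • x + b • (u - f u • x)) = 0 := by rw [hab, map_zero]
    rw [map_add, map_smul, map_smul, hf, hfy, smul_eq_mul, mul_one, smul_zero, add_zero] at h1
    refine ⟨h1, ?_⟩
    rw [h1, zero_smul, zero_add] at hab
    exact (smul_eq_zero.1 hab).resolve_right hy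
  obtain ⟨g, hg⟩ := exists_dual hli ![0, 1]
  exact ⟨_, g, hfy, hg 0, hg 1⟩

/-- a vector in both kernels -/
theorem JFin_ker (h5 : Dim5 X) {x y : X} {f g : X →L[ℂ] ℂ} (h1 : f x = 1) (h2 : f y = 0)
    (h3 : g x = 0) (h4 : g y = 1) : ∃ z : X, z ≠ 0 ∧ f z = 0 ∧ g z = 0 := by
  obtain ⟨w, hw, h⟩ := exists_ker_notMem h5 x y
    ((ten x f + ten y g : X →L[ℂ] X) : X →ₗ[ℂ] X) (fun z => by
      show f z • x + g z • y ∈ _
      exact Submodule.add_mem _ (Submodule.smul_mem _ _ (Submodule.subset_span (by simp)))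
        (Submodule.smul_mem _ _ (Submodule.subset_span (by simp))))
  have h' : f w • x + g w • y = 0 := h
  refine ⟨w, ?_, ?_, ?_⟩
  · rintro rfl
    exact hw (Submodule.zero_mem _)
  · have := congrArg f h'
    rwa [map_add, map_smul, map_smul, h1, h2, smul_eq_mul, mul_one, smul_zero, add_zero,
      map_zero] at this
  · have := congrArg g h'
    rwa [map_add, map_smul, map_smul, h3, h4, smul_zero, smul_eq_mul, mul_one, zero_add,
      map_zero] at this

theorem JFin_ten_not (h5 : Dim5 X) {x : X} {f : X →L[ℂ] ℂ} (hf : f x = 1) :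
    ¬ ∃ a : ℂ, ten x f = a • (1 : X →L[ℂ] X) := by
  rintro ⟨a, ha⟩
  obtain ⟨y, g, h1, h2, h3⟩ := JFin_dual h5 hf
  have h4 : f y • x = a • y := congrArg (fun U : X →L[ℂ] X => U y) ha
  have h5 : f x • x = a • x := congrArg (fun U : X →L[ℂ] X => U x) ha
  have h6 := congrArg g h4
  rw [h1, zero_smul, map_zero, map_smul, h3, smul_eq_mul, mul_one] at h6
  have h7 := congrArg f h5
  rw [← h6, hf, zero_smul, map_zero, one_smul, hf] at h7
  exact one_ne_zero h7

theorem theta_zero [CompleteSpace X] (h5 : Dim5 X) (θ : (X →L[ℂ] X) → (X →L[ℂ] X))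
    (hθ : ∀ T, ∃ c s : ℂ, (c = 0 → ∃ a : ℂ, T = a • (1 : X →L[ℂ] X)) ∧
      θ T = c • T + s • (1 : X →L[ℂ] X))
    (h : ∀ T R, Prp 1 (θ T) (θ R) ↔ Prp 1 T R) : ∀ T, ∃ c : ℂ, c ≠ 0 ∧ θ T = c • T := by
  have hsg : Sg (1 : ℂ) := Or.inl rfl
  -- (1) idempotents of rank one
  have st1 : ∀ (x : X) (f : X →L[ℂ] ℂ), f x = 1 → ∃ c : ℂ, c ≠ 0 ∧ θ (ten x f) = c • ten x f := by
    intro x f hf
    obtain ⟨y, g, h1, h2, h3⟩ := JFin_dual h5 hf
    obtain ⟨z, hz, h4, h6⟩ := JFin_ker h5 hf h1 h2 h3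
    obtain ⟨c, s, hc, hP⟩ := hθ (ten x f)
    obtain ⟨c', s', hc', hQ⟩ := hθ (ten y g)
    have hx0 : x ≠ 0 := by
      rintro rfl
      rw [map_zero] at hf
      exact zero_ne_one hf
    have hy0 : y ≠ 0 := by
      rintro rfl
      rw [map_zero] at h3
      exact zero_ne_one h3
    have hPQ : Prp 1 (ten x f) (ten y g) := by
      show QN (ten x f * ten y g + (1 : ℂ) • (ten y g * ten x f))
      have e : ten x f * ten y g + (1 : ℂ) • (ten y g * ten x f) = 0 := by
        ext v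
        show f (g v • y) • x + (1 : ℂ) • (g (f v • x) • y) = 0
        rw [map_smul, map_smul, h1, h2, smul_zero, smul_zero, zero_smul, zero_smul, smul_zero,
          add_zero]
      rw [e]
      exact qn_zero
    have hK := (h _ _).2 hPQ
    have hPv : ∀ v, θ (ten x f) v = c • (f v • x) + s • v := fun v => by rw [hP]; rfl
    have hQv : ∀ v, θ (ten y g) v = c' • (g v • y) + s' • v := fun v => by rw [hQ]; rfl
    have e1 := JFin_prp hK hz (a := s) (b := s')
      (by rw [hPv, h4, zero_smul, smul_zero, zero_add])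
      (by rw [hQv, h6, zero_smul, smul_zero, zero_add])
    have e3 := JFin_prp hK hy0 (a := s) (b := c' + s')
      (by rw [hPv, h1, zero_smul, smul_zero, zero_add])
      (by rw [hQv, h3, one_smul, add_smul])
    have hs : s = 0 := by
      by_contra hs
      have e4 : s' = 0 := (mul_eq_zero.1 e1).resolve_left hs
      have e5 : c' = 0 := by
        have := (mul_eq_zero.1 e3).resolve_left hs
        rwa [e4, add_zero] at this
      exact JFin_ten_not h5 h3 (hc' e5)
    refine ⟨c, fun h0 => JFin_ten_not h5 hf (hc h0), ?_⟩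
    rw [hP, hs, zero_smul, add_zero]
  -- (2) operators with a kernel
  have st2 : ∀ R : X →L[ℂ] X, (¬ ∃ a : ℂ, R = a • (1 : X →L[ℂ] X)) → (∃ z, z ≠ 0 ∧ R z = 0) →
      ∃ c : ℂ, c ≠ 0 ∧ θ R = c • R := by
    rintro R hR ⟨z, hz, hRz⟩
    obtain ⟨f, hf⟩ := exists_dual (v := ![z]) (LinearIndependent.of_subsingleton 0 hz) ![1]
    have hf1 : f z = 1 := hf 0
    obtain ⟨c, s, hc, hθR⟩ := hθ R
    obtain ⟨c', hc', hθP⟩ := st1 z f hf1
    have hRP : Prp 1 R (ten z f) := by
      show QN (R * ten z f + (1 : ℂ) • (ten z f * R))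
      have e : R * ten z f + (1 : ℂ) • (ten z f * R) = ten z (f.comp R) := by
        ext v
        show R (f v • z) + (1 : ℂ) • (f (R v) • z) = f (R v) • z
        rw [map_smul, hRz, smul_zero, zero_add, one_smul]
      rw [e]
      refine QP.qn_ten_iff.2 ?_
      show f (R z) = 0
      rw [hRz, map_zero]
    have hK := (h _ _).2 hRP
    have e1 := JFin_prp hK hz (a := s) (b := c')
      (by
        rw [hθR]
        show c • R z + s • z = s • z
        rw [hRz, smul_zero, zero_add])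
      (by
        rw [hθP]
        show c' • (f z • z) = c' • z
        rw [hf1, one_smul])
    have hs : s = 0 := (mul_eq_zero.1 e1).resolve_right hc'
    refine ⟨c, fun h0 => hR (hc h0), ?_⟩
    rw [hθR, hs, zero_smul, add_zero]
  intro T
  by_cases hT : ∃ a : ℂ, T = a • (1 : X →L[ℂ] X)
  · -- (4) scalars
    obtain ⟨v, hv⟩ : ∃ v : X, v ≠ 0 := by
      obtain ⟨w, hw⟩ := h5
      exact ⟨w 0, hw.ne_zero 0⟩
    have hsc : ∀ t : ℂ, ∃ u : ℂ, θ (t • (1 : X →L[ℂ] X)) = u • (1 : X →L[ℂ] X) := by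
      intro t
      obtain ⟨c, s, -, hc⟩ := hθ (t • (1 : X →L[ℂ] X))
      exact ⟨c * t + s, by rw [hc, smul_smul, ← add_smul]⟩
    have hap : ∀ u : ℂ, (u • (1 : X →L[ℂ] X)) v = u • v := fun u => rfl
    obtain ⟨t, rfl⟩ := hT
    obtain ⟨u, hu⟩ := hsc t
    obtain ⟨u1, hu1⟩ := hsc 1
    have h11 : ∀ t : ℂ, t ≠ 0 → ¬ Prp 1 (t • (1 : X →L[ℂ] X)) ((1 : ℂ) • (1 : X →L[ℂ] X)) := by
      intro t ht hP
      have := JFin_prp hP hv (hap t) (hap 1)
      rw [mul_one] at this
      exact ht this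
    have hu0 : u1 ≠ 0 := by
      intro h0
      refine h11 1 one_ne_zero ((h _ _).1 ?_)
      rw [hu1, h0, zero_smul]
      exact JFin_zero _
    by_cases ht : t = 0
    · subst ht
      have hP : Prp 1 ((0 : ℂ) • (1 : X →L[ℂ] X)) ((1 : ℂ) • (1 : X →L[ℂ] X)) := by
        rw [zero_smul]
        exact JFin_zero _
      have hK := (h _ _).2 hP
      rw [hu, hu1] at hK
      have e1 := JFin_prp hK hv (hap u) (hap u1)
      have e2 : u = 0 := (mul_eq_zero.1 e1).resolve_right hu0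
      refine ⟨1, one_ne_zero, ?_⟩
      rw [hu, e2, one_smul]
    · have hu' : u ≠ 0 := by
        intro h0
        refine h11 t ht ((h _ _).1 ?_)
        rw [hu, h0, zero_smul]
        exact JFin_zero _
      refine ⟨u / t, div_ne_zero hu' ht, ?_⟩
      rw [hu, smul_smul, div_mul_cancel₀ u ht]
  · -- (3) the general case
    obtain ⟨R, h1, h2, ⟨y, hy⟩, h3⟩ := jordan_test h5 (exists_li_of_not_scalar hT)
    have hR : ¬ ∃ a : ℂ, R = a • (1 : X →L[ℂ] X) := by
      rintro ⟨a, ha⟩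
      have h4 := LinearIndependent.pair_iff.1 hy a (-1) (by
        rw [ha]
        show a • y + (-1 : ℂ) • (a • y) = 0
        module)
      exact absurd h4.2 (by norm_num)
    obtain ⟨c', hc', hθR⟩ := st2 R hR h2
    obtain ⟨c, s, hc, hθT⟩ := hθ T
    have hK := (h _ _).2 h1
    rw [hθT, hθR, prp_symm hsg] at hK
    have hK2 := prp_smul hK c'⁻¹
    rw [smul_smul, inv_mul_cancel₀ hc', one_smul, prp_symm hsg] at hK2
    have hs := h3 c s hK2
    refine ⟨c, fun h0 => hT (hc h0), ?_⟩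
    rw [hθT, hs, zero_smul, add_zero]

end Pool.Agent.H.MP_bb4c62_an.JL
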