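import Pool.Agent.H.MP_bb4c62_an.JL.Fam

/-!
# Module JL/KOne (Jordan product)

Let `y, V y` be independent. There is `f` with `f y = 1` and `f (V y) ^ 2 ≠ f (V (V y))`: `f = f0 + t h`, `f0 y = 1`,
`f0 (V y) = 0`, `h y = 0`, `h (V y) = 1` (`exists_dual_family`), `t ^ 2 ≠ f0 (V (V y)) + t h (V (V y))` for some `t` (monic
polynomial of degree two; one of `t = 0, 1, -1` works). Let `S = ten y f`, `U ∈ ℓ` with `Prp 1 U S` (`meet`). If
`U = c V + s` then `U S + S U = ten (c V y + 2 s y) f + ten (c y) (f ∘ V)`; `qn_two` (QP/Basic): trace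
`2 c f (V y) + 2 s = 0`, determinant `c ^ 2 (f (V y) ^ 2 - f (V (V y))) = 0`; so `c = 0`, `s = 0`, `U = 0`, a
contradiction to `hl_nt`.
-/

namespace Pool.Agent.H.MP_bb4c62_an.JL

open Pool.Agent.H.MP_bb4c62_an.helper6.NL
open Pool.Agent.H.MP_bb4c62_an.helper6.Perturb
open Pool.Agent.H.MP_bb4c62_an.helper6.Gadgets

variable {X : Type*} [NormedAddCommGroup X] [NormedSpace ℂ X]

theorem KOne_f {V : X →L[ℂ] X} {y : X} (hy : LinearIndependent ℂ ![y, V y]) :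
    ∃ f : X →L[ℂ] ℂ, f y = 1 ∧ f (V y) ^ 2 ≠ f (V (V y)) := by
  obtain ⟨f0, hf0⟩ := exists_dual hy ![1, 0]
  obtain ⟨h, hh⟩ := exists_dual hy ![0, 1]
  have h1 : f0 y = 1 := by simpa using hf0 0
  have h2 : f0 (V y) = 0 := by simpa using hf0 1
  have h3 : h y = 0 := by simpa using hh 0
  have h4 : h (V y) = 1 := by simpa using hh 1
  have key : ∃ t : ℂ, t ^ 2 ≠ f0 (V (V y)) + t * h (V (V y)) := by
    by_contra hcon
    push Not at hcon
    have e0 := hcon 0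
    have e1 := hcon 1
    have e2 := hcon (-1)
    have e3 : (1 : ℂ) = 0 := by linear_combination (e1 + e2) / 2 - e0
    exact one_ne_zero e3
  obtain ⟨t, ht⟩ := key
  refine ⟨f0 + t • h, ?_, ?_⟩
  · show f0 y + t * h y = 1
    rw [h1, h3, mul_zero, add_zero]
  · show (f0 (V y) + t * h (V y)) ^ 2 ≠ f0 (V (V y)) + t * h (V (V y))
    rw [h2, h4, mul_one, zero_add]
    exact ht

theorem kone [CompleteSpace X] {ℓ : Set (X →L[ℂ] X)} (hℓ : HLine 1 ℓ) {V : X →L[ℂ] X} {y : X}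
    (hy : LinearIndependent ℂ ![y, V y]) :
    ∃ U ∈ ℓ, ¬ ∃ c s : ℂ, U = c • V + s • (1 : X →L[ℂ] X) := by
  obtain ⟨f, hf1, hf2⟩ := KOne_f hy
  obtain ⟨U, hU, hUS⟩ := hℓ.meet (ten y f)
  refine ⟨U, hU, ?_⟩
  rintro ⟨c, s, hc⟩
  unfold Prp at hUS
  rw [one_smul, mul_ten, ten_mul] at hUS
  obtain ⟨h1, h2⟩ := QP.qn_two hUS
  have hUx : ∀ x, U x = c • V x + s • x := by
    intro x
    rw [hc]
    rfl
  have h3 : f (U y) = c * f (V y) + s := by
    rw [hUx, map_add, map_smul, map_smul, smul_eq_mul, smul_eq_mul, hf1, mul_one]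
  have h4 : f (U (U y)) = c * (c * f (V (V y)) + s * f (V y)) + s * f (U y) := by
    rw [hUx (U y), map_add, map_smul, map_smul, smul_eq_mul, smul_eq_mul, hUx y, map_add, map_smul,
      map_smul, map_add, map_smul, map_smul, smul_eq_mul, smul_eq_mul]
  have h1' : f (U y) + f (U y) = 0 := h1
  have h2' : f (U y) * f (U y) - f y * f (U (U y)) = 0 := h2
  have h5 : f (U y) = 0 := by linear_combination h1' / 2
  rw [h4, h5, hf1] at h2'
  rw [h5] at h3
  have h6 : c ^ 2 * (f (V y) ^ 2 - f (V (V y))) = 0 := by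
    linear_combination h2' + c * f (V y) * (0 - 1) * h3
  have h7 : c = 0 := by
    rcases mul_eq_zero.mp h6 with h8 | h8
    · exact pow_eq_zero_iff two_ne_zero |>.mp h8
    · exact absurd (sub_eq_zero.mp h8) hf2
  rw [h7, zero_mul, zero_add] at h3
  refine hl_nt hℓ hU ⟨0, Or.inr rfl, ?_⟩
  rw [hc, h7, ← h3, zero_smul, zero_smul, add_zero]

/-- the same for both signs -/
theorem kone' [CompleteSpace X] {e : ℂ} (he : Sg e) {ℓ : Set (X →L[ℂ] X)} (hℓ : HLine e ℓ)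
    {V : X →L[ℂ] X} (hV : V ∈ ℓ) {y : X} (hy : LinearIndependent ℂ ![y, V y]) :
    ∃ U ∈ ℓ, ¬ ∃ c s : ℂ, U = c • V + s • (1 : X →L[ℂ] X) := by
  rcases he with rfl | rfl
  · exact kone hℓ hy
  · by_contra hcon
    push Not at hcon
    obtain ⟨A, hA, B, hB, hAB⟩ := hℓ.two
    have h1 : ∀ U ∈ ℓ, Par (-1) V U := by
      intro U hU
      obtain ⟨c, s, hc⟩ := hcon U hU
      exact ⟨c, s, Or.inl rfl, hc⟩
    exact hAB (par_trans (par_symm (hl_nt hℓ hA) (h1 A hA)) (h1 B hB))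

end Pool.Agent.H.MP_bb4c62_an.JL
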