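import Pool.Agent.H.MP_bb4c62_an.JL.Defs

/-!
# Module JL/LldB: dimension counts

`exists_ker_notMem`: `R` restricted to the span `V` of the 5 vectors has kernel of dimension at least `5 - 2 = 3`
(rank-nullity), and `span {p, q}` has dimension at most two, so the kernel is not contained in it. `exists_two_mod`,
`exists_notMem4`: `finrank` of the span of three (four) vectors is at most three (four); quotient, or choose step by step
among the five vectors.
-/

namespace Pool.Agent.H.MP_bb4c62_an.JL

open Pool.Agent.H.MP_bb4c62_an.QP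

variable {E : Type*} [AddCommGroup E] [Module ℂ E]

theorem LldB_inj {v : Fin 5 → E} (hv : LinearIndependent ℂ v) :
    Function.Injective (Fintype.linearCombination ℂ v) :=
  linearIndependent_iff_injective_fintypeLinearCombination.1 hv

theorem LldB_fd {n : ℕ} (w : Fin n → E) :
    FiniteDimensional ℂ (Submodule.span ℂ (Set.range w)) ∧
      Module.finrank ℂ (Submodule.span ℂ (Set.range w)) ≤ n := by
  refine ⟨FiniteDimensional.span_of_finite ℂ (Set.finite_range w), ?_⟩
  have h := finrank_range_le_card (R := ℂ) w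
  rw [Fintype.card_fin] at h
  exact h

omit [AddCommGroup E] [Module ℂ E] in
theorem LldB_two (p q : E) : (Set.range ![p, q] : Set E) = {p, q} := by
  rw [Matrix.range_cons, Matrix.range_cons, Matrix.range_empty, Set.union_empty,
    Set.singleton_union]

omit [AddCommGroup E] [Module ℂ E] in
theorem LldB_four (p q r s : E) : (Set.range ![p, q, r, s] : Set E) = {p, q, r, s} := by
  rw [Matrix.range_cons, Matrix.range_cons, Matrix.range_cons, Matrix.range_cons,
    Matrix.range_empty, Set.union_empty, Set.singleton_union, Set.singleton_union,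
    Set.singleton_union]

theorem exists_ker_notMem (h5 : Dim5 E) (p q : E) (R : E →ₗ[ℂ] E)
    (hR : ∀ z, R z ∈ Submodule.span ℂ {p, q}) :
    ∃ w, w ∉ Submodule.span ℂ {p, q} ∧ R w = 0 := by
  by_contra hcon
  push Not at hcon
  obtain ⟨v, hv⟩ := h5
  obtain ⟨hfd, hle⟩ := LldB_fd ![p, q]
  rw [LldB_two] at hfd hle
  set W := Submodule.span ℂ ({p, q} : Set E) with hW
  set f := Fintype.linearCombination ℂ v with hf
  have hinj : Function.Injective f := LldB_inj hv
  let g : (Fin 5 → ℂ) →ₗ[ℂ] W := LinearMap.codRestrict W (R ∘ₗ f) (fun x => hR (f x))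
  have hrn := LinearMap.finrank_range_add_finrank_ker g
  have h5' : Module.finrank ℂ (Fin 5 → ℂ) = 5 := by
    rw [Module.finrank_fintype_fun_eq_card, Fintype.card_fin]
  have hr : Module.finrank ℂ (LinearMap.range g) ≤ 2 :=
    (Submodule.finrank_le (LinearMap.range g)).trans hle
  have hk : ∀ x ∈ LinearMap.ker g, f x ∈ W := by
    intro x hx
    by_contra h
    refine hcon (f x) h ?_
    have h1 : ((g x : W) : E) = 0 := by
      rw [LinearMap.mem_ker.1 hx]
      rfl
    exact h1
  let j : LinearMap.ker g →ₗ[ℂ] W :=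
    LinearMap.codRestrict W (f ∘ₗ (LinearMap.ker g).subtype) (fun x => hk x.1 x.2)
  have hj : Function.Injective j := by
    intro x y hxy
    have h1 : f x.1 = f y.1 := congrArg Subtype.val hxy
    exact Subtype.ext (hinj h1)
  have hk2 : Module.finrank ℂ (LinearMap.ker g) ≤ 2 :=
    (LinearMap.finrank_le_finrank_of_injective hj).trans hle
  omega

/-- a vector outside of a subspace of dimension at most four -/
theorem LldB_notMem4 (h5 : Dim5 E) (p q r s : E) :
    ∃ u : E, u ∉ Submodule.span ℂ {p, q, r, s} := by
  by_contra hcon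
  push Not at hcon
  obtain ⟨v, hv⟩ := h5
  obtain ⟨hfd, hle⟩ := LldB_fd ![p, q, r, s]
  rw [LldB_four] at hfd hle
  let g : (Fin 5 → ℂ) →ₗ[ℂ] Submodule.span ℂ ({p, q, r, s} : Set E) :=
    LinearMap.codRestrict _ (Fintype.linearCombination ℂ v) (fun x => hcon _)
  have hg : Function.Injective g := by
    intro x y hxy
    exact LldB_inj hv (congrArg Subtype.val hxy)
  have h1 := (LinearMap.finrank_le_finrank_of_injective hg).trans hle
  rw [Module.finrank_fintype_fun_eq_card, Fintype.card_fin] at h1
  omega

/-- outside of a subspace of dimension at most three there are two vectors which are independent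
modulo this subspace -/
theorem exists_two_mod (h5 : Dim5 E) (p q r : E) :
    ∃ u v : E, ∀ a b : ℂ, a • u + b • v ∈ Submodule.span ℂ {p, q, r} → a = 0 ∧ b = 0 := by
  obtain ⟨u, hu⟩ := LldB_notMem4 h5 p q r r
  obtain ⟨v, hv⟩ := LldB_notMem4 h5 p q r u
  have hu' : u ∉ Submodule.span ℂ ({p, q, r} : Set E) := by
    intro h
    refine hu (Submodule.span_mono ?_ h)
    intro x hx
    rcases hx with h | h | h
    · exact Or.inl h
    · exact Or.inr (Or.inl h)
    · exact Or.inr (Or.inr (Or.inl h))
  have hsub : Submodule.span ℂ ({p, q, r} : Set E) ≤ Submodule.span ℂ ({p, q, r, u} : Set E) := by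
    refine Submodule.span_mono ?_
    intro x hx
    rcases hx with h | h | h
    · exact Or.inl h
    · exact Or.inr (Or.inl h)
    · exact Or.inr (Or.inr (Or.inl h))
  have huu : u ∈ Submodule.span ℂ ({p, q, r, u} : Set E) :=
    Submodule.subset_span (Or.inr (Or.inr (Or.inr rfl)))
  refine ⟨u, v, fun a b hab => ?_⟩
  have hb : b = 0 := by
    by_contra hb
    apply hv
    have h1 := Submodule.sub_mem _ (hsub hab) (Submodule.smul_mem _ a huu)
    rw [add_sub_cancel_left] at h1
    have h2 := Submodule.smul_mem _ b⁻¹ h1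
    rwa [smul_smul, inv_mul_cancel₀ hb, one_smul] at h2
  refine ⟨?_, hb⟩
  by_contra ha
  apply hu'
  rw [hb, zero_smul, add_zero] at hab
  have h2 := Submodule.smul_mem _ a⁻¹ hab
  rwa [smul_smul, inv_mul_cancel₀ ha, one_smul] at h2

/-- a vector outside of a subspace of dimension at most four -/
theorem exists_notMem4 (h5 : Dim5 E) (p q r s : E) :
    ∃ u : E, u ∉ Submodule.span ℂ {p, q, r, s} :=
  LldB_notMem4 h5 p q r s

end Pool.Agent.H.MP_bb4c62_an.JL
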