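import Pool.Agent.H.MP_bb4c62_an.JL.LldA
import Pool.Agent.H.MP_bb4c62_an.JL.LldB

/-!
# Module JL/LldC: local linear dependence of `1, T, B`

`lld`. If `T` is locally scalar so is `B` (`mul_of_local` in QP/Basic with `A = 1`). Otherwise let
`y0, T y0` be independent.
(A) if there are `e0, e1` with `e0, T e0, e1, T e1` independent: `B e0 = s0 e0 + c0 T e0`, `B e1 = s1 e1 + c1 T e1`,
`B (e0 + e1) = s (e0 + e1) + c (T e0 + T e1)` give `s0 = s1 = s`, `c0 = c1 = c`. For any `z` there is `t ≠ 0` such that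
`z + t e1, T (z + t e1), e0, T e0` are independent (otherwise the determinant of the values of the two dual
functionals of `e1, T e1` vanishing in `e0, T e0`, a monic polynomial of degree two in `t`, is `0` for all `t ≠ 0`),
so `B (z + t e1) = s (z + t e1) + c T (z + t e1)` and `B z = s z + c T z`.
(B) otherwise, `P = span {y0, T y0}`: for every `z ∉ P`, `T z ∈ P + ℂ z`, `scalar_mod` (with `K = ⊥`):
`T = l + R`, `R` maps into `P`. `B z ∈ span {z, T z}`, so `B z ∈ P + ℂ z` for `z ∉ P`, `scalar_mod` again: `B = m + R'`. For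
`z ∉ P`: `R' z` is a multiple of `R z`. `w ∉ P`, `R w = 0` (`exists_ker_notMem`): `R' w = 0`, and for `z ∈ P`
`R' z = R' (z + w)` is a multiple of `R (z + w) = R z`. `mul_of_local`: `R' = c R`, `B = c T + (m - c l)`.
-/

namespace Pool.Agent.H.MP_bb4c62_an.JL

open Pool.Agent.H.MP_bb4c62_an.QP

variable {E : Type*} [AddCommGroup E] [Module ℂ E]

private def LldC_Ind4 (x y z w : E) : Prop :=
  ∀ a b c d : ℂ, a • x + b • y + c • z + d • w = 0 → a = 0 ∧ b = 0 ∧ c = 0 ∧ d = 0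

/-- functionals dual to the last two vectors -/
private theorem LldC_dual {x y z w : E} (h : LldC_Ind4 x y z w) :
    ∃ f g : E →ₗ[ℂ] ℂ, f x = 0 ∧ f y = 0 ∧ f z = 1 ∧ f w = 0 ∧
      g x = 0 ∧ g y = 0 ∧ g z = 0 ∧ g w = 1 := by
  have hv : LinearIndependent ℂ ![x, y, z, w] := by
    rw [Fintype.linearIndependent_iff]
    intro c hc
    rw [Fin.sum_univ_four] at hc
    obtain ⟨h0, h1, h2, h3⟩ := h _ _ _ _ hc
    intro i
    fin_cases i
    · exact h0
    · exact h1
    · exact h2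
    · exact h3
  obtain ⟨L, hL⟩ := LinearMap.exists_extend (hv.repr : _ →ₗ[ℂ] (Fin 4 →₀ ℂ))
  have key : ∀ i : Fin 4, L (![x, y, z, w] i) = Finsupp.single i 1 := by
    intro i
    have h1 := LinearMap.congr_fun hL ⟨![x, y, z, w] i, Submodule.subset_span ⟨i, rfl⟩⟩
    rw [LinearMap.comp_apply, Submodule.subtype_apply] at h1
    rw [h1]
    exact hv.repr_eq_single i _ rfl
  have k0 : L x = Finsupp.single 0 1 := key 0
  have k1 : L y = Finsupp.single 1 1 := key 1
  have k2 : L z = Finsupp.single 2 1 := key 2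
  have k3 : L w = Finsupp.single 3 1 := key 3
  refine ⟨(Finsupp.lapply 2).comp L, (Finsupp.lapply 3).comp L, ?_, ?_, ?_, ?_, ?_, ?_, ?_, ?_⟩ <;>
    simp [k0, k1, k2, k3, Finsupp.single_apply]

/-- a nonzero determinant gives independence -/
private theorem LldC_ind {x y z w : E} {f g : E →ₗ[ℂ] ℂ}
    (hxy : ∀ a b : ℂ, a • x + b • y = 0 → a = 0 ∧ b = 0) (fx : f x = 0) (fy : f y = 0)
    (gx : g x = 0) (gy : g y = 0) (hd : f z * g w - g z * f w ≠ 0) : LldC_Ind4 x y z w := by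
  intro a b c d h
  have h1 := congrArg f h
  have h2 := congrArg g h
  simp only [map_add, map_smul, fx, fy, gx, gy, smul_eq_mul, mul_zero, zero_add, map_zero] at h1 h2
  have hc : c * (f z * g w - g z * f w) = 0 := by linear_combination g w * h1 - f w * h2
  have hd' : d * (f z * g w - g z * f w) = 0 := by linear_combination f z * h2 - g z * h1
  have hc0 := (mul_eq_zero.mp hc).resolve_right hd
  have hd0 := (mul_eq_zero.mp hd').resolve_right hd
  rw [hc0, hd0, zero_smul, zero_smul, add_zero, add_zero] at h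
  obtain ⟨ha, hb⟩ := hxy a b h
  exact ⟨ha, hb, hc0, hd0⟩

private theorem LldC_kill {T R : E →ₗ[ℂ] E} (h : ∀ y, ∃ a b : ℂ, R y = a • y + b • T y) {e y : E}
    (he : R e = 0) (hi : LldC_Ind4 e (T e) y (T y)) : R y = 0 := by
  obtain ⟨a, b, h1⟩ := h y
  obtain ⟨a', b', h2⟩ := h (y + e)
  rw [map_add, map_add, he, add_zero, h1, smul_add, smul_add] at h2
  have h3 : (-a') • e + (-b') • T e + (a - a') • y + (b - b') • T y = 0 := by
    rw [neg_smul, neg_smul, sub_smul, sub_smul]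
    have h4 : a • y + b • T y - (a' • y + a' • e + (b' • T y + b' • T e)) = 0 :=
      sub_eq_zero.mpr h2
    rw [← h4]
    abel
  obtain ⟨k1, k2, k3, k4⟩ := hi _ _ _ _ h3
  rw [neg_eq_zero] at k1 k2
  rw [k1, sub_zero] at k3
  rw [k2, sub_zero] at k4
  rw [h1, k3, k4, zero_smul, zero_smul, add_zero]

/-- the generic case -/
private theorem LldC_caseA (T B : E →ₗ[ℂ] E) (h : ∀ y, ∃ a b : ℂ, B y = a • y + b • T y)
    {e0 e1 : E} (hi : LldC_Ind4 e0 (T e0) e1 (T e1)) :
    ∃ c s : ℂ, ∀ y, B y = c • T y + s • y := by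
  obtain ⟨s, c, h0⟩ := h e0
  refine ⟨c, s, ?_⟩
  obtain ⟨R, hRdef⟩ : ∃ R : E →ₗ[ℂ] E, ∀ y, R y = B y - c • T y - s • y :=
    ⟨B - c • T - s • LinearMap.id, fun y => by simp⟩
  have hR : ∀ y, ∃ a b : ℂ, R y = a • y + b • T y := by
    intro y
    obtain ⟨a, b, hy⟩ := h y
    refine ⟨a - s, b - c, ?_⟩
    rw [hRdef, hy, sub_smul, sub_smul]
    abel
  have hR0 : R e0 = 0 := by
    rw [hRdef, h0]
    abel
  have hR1 : R e1 = 0 := LldC_kill hR hR0 hi
  obtain ⟨f, g, f0, f1, f2, f3, g0, g1, g2, g3⟩ := LldC_dual hi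
  have hxy : ∀ a b : ℂ, a • e0 + b • T e0 = 0 → a = 0 ∧ b = 0 := by
    intro a b hab
    obtain ⟨k1, k2, -, -⟩ := hi a b 0 0 (by rw [hab, zero_smul, zero_smul, add_zero, add_zero])
    exact ⟨k1, k2⟩
  have hz : ∀ z, R z = 0 := by
    intro z
    have key : ∃ t : ℂ, f (z + t • e1) * g (T (z + t • e1)) - g (z + t • e1) * f (T (z + t • e1)) ≠ 0 := by
      by_contra hcon
      push Not at hcon
      have t1 := hcon 1
      have t2 := hcon 2
      have t3 := hcon 3
      simp only [map_add, map_smul, f2, f3, g2, g3, smul_eq_mul, mul_one, mul_zero, add_zero] at t1 t2 t3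
      have h9 : (2 : ℂ) = 0 := by linear_combination t1 - 2 * t2 + t3
      norm_num at h9
    obtain ⟨t, ht⟩ := key
    have h5 := LldC_ind (z := z + t • e1) (w := T (z + t • e1)) hxy f0 f1 g0 g1 ht
    have h6 := LldC_kill hR hR0 h5
    rw [map_add, map_smul, hR1, smul_zero, add_zero] at h6
    exact h6
  intro y
  have h7 := hz y
  rw [hRdef, sub_sub, sub_eq_zero] at h7
  exact h7

theorem lld (h5 : Dim5 E) (T B : E →ₗ[ℂ] E) (h : ∀ y, ∃ a b : ℂ, B y = a • y + b • T y) :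
    ∃ c s : ℂ, ∀ y, B y = c • T y + s • y := by
  by_cases hA : ∃ e0 e1 : E, LldC_Ind4 e0 (T e0) e1 (T e1)
  · obtain ⟨e0, e1, hi⟩ := hA
    exact LldC_caseA T B h hi
  by_cases hT : ∀ y, ∃ c : ℂ, T y = c • y
  · obtain ⟨s, hs⟩ := mul_of_local (LinearMap.id : E →ₗ[ℂ] E) B fun y => by
      obtain ⟨a, b, hab⟩ := h y
      obtain ⟨c, hc⟩ := hT y
      exact ⟨a + b * c, by rw [hab, hc, LinearMap.id_apply, add_smul, mul_smul]⟩
    refine ⟨0, s, fun y => ?_⟩
    rw [hs y, zero_smul, zero_add, LinearMap.id_apply]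
  push Not at hT
  obtain ⟨y0, hy0⟩ := hT
  have hy00 : y0 ≠ 0 := by
    intro h0
    apply hy0 0
    rw [h0, map_zero, smul_zero]
  have hind : ∀ a b : ℂ, a • y0 + b • T y0 = 0 → a = 0 ∧ b = 0 := by
    intro a b hab
    have hb : b = 0 := by
      by_contra hb
      apply hy0 (-(b⁻¹ * a))
      have h1 : b • T y0 = -(a • y0) := by
        rw [eq_neg_iff_add_eq_zero, add_comm]
        exact hab
      rw [neg_smul, mul_smul, ← smul_neg, ← h1, smul_smul, inv_mul_cancel₀ hb, one_smul]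
    rw [hb, zero_smul, add_zero] at hab
    exact ⟨(smul_eq_zero.mp hab).resolve_right hy00, hb⟩
  obtain ⟨P, hP⟩ : ∃ P : Submodule ℂ E, P = Submodule.span ℂ {y0, T y0} := ⟨_, rfl⟩
  have hmem : ∀ a b : ℂ, a • y0 + b • T y0 ∈ P := by
    intro a b
    rw [hP]
    exact Submodule.mem_span_pair.mpr ⟨a, b, rfl⟩
  have hTP : ∀ z, z ∉ P → ∃ c : ℂ, T z - c • z ∈ P := by
    intro z hz
    have h1 : ¬ LldC_Ind4 y0 (T y0) z (T z) := fun hi => hA ⟨y0, z, hi⟩
    unfold LldC_Ind4 at h1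
    push Not at h1
    obtain ⟨a, b, c, d, h2, h3⟩ := h1
    have hd : d ≠ 0 := by
      intro hd
      rw [hd, zero_smul, add_zero] at h2
      by_cases hc : c = 0
      · rw [hc, zero_smul, add_zero] at h2
        obtain ⟨ha, hb⟩ := hind a b h2
        exact h3 ha hb hc hd
      · apply hz
        have h4 : c • z = -(a • y0 + b • T y0) := by
          rw [eq_neg_iff_add_eq_zero, add_comm]
          exact h2
        have h5 : z = c⁻¹ • -(a • y0 + b • T y0) := by
          rw [← h4, smul_smul, inv_mul_cancel₀ hc, one_smul]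
        rw [h5]
        exact P.smul_mem _ (P.neg_mem (hmem a b))
    refine ⟨-(d⁻¹ * c), ?_⟩
    have h4 : T z - (-(d⁻¹ * c)) • z = d⁻¹ • -(a • y0 + b • T y0) := by
      have h5 : d • T z = -(a • y0 + b • T y0) - c • z := by
        rw [eq_sub_iff_add_eq, eq_neg_iff_add_eq_zero, ← h2]
        abel
      have h6 : T z = d⁻¹ • (-(a • y0 + b • T y0) - c • z) := by
        rw [← h5, smul_smul, inv_mul_cancel₀ hd, one_smul]
      rw [h6, smul_sub, neg_smul, mul_smul]
      abel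
    rw [h4]
    exact P.smul_mem _ (P.neg_mem (hmem a b))
  have hbot : (⊥ : Submodule ℂ E) ≠ ⊤ := by
    intro hbt
    apply hy00
    have h1 : y0 ∈ (⊤ : Submodule ℂ E) := Submodule.mem_top
    rw [← hbt, Submodule.mem_bot] at h1
    exact h1
  have h2 : ∃ u v : E, ∀ a b : ℂ, a • u + b • v ∈ P → a = 0 ∧ b = 0 := by
    obtain ⟨u, v, huv⟩ := exists_two_mod h5 y0 (T y0) 0
    refine ⟨u, v, fun a b hab => huv a b ?_⟩
    rw [hP] at hab
    refine Submodule.span_mono ?_ hab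
    intro x hx
    rcases hx with hx | hx
    · exact Or.inl hx
    · exact Or.inr (Or.inl hx)
  obtain ⟨l, hl⟩ := scalar_mod P ⊥ hbot h2 T fun z hz _ => hTP z hz
  obtain ⟨m, hm⟩ := scalar_mod P ⊥ hbot h2 B fun z hz _ => by
    obtain ⟨a, b, hab⟩ := h z
    refine ⟨a + b * l, ?_⟩
    have h3 : B z - (a + b * l) • z = b • (T z - l • z) := by
      rw [hab, add_smul, smul_sub, mul_smul]
      abel
    rw [h3]
    exact P.smul_mem _ (hl z)
  obtain ⟨R, hR⟩ : ∃ R : E →ₗ[ℂ] E, ∀ z, R z = T z - l • z :=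
    ⟨T - l • LinearMap.id, fun z => by simp⟩
  obtain ⟨R', hR'⟩ : ∃ R' : E →ₗ[ℂ] E, ∀ z, R' z = B z - m • z :=
    ⟨B - m • LinearMap.id, fun z => by simp⟩
  have hoff : ∀ z, z ∉ P → ∃ b : ℂ, R' z = b • R z := by
    intro z hz
    obtain ⟨a, b, hab⟩ := h z
    refine ⟨b, ?_⟩
    have h3 : (m - a - b * l) • z = b • R z - R' z := by
      rw [hR, hR', hab, smul_sub, sub_smul, sub_smul, mul_smul]
      abel
    have h4 : b • R z - R' z ∈ P := by
      rw [hR, hR']
      exact P.sub_mem (P.smul_mem _ (hl z)) (hm z)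
    have h6 : m - a - b * l = 0 := by
      by_contra h6
      apply hz
      have h7 : z = (m - a - b * l)⁻¹ • (b • R z - R' z) := by
        rw [← h3, smul_smul, inv_mul_cancel₀ h6, one_smul]
      rw [h7]
      exact P.smul_mem _ h4
    rw [h6, zero_smul] at h3
    exact (sub_eq_zero.mp h3.symm).symm
  obtain ⟨w, hw, hRw⟩ := exists_ker_notMem h5 y0 (T y0) R fun z => by
    rw [hR, ← hP]
    exact hl z
  rw [← hP] at hw
  have hR'w : R' w = 0 := by
    obtain ⟨b, hb⟩ := hoff w hw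
    rw [hb, hRw, smul_zero]
  obtain ⟨c, hc⟩ := mul_of_local R R' fun z => by
    by_cases hz : z ∈ P
    · have h3 : z + w ∉ P := fun h4 => hw ((P.add_mem_iff_right hz).mp h4)
      obtain ⟨b, hb⟩ := hoff _ h3
      rw [map_add, map_add, hRw, hR'w, add_zero, add_zero] at hb
      exact ⟨b, hb⟩
    · exact hoff z hz
  refine ⟨c, m - c * l, fun y => ?_⟩
  have h3 := hc y
  rw [hR, hR', smul_sub, sub_eq_iff_eq_add] at h3
  rw [h3, sub_smul, mul_smul]
  abel

end Pool.Agent.H.MP_bb4c62_an.JL
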