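import Pool.Agent.H.MP_bb4c62_an.JL.Data
import Pool.Agent.H.MP_bb4c62_an.JL.Ext0
import Pool.Agent.H.MP_bb4c62_an.JL.JFin
import Pool.Agent.H.MP_bb4c62_an.JL.Conv

/-!
# Module JL/Main: the description

`flags`, `data_one` / `data_two`, `PData.std` (QP/PData): `τ, S, Q`. For every `T` the hypothesis of `ext_iso` (`E = X`,
`TE = T`, resp. `E` the dual, `TE` the adjoint `adj T`):
`P e e' = 0`: `P (TE e) e' = 0 ↔ Prp e T (ten ..) ↔ Prp e (φ T) (φ (ten ..)) ↔ q e' (φ T (p e)) = 0` (`prp_one`, `prp_add`,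
`prp_smul`, `prp_symm`; `S e = d p e`, `Q e' = d' q e'`). So `φ T (S e) = c S (TE e) + s S e`. `e = -1`: if `c = 0` then
`TE = a` is a scalar, `T` is a scalar, replace `(0, s)` by `(1, s - τ a)`. `e = 1`: `θ T = τ⁻¹ c • T + τ⁻¹ s`,
`φ T (S e) = S ((θ T) e)`, `conj_one` / `conj_two`, `theta_zero`. `adm1`, `adm2` in QP/Ext.
-/

namespace Pool.Agent.H.MP_bb4c62_an.JL

open Pool.Agent.H.MP_bb4c62_an.helper6.NL
open Pool.Agent.H.MP_bb4c62_an.helper6.Perturb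
open Pool.Agent.H.MP_bb4c62_an.helper6.Gadgets
open Pool.Agent.H.MP_bb4c62_an.QP (PData PStd ev adm1 adm2)

variable {X : Type*} [NormedAddCommGroup X] [NormedSpace ℂ X]
variable {Y : Type*} [NormedAddCommGroup Y] [NormedSpace ℂ Y]

theorem Main_prp [CompleteSpace Y] {e s d : ℂ} (he : Sg e) (hs : Sc e s) (hd : d ≠ 0)
    {A : Y →L[ℂ] Y} {y : Y} {g : Y →L[ℂ] ℂ} (hg : g y = 0) :
    Prp e A (s • (1 : Y →L[ℂ] Y) + d • ten y g) ↔ g (A y) = 0 := by
  rw [prp_symm he, add_comm, prp_add hs]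
  have h1 : Prp e (d • ten y g) A ↔ Prp e (ten y g) A := by
    constructor
    · intro h
      have h2 := prp_smul h d⁻¹
      rwa [smul_smul, inv_mul_cancel₀ hd, one_smul] at h2
    · intro h
      exact prp_smul h d
  rw [h1, prp_symm he, prp_one he hg]

theorem Main_ext [CompleteSpace X] [CompleteSpace Y] {e : ℂ} (he : Sg e)
    {φ : (X →L[ℂ] X) → (Y →L[ℂ] Y)} (h : Pres e φ)
    {E E' : Type*} [AddCommGroup E] [Module ℂ E] [AddCommGroup E'] [Module ℂ E']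
    {P : E →ₗ[ℂ] E' →ₗ[ℂ] ℂ} (R : E → E' → (X →L[ℂ] X))
    {p : E → Y} {q : E' → (Y →L[ℂ] ℂ)} (D : PData P p q) (h5 : Dim5 E) {τ : ℂ ≃+* ℂ}
    {S : E ≃+ Y} {Q : E' → (Y →L[ℂ] ℂ)} (hS : PStd P p q τ S Q)
    (hpq : ∀ a a', a ≠ 0 → a' ≠ 0 → P a a' = 0 → q a' (p a) = 0 ∧
      ∃ d s : ℂ, d ≠ 0 ∧ Sc e s ∧ φ (R a a') = s • (1 : Y →L[ℂ] Y) + d • ten (p a) (q a'))
    (T : X →L[ℂ] X) (TE : E →ₗ[ℂ] E)
    (hT : ∀ a a', P a a' = 0 → (Prp e T (R a a') ↔ P (TE a) a' = 0)) :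
    ∃ c s : ℂ, (c = 0 → ∃ b : ℂ, ∀ a, TE a = b • a) ∧
      ∀ a, φ T (S a) = c • S (TE a) + s • S a := by
  refine ext_iso D h5 hS TE (φ T) ?_
  intro a a' hP
  by_cases ha : a = 0
  · rw [ha, map_zero, map_zero, map_zero, map_zero, map_zero]
    simp
  by_cases ha' : a' = 0
  · have hQ : Q a' (φ T (S a)) = 0 := by
      obtain ⟨x, hx⟩ := S.surjective (φ T (S a))
      rw [← hx, hS.pair, ha', map_zero, map_zero]
    rw [hQ, ha', map_zero]
  obtain ⟨h0, d, s, hd, hs, h1⟩ := hpq a a' ha ha' hP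
  obtain ⟨u, hu, hu'⟩ := hS.Sp a ha
  obtain ⟨v, hv, hv'⟩ := hS.Qm a' ha'
  rw [← hT a a' hP, ← h.iff, h1, Main_prp he hs hd h0, hu', hv']
  constructor
  · intro h2
    show v * q a' (φ T (u • p a)) = 0
    rw [map_smul, map_smul, h2, smul_zero, mul_zero]
  · intro h2
    have h3 : v * q a' (φ T (u • p a)) = 0 := h2
    rw [map_smul, map_smul, smul_eq_mul] at h3
    exact (mul_eq_zero.mp ((mul_eq_zero.mp h3).resolve_left hv)).resolve_left hu

theorem Main_dim3 {E : Type*} [AddCommGroup E] [Module ℂ E] (h : Dim5 E) :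
    ∃ v : Fin 3 → E, LinearIndependent ℂ v := by
  obtain ⟨v, hv⟩ := h
  exact ⟨v ∘ Fin.castLE (by norm_num), hv.comp _ (Fin.castLE_injective (by norm_num))⟩

theorem Main_dual (h : Dim5 X) : Dim5 (X →L[ℂ] ℂ) := by
  obtain ⟨v, hv⟩ := h
  obtain ⟨f, hf⟩ := exists_dual_family hv
  refine ⟨f, ?_⟩
  rw [Fintype.linearIndependent_iff]
  intro t ht
  by_contra hcon
  push Not at hcon
  obtain ⟨i, hi⟩ := hcon
  exact exists_comb_dual hf (t := t) (fun h => hi (congrFun h i)) ht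

/-- first type -/
theorem Main_form1 [CompleteSpace X] [CompleteSpace Y] {e : ℂ} (he : Sg e) (hX : Dim5 X)
    {φ : (X →L[ℂ] X) → (Y →L[ℂ] Y)} (h : Pres e φ)
    {p : X → Y} {q : (X →L[ℂ] ℂ) → (Y →L[ℂ] ℂ)}
    (hpq : ∀ x f, x ≠ 0 → f ≠ 0 → f x = 0 → q f (p x) = 0 ∧
        ∃ d s : ℂ, d ≠ 0 ∧ Sc e s ∧
          φ (ten x f) = s • (1 : Y →L[ℂ] Y) + d • ten (p x) (q f))
    (D : PData (ev X) p q) {τ : ℂ ≃+* ℂ} {S : X ≃+ Y} {Q : (X →L[ℂ] ℂ) → (Y →L[ℂ] ℂ)}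
    (hS : PStd (ev X) p q τ S Q) : Form e φ := by
  have key : ∀ T : X →L[ℂ] X, ∃ c s : ℂ, (c = 0 → ∃ b : ℂ, ∀ x, T x = b • x) ∧
      ∀ x, φ T (S x) = c • S (T x) + s • S x := fun T =>
    Main_ext he h (fun x f => ten x f) D hX hS (fun x f hx hf hP => hpq x f hx hf hP) T
      (T : X →ₗ[ℂ] X) (fun x f hP => prp_one he hP)
  choose c s hc0 hc using key
  have hadm := adm1 hS
  rcases he with rfl | rfl
  · -- the Jordan product
    obtain ⟨θ, hθ⟩ : ∃ θ : (X →L[ℂ] X) → (X →L[ℂ] X),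
        ∀ T, θ T = τ.symm (c T) • T + τ.symm (s T) • (1 : X →L[ℂ] X) := ⟨_, fun T => rfl⟩
    have h1 : ∀ T x, φ T (S x) = S (θ T x) := by
      intro T x
      rw [hc, hθ]
      show _ = S (τ.symm (c T) • T x + τ.symm (s T) • x)
      rw [map_add, hS.semi, hS.semi, RingEquiv.apply_symm_apply, RingEquiv.apply_symm_apply]
    have h2 := theta_zero hX θ (by
      intro T
      refine ⟨τ.symm (c T), τ.symm (s T), ?_, hθ T⟩
      intro h0
      have h3 : c T = 0 := τ.symm.injective (by rw [h0, map_zero])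
      obtain ⟨b, hb⟩ := hc0 T h3
      exact ⟨b, by ext x; exact hb x⟩) (by
      intro T R
      rw [← h.iff T R]
      exact (conj_one (Or.inl rfl) hadm (h1 T) (h1 R)).symm)
    choose k hk0 hk using h2
    refine ⟨fun T => τ (k T), fun _ => 0, fun T => ?_, fun _ => Or.inr rfl, Or.inl ⟨τ, S, hadm, ?_⟩⟩
    · intro h0
      exact hk0 T (τ.injective (h0.trans (map_zero τ).symm))
    · intro T x
      rw [h1, hk]
      show S (k T • T x) = _
      rw [hS.semi, zero_smul, add_zero]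
  · -- the Lie product
    have h1 : ∀ T, ∃ k m : ℂ, k ≠ 0 ∧ ∀ x, φ T (S x) = k • S (T x) + m • S x := by
      intro T
      by_cases h0 : c T = 0
      · obtain ⟨b, hb⟩ := hc0 T h0
        refine ⟨1, s T - τ b, one_ne_zero, fun x => ?_⟩
        rw [hc, h0, zero_smul, zero_add, hb, hS.semi, one_smul, sub_smul]
        abel
      · exact ⟨c T, s T, h0, hc T⟩
    choose k m hk hkm using h1
    exact ⟨k, m, hk, fun _ => Or.inl rfl, Or.inl ⟨τ, S, hadm, hkm⟩⟩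

/-- second type -/
theorem Main_form2 [CompleteSpace X] [CompleteSpace Y] {e : ℂ} (he : Sg e) (hX : Dim5 X)
    {φ : (X →L[ℂ] X) → (Y →L[ℂ] Y)} (h : Pres e φ)
    {p : (X →L[ℂ] ℂ) → Y} {q : X → (Y →L[ℂ] ℂ)}
    (hpq : ∀ x f, x ≠ 0 → f ≠ 0 → f x = 0 → q x (p f) = 0 ∧
        ∃ d s : ℂ, d ≠ 0 ∧ Sc e s ∧
          φ (ten x f) = s • (1 : Y →L[ℂ] Y) + d • ten (p f) (q x))
    (D : PData (ev X).flip p q) {τ : ℂ ≃+* ℂ} {S : (X →L[ℂ] ℂ) ≃+ Y} {Q : X → (Y →L[ℂ] ℂ)}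
    (hS : PStd (ev X).flip p q τ S Q) : Form e φ := by
  have key : ∀ T : X →L[ℂ] X, ∃ c s : ℂ, (c = 0 → ∃ b : ℂ, ∀ f : X →L[ℂ] ℂ, f.comp T = b • f) ∧
      ∀ f : X →L[ℂ] ℂ, φ T (S f) = c • S (f.comp T) + s • S f := fun T =>
    Main_ext he h (fun f x => ten x f) D (Main_dual hX) hS
      (fun f x hf hx hP => hpq x f hx hf hP) T
      (adj T : (X →L[ℂ] ℂ) →ₗ[ℂ] (X →L[ℂ] ℂ)) (fun f x hP => prp_one he hP)
  choose c s hc0 hc using key
  have hadm := adm2 hS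
  rcases he with rfl | rfl
  · -- the Jordan product
    obtain ⟨θ, hθ⟩ : ∃ θ : (X →L[ℂ] X) → (X →L[ℂ] X),
        ∀ T, θ T = τ.symm (c T) • T + τ.symm (s T) • (1 : X →L[ℂ] X) := ⟨_, fun T => rfl⟩
    have h1 : ∀ (T : X →L[ℂ] X) (f : X →L[ℂ] ℂ), φ T (S f) = S (f.comp (θ T)) := by
      intro T f
      have h3 : f.comp (θ T) = τ.symm (c T) • f.comp T + τ.symm (s T) • f := by
        rw [hθ]
        ext x
        show f (τ.symm (c T) • T x + τ.symm (s T) • x) = _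
        rw [map_add, map_smul, map_smul]
        rfl
      rw [hc, h3, map_add, hS.semi, hS.semi, RingEquiv.apply_symm_apply,
        RingEquiv.apply_symm_apply]
    have h2 := theta_zero hX θ (by
      intro T
      refine ⟨τ.symm (c T), τ.symm (s T), ?_, hθ T⟩
      intro h0
      have h3 : c T = 0 := τ.symm.injective (by rw [h0, map_zero])
      obtain ⟨b, hb⟩ := hc0 T h3
      refine ⟨b, ?_⟩
      ext x
      show T x = b • x
      by_contra hne
      obtain ⟨f, hf⟩ := SeparatingDual.exists_ne_zero (R := ℂ) (sub_ne_zero.mpr hne)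
      apply hf
      have h4 : f (T x) = b * f x := by
        have := congrArg (fun g : X →L[ℂ] ℂ => g x) (hb f)
        exact this
      rw [map_sub, map_smul, h4, smul_eq_mul, sub_self]) (by
      intro T R
      rw [← h.iff T R]
      exact (conj_two (Or.inl rfl) hadm (h1 T) (h1 R)).symm)
    choose k hk0 hk using h2
    refine ⟨fun T => τ (k T), fun _ => 0, fun T => ?_, fun _ => Or.inr rfl, Or.inr ⟨τ, S, hadm, ?_⟩⟩
    · intro h0
      exact hk0 T (τ.injective (h0.trans (map_zero τ).symm))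
    · intro T f
      have h3 : f.comp (θ T) = k T • f.comp T := by
        rw [hk]
        ext x
        show f (k T • T x) = _
        rw [map_smul]
        rfl
      rw [h1, h3, hS.semi, zero_smul, add_zero]
  · -- the Lie product
    have h1 : ∀ T, ∃ k m : ℂ, k ≠ 0 ∧ ∀ f : X →L[ℂ] ℂ,
        φ T (S f) = k • S (f.comp T) + m • S f := by
      intro T
      by_cases h0 : c T = 0
      · obtain ⟨b, hb⟩ := hc0 T h0
        refine ⟨1, s T - τ b, one_ne_zero, fun f => ?_⟩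
        rw [hc, h0, zero_smul, zero_add, hb, hS.semi, one_smul, sub_smul]
        abel
      · exact ⟨c T, s T, h0, hc T⟩
    choose k m hk hkm using h1
    exact ⟨k, m, hk, fun _ => Or.inl rfl, Or.inr ⟨τ, S, hadm, hkm⟩⟩

theorem form_of_pres [CompleteSpace X] [CompleteSpace Y] {e : ℂ} (he : Sg e) (hX : Dim5 X)
    (hY : Dim5 Y) {φ : (X →L[ℂ] X) → (Y →L[ℂ] Y)} (h : Pres e φ) : Form e φ := by
  rcases flags he hX hY h with ⟨p, q, hp, hq, hpq⟩ | ⟨p, q, hp, hq, hpq⟩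
  · have D := data_one he hX hY h hp hq hpq
    obtain ⟨τ, S, Q, hS⟩ := D.std (Main_dim3 hX)
    exact Main_form1 he hX h hpq D hS
  · have D := data_two he hX hY h hp hq hpq
    obtain ⟨τ, S, Q, hS⟩ := D.std (Main_dim3 (Main_dual hX))
    exact Main_form2 he hX h hpq D hS

end Pool.Agent.H.MP_bb4c62_an.JL
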