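import Pool.Agent.H.MP_bb4c62_an.JL.Fam

/-!
# Module JL/Row1

`e = -1`: nothing to prove. `e = 1`. Members are `U = a + ten w f`.
(1) `meet` with `S = 1`: a member `U` with `2 U` quasinilpotent; `qn_eig'` with a functional `g ≠ 0`, `g w = 0`
(`g (U y) = a g y`): `a = 0`; `U w = f w • w`: `f w = 0` (`qn_eig`). Call it `B' = ten w b`, `b ≠ 0`, `b w = 0`.
(2) Choose `u` with `b u = 1`, `y` with `b y = 0`, `y ∉ ℂ w` (so `w, u, y` are independent) and functionals `g, h`: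
`g y = 1`, `g w = g u = 0`, `h w = 1`, `h y = h u = 0`. `S = ten y g + ten u h`. `B' S + S B' = ten w h + ten u b`
(`b ∘ S = b y • g + b u • h = h`, `S w = u`) has trace `2`: `¬ Prp 1 B' S` (`qn_two`). `meet`: a member
`A' = a + ten w f` with `Prp 1 A' S`; `g ∘ S = g`, `g ∘ A' = a g` (`g w = 0`), so `g ∘ (A' S + S A') = 2 a g`, `qn_eig'`:
`a = 0`. `f` is not a multiple of `b`. So `¬ Par 1 A' B'`.
(3) A member `W = m + ten w k`. Choose `y` with `f y = b y = 0`, `y ∉ ℂ w` and `g` with `g y = 1`, `g w = 0`; `S = ten y g`: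
`A' S + S A' = 0`, `B' S + S B' = 0`, so `Prp 1 W S` by `gen`; `g ∘ (W S + S W) = 2 m g`, so `m = 0`.
-/

namespace Pool.Agent.H.MP_bb4c62_an.JL

open Pool.Agent.H.MP_bb4c62_an.helper6.NL
open Pool.Agent.H.MP_bb4c62_an.helper6.Perturb
open Pool.Agent.H.MP_bb4c62_an.helper6.Gadgets

variable {X : Type*} [NormedAddCommGroup X] [NormedSpace ℂ X]

theorem Row1_sc {s : ℂ} (h : Sc 1 s) : s = 0 := by
  rcases h with h | h
  · exfalso
    norm_num at h
  · exact h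

theorem Row1_fn {a : ℂ} {w : X} {f g : X →L[ℂ] ℂ} (hgw : g w = 0) (z : X) :
    g ((a • (1 : X →L[ℂ] X) + ten w f) z) = a * g z := by
  have h1 : (a • (1 : X →L[ℂ] X) + ten w f) z = a • z + f z • w := rfl
  rw [h1, map_add, map_smul, map_smul, hgw, smul_eq_mul, smul_zero, add_zero]

theorem Row1_a [CompleteSpace X] {a : ℂ} {w : X} {f g : X →L[ℂ] ℂ} {S : X →L[ℂ] X}
    (hg : g ≠ 0) (hgw : g w = 0) (hS : ∀ y, g (S y) = g y)
    (h : Prp 1 (a • (1 : X →L[ℂ] X) + ten w f) S) : a = 0 := by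
  have h0 : QN ((a • (1 : X →L[ℂ] X) + ten w f) * S +
      (1 : ℂ) • (S * (a • (1 : X →L[ℂ] X) + ten w f))) := h
  have h2 : 2 * a = 0 := by
    refine qn_eig' h0 hg fun y => ?_
    have h3 : ((a • (1 : X →L[ℂ] X) + ten w f) * S +
        (1 : ℂ) • (S * (a • (1 : X →L[ℂ] X) + ten w f))) y =
        (a • (1 : X →L[ℂ] X) + ten w f) (S y) + S ((a • (1 : X →L[ℂ] X) + ten w f) y) := by
      rw [one_smul]
      rfl
    rw [h3, map_add, Row1_fn hgw, hS, hS, Row1_fn hgw]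
    ring
  exact (mul_eq_zero.1 h2).resolve_left two_ne_zero

theorem Row1_y (h5 : Dim5 X) {w : X} (hw : w ≠ 0) (f b : X →L[ℂ] ℂ) :
    ∃ y, f y = 0 ∧ b y = 0 ∧ ¬ ∃ c : ℂ, y = c • w := by
  obtain ⟨q, hq⟩ := exists_notMem4 h5 w w w w
  have hq' : ∀ c : ℂ, c • w ≠ q := by
    intro c hc
    apply hq
    rw [← hc]
    exact Submodule.smul_mem _ _ (Submodule.subset_span (by simp))
  obtain ⟨y, hy1, hy2⟩ := exists_ker_notMem h5 w q
    ((f : X →ₗ[ℂ] ℂ).smulRight w + (b : X →ₗ[ℂ] ℂ).smulRight q) (by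
      intro z
      have h1 : ((f : X →ₗ[ℂ] ℂ).smulRight w + (b : X →ₗ[ℂ] ℂ).smulRight q) z =
        f z • w + b z • q := rfl
      rw [h1]
      exact Submodule.add_mem _ (Submodule.smul_mem _ _ (Submodule.subset_span (by simp)))
        (Submodule.smul_mem _ _ (Submodule.subset_span (by simp))))
  have h2 : f y • w + b y • q = 0 := hy2
  have hb : b y = 0 := by
    by_contra hb
    apply hq' (-(b y)⁻¹ * f y)
    have h3 : q = (b y)⁻¹ • (b y • q) := by rw [smul_smul, inv_mul_cancel₀ hb, one_smul]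
    have h4 : b y • q = -(f y • w) := by
      rw [eq_neg_iff_add_eq_zero, add_comm]
      exact h2
    rw [h3, h4, smul_neg, smul_smul, ← neg_smul, neg_mul]
  have hf : f y = 0 := by
    rw [hb, zero_smul, add_zero] at h2
    exact (smul_eq_zero.1 h2).resolve_right hw
  refine ⟨y, hf, hb, ?_⟩
  rintro ⟨c, hc⟩
  apply hy1
  rw [hc]
  exact Submodule.smul_mem _ _ (Submodule.subset_span (by simp))

theorem Row1_zero [CompleteSpace X] : QN (0 : X →L[ℂ] X) := by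
  have h1 : (0 : X →L[ℂ] X) = ten (0 : X) (0 : X →L[ℂ] ℂ) := by
    ext z
    simp
  rw [h1]
  exact QP.qn_ten_iff.2 (by simp)

theorem Row1_comm [CompleteSpace X] {w y : X} {f g : X →L[ℂ] ℂ} (h1 : f y = 0) (h2 : g w = 0) :
    Prp 1 (ten w f) (ten y g) := by
  have h3 : ten w f * ten y g + (1 : ℂ) • (ten y g * ten w f) = 0 := by
    rw [mul_ten, mul_ten, ten_apply, ten_apply, h1, h2, zero_smul, zero_smul, one_smul]
    ext z
    simp
  show QN (ten w f * ten y g + (1 : ℂ) • (ten y g * ten w f))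
  rw [h3]
  exact Row1_zero

theorem Row1_b [CompleteSpace X] {ℓ : Set (X →L[ℂ] X)} (hℓ : HLine 1 ℓ) {w : X} (hw : w ≠ 0)
    {g : X →L[ℂ] ℂ} (hg : g ≠ 0) (hgw : g w = 0)
    (h : ∀ U ∈ ℓ, ∃ (a : ℂ) (f : X →L[ℂ] ℂ), U = a • (1 : X →L[ℂ] X) + ten w f) :
    ∃ b : X →L[ℂ] ℂ, b ≠ 0 ∧ b w = 0 ∧ ten w b ∈ ℓ := by
  obtain ⟨U, hU, hp⟩ := hℓ.meet 1
  obtain ⟨a, f, rfl⟩ := h U hU
  have ha : a = 0 := Row1_a hg hgw (fun y => rfl) hp
  subst ha
  rw [zero_smul, zero_add] at hU hp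
  refine ⟨f, ?_, ?_, hU⟩
  · intro hf
    apply hl_nt hℓ hU
    refine ⟨0, Or.inr rfl, ?_⟩
    rw [hf]
    ext z
    simp
  · have h0 : QN (ten w f * 1 + (1 : ℂ) • ((1 : X →L[ℂ] X) * ten w f)) := hp
    have h2 : 2 * f w = 0 := by
      refine qn_eig h0 hw ?_
      rw [one_smul, mul_one, one_mul, ← two_mul]
      have h3 : (2 * ten w f) w = (2 : ℂ) • ten w f w := by
        rw [two_mul, two_smul]
        rfl
      rw [h3, ten_apply, smul_smul]
    exact (mul_eq_zero.1 h2).resolve_left two_ne_zero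

theorem Row1_li {w u y : X} {b : X →L[ℂ] ℂ} (hw : w ≠ 0) (hbw : b w = 0) (hu : b u = 1)
    (hby : b y = 0) (hy : ¬ ∃ c : ℂ, y = c • w) : LinearIndependent ℂ ![w, u, y] := by
  rw [Fintype.linearIndependent_iff]
  intro t ht
  rw [Fin.sum_univ_three] at ht
  have ht' : t 0 • w + t 1 • u + t 2 • y = 0 := ht
  have h1 : t 1 = 0 := by
    have := congrArg b ht'
    rw [map_add, map_add, map_smul, map_smul, map_smul, hbw, hu, hby, map_zero, smul_eq_mul,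
      smul_eq_mul, smul_eq_mul, mul_zero, mul_one, mul_zero, zero_add, add_zero] at this
    exact this
  rw [h1, zero_smul, add_zero] at ht'
  have h2 : t 2 = 0 := by
    by_contra h2
    apply hy
    refine ⟨-((t 2)⁻¹ * t 0), ?_⟩
    have h3 : y = (t 2)⁻¹ • (t 2 • y) := by rw [smul_smul, inv_mul_cancel₀ h2, one_smul]
    have h4 : t 2 • y = -(t 0 • w) := by
      rw [eq_neg_iff_add_eq_zero, add_comm]
      exact ht'
    rw [h3, h4, smul_neg, smul_smul, neg_smul]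
  rw [h2, zero_smul, add_zero] at ht'
  have h0 : t 0 = 0 := (smul_eq_zero.1 ht').resolve_right hw
  intro i
  match i with
  | 0 => exact h0
  | 1 => exact h1
  | 2 => exact h2

theorem Row1_not [CompleteSpace X] {w u y : X} {b g h : X →L[ℂ] ℂ} (hu : b u = 1)
    (hby : b y = 0) (hgw : g w = 0) (hhw : h w = 1) : ¬ Prp 1 (ten w b) (ten y g + ten u h) := by
  intro hp
  have h0 : ten w b * (ten y g + ten u h) + (1 : ℂ) • ((ten y g + ten u h) * ten w b) =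
      ten w h + ten u b := by
    rw [one_smul]
    ext z
    show b (g z • y + h z • u) • w + (g (b z • w) • y + h (b z • w) • u) = h z • w + b z • u
    rw [map_add, map_smul, map_smul, map_smul, map_smul, hby, hu, hgw, hhw]
    simp
  have h1 : QN (ten w h + ten u b) := by
    rw [← h0]
    exact hp
  have h2 := (QP.qn_two h1).1
  rw [hhw, hu] at h2
  norm_num at h2

theorem Row1_ab [CompleteSpace X] (h5 : Dim5 X) {ℓ : Set (X →L[ℂ] X)} (hℓ : HLine 1 ℓ) {w : X}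
    (hw : w ≠ 0)
    (h : ∀ U ∈ ℓ, ∃ (a : ℂ) (f : X →L[ℂ] ℂ), U = a • (1 : X →L[ℂ] X) + ten w f) :
    ∃ f b : X →L[ℂ] ℂ, ten w f ∈ ℓ ∧ ten w b ∈ ℓ ∧ ¬ Par 1 (ten w f) (ten w b) := by
  obtain ⟨y0, -, -, hy0⟩ := Row1_y h5 hw 0 0
  obtain ⟨⟨g0, hg0, hg0'⟩, -⟩ := exists_sep' hw hy0
  have hg0n : g0 ≠ 0 := by
    rintro rfl
    simp at hg0'
  obtain ⟨b, hb, hbw, hB⟩ := Row1_b hℓ hw hg0n hg0 h
  obtain ⟨v, hv⟩ : ∃ v, b v ≠ 0 := by
    by_contra hcon
    push Not at hcon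
    exact hb (ContinuousLinearMap.ext hcon)
  obtain ⟨u, hu⟩ : ∃ u, b u = 1 := ⟨(b v)⁻¹ • v, by
    rw [map_smul, smul_eq_mul, inv_mul_cancel₀ hv]⟩
  obtain ⟨y, hby, -, hy⟩ := Row1_y h5 hw b b
  have hli : LinearIndependent ℂ ![w, u, y] := Row1_li hw hbw hu hby hy
  obtain ⟨p, hp⟩ := exists_dual_family hli
  have h0w : p 0 w = 1 := by simpa using hp 0 0
  have h0y : p 0 y = 0 := by simpa using hp 0 2
  have h2w : p 2 w = 0 := by simpa using hp 2 0
  have h2u : p 2 u = 0 := by simpa using hp 2 1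
  have h2y : p 2 y = 1 := by simpa using hp 2 2
  have hn : ¬ Prp 1 (ten w b) (ten y (p 2) + ten u (p 0)) := Row1_not hu hby h2w h0w
  have hgn : p 2 ≠ 0 := by
    intro h3
    rw [h3] at h2y
    simp at h2y
  obtain ⟨A, hA, hAp⟩ := hℓ.meet (ten y (p 2) + ten u (p 0))
  obtain ⟨a, f, rfl⟩ := h A hA
  have ha : a = 0 := by
    refine Row1_a hgn h2w (fun z => ?_) hAp
    have h3 : (ten y (p 2) + ten u (p 0)) z = p 2 z • y + p 0 z • u := rfl
    rw [h3, map_add, map_smul, map_smul, h2y, h2u]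
    simp
  subst ha
  rw [zero_smul, zero_add] at hA hAp
  refine ⟨f, b, hA, hB, ?_⟩
  rintro ⟨c, s, hs, h3⟩
  apply hn
  rw [Row1_sc hs, zero_smul, add_zero] at h3
  rw [h3]
  exact prp_smul hAp c

theorem row_scal [CompleteSpace X] {e : ℂ} (he : Sg e) (h5 : Dim5 X)
    {ℓ : Set (X →L[ℂ] X)} (hℓ : HLine e ℓ) {w : X} (hw : w ≠ 0)
    (h : ∀ U ∈ ℓ, ∃ (a : ℂ) (f : X →L[ℂ] ℂ), U = a • (1 : X →L[ℂ] X) + ten w f) :
    ∀ U ∈ ℓ, ∃ (a : ℂ) (f : X →L[ℂ] ℂ), Sc e a ∧ U = a • (1 : X →L[ℂ] X) + ten w f := by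
  rcases he with rfl | rfl
  · obtain ⟨f, b, hA, hB, hAB⟩ := Row1_ab h5 hℓ hw h
    intro W hW
    obtain ⟨m, k, rfl⟩ := h W hW
    refine ⟨m, k, Or.inr ?_, rfl⟩
    obtain ⟨y, hfy, hby, hy⟩ := Row1_y h5 hw f b
    obtain ⟨⟨g, hg, hg'⟩, -⟩ := exists_sep' hw hy
    have hgn : g ≠ 0 := by
      rintro rfl
      simp at hg'
    have h1 : Prp 1 (m • (1 : X →L[ℂ] X) + ten w k) (ten y g) :=
      ((hℓ.gen _ hA _ hB hAB _).1 hW).2 _ (Row1_comm hfy hg) (Row1_comm hby hg)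
    refine Row1_a hgn hg (fun z => ?_) h1
    rw [ten_apply, map_smul, hg', smul_eq_mul, mul_one]
  · intro U hU
    obtain ⟨a, f, h1⟩ := h U hU
    exact ⟨a, f, Or.inl rfl, h1⟩

end Pool.Agent.H.MP_bb4c62_an.JL
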